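import Mathlib

/-!
# Toeplitz approximation of sequences of subexponential complexity

For a chain `1 = L 0 ∣ L 1 ∣ L 2 ∣ ...` and a sequence `b` put `z n = b (n % L (k + 1))` where `k` is
least with `n % L (k + 1) < L k`.  Then `z` is a Toeplitz sequence which has subexponential
complexity if `b` has.
-/

set_option autoImplicit false

open Finset

namespace Pool.Agent.W136

variable {α : Type*}

/-- Subexponential word complexity. -/
def SubExp (z : ℕ → α) : Prop :=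
  ∀ δ : ℝ, 0 < δ → ∃ N : ℕ, ∀ n : ℕ, N ≤ n → ∃ S : Finset (Fin n → α),
    (S.card : ℝ) ≤ Real.exp (δ * n) ∧ ∀ s : ℕ, (fun i : Fin n => z (s + i)) ∈ S

/-- Hypotheses on the chain. -/
structure Chain (L : ℕ → ℕ) : Prop where
  zero : L 0 = 1
  dvd : ∀ k, L k ∣ L (k + 1)
  lt : ∀ k, L k < L (k + 1)

namespace Chain

variable {L : ℕ → ℕ} (h : Chain L)
include h

lemma pos (k : ℕ) : 0 < L k := by
  cases k with
  | zero => rw [h.zero]; exact one_pos
  | succ k => exact lt_of_le_of_lt (Nat.zero_le _) (h.lt k)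

lemma strictMono : StrictMono L := strictMono_nat_of_lt_succ h.lt

lemma le_of_le {j k : ℕ} (hjk : j ≤ k) : L j ≤ L k := h.strictMono.monotone hjk

lemma dvd_of_le {j k : ℕ} (hjk : j ≤ k) : L j ∣ L k := by
  induction hjk with
  | refl => exact dvd_rfl
  | step _ ih => exact ih.trans (h.dvd _)

lemma succ_le (k : ℕ) : k + 1 ≤ L k := by
  induction k with
  | zero => rw [h.zero]
  | succ k ih => exact Nat.succ_le_of_lt (lt_of_le_of_lt ih (h.lt k))

lemma exists_small (n K : ℕ) : ∃ k, K ≤ k ∧ n % L (k + 1) < L k := by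
  refine ⟨max n K, le_max_right _ _, ?_⟩
  have h1 : n < L (max n K) := lt_of_lt_of_le (lt_of_le_of_lt (le_max_left n K) (Nat.lt_succ_self _))
    (h.succ_le _)
  rw [Nat.mod_eq_of_lt (h1.trans (h.lt _))]
  exact h1

end Chain

open Classical in
/-- least `k ≥ K` with `n % L (k + 1) < L k` -/
noncomputable def kap (L : ℕ → ℕ) (K n : ℕ) : ℕ :=
  if h : ∃ k, K ≤ k ∧ n % L (k + 1) < L k then Nat.find h else 0

lemma kap_spec {L : ℕ → ℕ} (h : Chain L) (K n : ℕ) :
    K ≤ kap L K n ∧ n % L (kap L K n + 1) < L (kap L K n) := by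
  classical
  have h1 := h.exists_small n K
  unfold kap
  rw [dif_pos h1]
  exact Nat.find_spec h1

lemma kap_le {L : ℕ → ℕ} {K n k : ℕ} (h1 : K ≤ k) (h2 : n % L (k + 1) < L k) :
    kap L K n ≤ k := by
  classical
  have h3 : ∃ k, K ≤ k ∧ n % L (k + 1) < L k := ⟨k, h1, h2⟩
  unfold kap
  rw [dif_pos h3]
  exact Nat.find_min' h3 ⟨h1, h2⟩

lemma kap_eq {L : ℕ → ℕ} {K n k : ℕ} (h1 : K ≤ k) (h2 : n % L (k + 1) < L k)
    (h3 : ∀ j, K ≤ j → j < k → ¬ n % L (j + 1) < L j) : kap L K n = k := by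
  classical
  have h4 : ∃ k, K ≤ k ∧ n % L (k + 1) < L k := ⟨k, h1, h2⟩
  refine le_antisymm (kap_le h1 h2) ?_
  by_contra hlt
  push Not at hlt
  have h5 : K ≤ kap L K n ∧ n % L (kap L K n + 1) < L (kap L K n) := by
    unfold kap
    rw [dif_pos h4]
    exact Nat.find_spec h4
  exact h3 _ h5.1 hlt h5.2

/-- two arguments with the same tests have the same `kap` -/
lemma kap_congr {L : ℕ → ℕ} (h : Chain L) {K n m : ℕ}
    (hnm : ∀ k, K ≤ k → (n % L (k + 1) < L k ↔ m % L (k + 1) < L k)) :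
    kap L K n = kap L K m := by
  have h1 := kap_spec h K m
  refine kap_eq h1.1 ((hnm _ h1.1).2 h1.2) ?_
  intro j hj hlt h2
  exact absurd (kap_le hj ((hnm j hj).1 h2)) (not_le.2 hlt)

/-- the Toeplitz sequence -/
noncomputable def toep (L : ℕ → ℕ) (b : ℕ → α) (n : ℕ) : α := b (n % L (kap L 0 n + 1))

/-- the part of the argument that is read when the tests below `K` fail -/
noncomputable def rho (L : ℕ → ℕ) (K n : ℕ) : ℕ := n % L (kap L K n + 1)

lemma toep_period {L : ℕ → ℕ} (h : Chain L) (b : ℕ → α) (n M : ℕ) (hM : L (kap L 0 n + 1) ∣ M)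
    (j : ℕ) : toep L b (n + j * M) = toep L b n := by
  have key : ∀ k, k ≤ kap L 0 n → (n + j * M) % L (k + 1) = n % L (k + 1) := by
    intro k hk
    have h1 : L (k + 1) ∣ j * M :=
      ((h.dvd_of_le (Nat.succ_le_succ hk)).trans hM).trans (dvd_mul_left _ _)
    obtain ⟨c, hc⟩ := h1
    rw [hc, Nat.add_mul_mod_self_left]
  have h1 : kap L 0 (n + j * M) = kap L 0 n := by
    have h2 := kap_spec h 0 n
    refine kap_eq (Nat.zero_le _) ?_ ?_
    · rw [key _ le_rfl]; exact h2.2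
    · intro i _ hi h3
      rw [key _ hi.le] at h3
      exact absurd (kap_le (Nat.zero_le _) h3) (not_le.2 hi)
  unfold toep
  rw [h1, key _ le_rfl]

lemma toep_ne {L : ℕ → ℕ} (h : Chain L) (b : ℕ → α) (n : ℕ) (hn : toep L b n ≠ b n) :
    ∃ k, L (k + 1) ≤ n ∧ n % L (k + 1) < L k := by
  refine ⟨kap L 0 n, ?_, (kap_spec h 0 n).2⟩
  by_contra hlt
  push Not at hlt
  apply hn
  unfold toep
  rw [Nat.mod_eq_of_lt hlt]

lemma add_mod_of_dvd {d m a u : ℕ} (hd : d ∣ m) (hm : 0 < m) (ha : d ∣ a) (hu : u < d) :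
    (a + u) % m = a % m + u := by
  have h1 : d ∣ a % m := (Nat.dvd_mod_iff hd).2 ha
  obtain ⟨x, hx⟩ := h1
  obtain ⟨y, hy⟩ := hd
  have h2 : a % m < m := Nat.mod_lt _ hm
  have h3 : a % m + u < m := by
    rw [hx, hy] at h2
    have h4 : x < y := Nat.lt_of_mul_lt_mul_left h2
    rw [hx, hy]
    calc d * x + u < d * x + d := by omega
      _ = d * (x + 1) := by ring
      _ ≤ d * y := Nat.mul_le_mul_left _ h4
  rw [Nat.add_mod, Nat.mod_eq_of_lt (a := u) (lt_of_le_of_lt (Nat.le_add_left _ _) h3),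
    Nat.mod_eq_of_lt h3]

lemma add_lt_iff_of_dvd {d x y u : ℕ} (hx : d ∣ x) (hy : d ∣ y) (hu : u < d) :
    x + u < y ↔ x < y := by
  obtain ⟨a, rfl⟩ := hx
  obtain ⟨c, rfl⟩ := hy
  constructor
  · intro h; omega
  · intro h
    have h4 : a < c := Nat.lt_of_mul_lt_mul_left h
    calc d * a + u < d * a + d := by omega
      _ = d * (a + 1) := by ring
      _ ≤ d * c := Nat.mul_le_mul_left _ h4

lemma rho_small {L : ℕ → ℕ} (h : Chain L) (K q u : ℕ) (hu : u < L K) :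
    rho L K (q * L (K + 1) + u) = u := by
  have h1 : (q * L (K + 1) + u) % L (K + 1) = u := by
    rw [mul_comm, Nat.mul_add_mod, Nat.mod_eq_of_lt (hu.trans (h.lt K))]
  have h2 : kap L K (q * L (K + 1) + u) = K := by
    refine kap_eq le_rfl (by rw [h1]; exact hu) ?_
    intro j hj hlt
    omega
  unfold rho
  rw [h2, h1]

lemma rho_large {L : ℕ → ℕ} (h : Chain L) (K q u : ℕ) (hu : L K ≤ u) (hu' : u < L (K + 1)) :
    rho L K (q * L (K + 1) + u) =
      (q * L (K + 1)) % L (kap L (K + 1) (q * L (K + 1)) + 1) + u := by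
  have hmod : ∀ k, K + 1 ≤ k → (q * L (K + 1) + u) % L (k + 1) =
      (q * L (K + 1)) % L (k + 1) + u := by
    intro k hk
    exact add_mod_of_dvd (h.dvd_of_le (by omega)) (h.pos _) (dvd_mul_left _ _) hu'
  have hiff : ∀ k, K + 1 ≤ k → ((q * L (K + 1) + u) % L (k + 1) < L k ↔
      (q * L (K + 1)) % L (k + 1) < L k) := by
    intro k hk
    rw [hmod k hk]
    refine add_lt_iff_of_dvd (d := L (K + 1)) ?_ (h.dvd_of_le hk) hu'
    exact (Nat.dvd_mod_iff (h.dvd_of_le (by omega))).2 (dvd_mul_left _ _)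
  have h1 : kap L K (q * L (K + 1) + u) = kap L (K + 1) (q * L (K + 1)) := by
    have h2 := kap_spec h (K + 1) (q * L (K + 1))
    refine kap_eq (by omega) ((hiff _ h2.1).2 h2.2) ?_
    intro j hj hlt h3
    rcases Nat.eq_or_lt_of_le hj with rfl | hj'
    · have h4 : (q * L (K + 1) + u) % L (K + 1) = u := by
        rw [mul_comm, Nat.mul_add_mod, Nat.mod_eq_of_lt hu']
      omega
    · exact absurd (kap_le hj' ((hiff j hj').1 h3)) (not_le.2 hlt)
  unfold rho
  rw [h1, hmod _ (kap_spec h (K + 1) (q * L (K + 1))).1]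

/-- on a window of length at most `L (K + 1)` the map `rho L K` consists of at most four
translations -/
lemma rho_window {L : ℕ → ℕ} (h : Chain L) (K s n : ℕ) (hn : n ≤ L (K + 1)) :
    ∃ c₁ c₂ c₃ : ℕ, c₁ ≤ n ∧ c₂ ≤ n ∧ c₃ ≤ n ∧ ∃ r₁ r₂ r₃ r₄ : ℕ, ∀ i < n, rho L K (s + i) =
      if i < c₁ then r₁ + i else if i < c₂ then r₂ + (i - c₁) else if i < c₃ then r₃ + (i - c₂)
        else r₄ + (i - c₃) := by
  obtain ⟨A, hA⟩ : ∃ A, A = L K := ⟨_, rfl⟩
  obtain ⟨B, hB⟩ : ∃ B, B = L (K + 1) := ⟨_, rfl⟩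
  have hAB : A < B := by rw [hA, hB]; exact h.lt K
  obtain ⟨q, u₀, hs, hu₀⟩ : ∃ q u₀, s = q * B + u₀ ∧ u₀ < B :=
    ⟨s / B, s % B, by rw [mul_comm]; exact (Nat.div_add_mod s B).symm,
      Nat.mod_lt _ (by omega)⟩
  rw [← hB] at hn
  have hsm : ∀ q u, u < A → rho L K (q * B + u) = u := by
    intro q u hu
    rw [hB]; exact rho_small h K q u (by omega)
  have hla : ∀ q u, A ≤ u → u < B → rho L K (q * B + u) =
      (q * B) % L (kap L (K + 1) (q * B) + 1) + u := by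
    intro q u hu hu'
    have := rho_large h K q u (by omega) (by omega)
    rw [← hB] at this
    exact this
  refine ⟨min n (A - u₀), min n (B - u₀), min n (B + A - u₀), min_le_left _ _, min_le_left _ _,
    min_le_left _ _, u₀, (q * B) % L (kap L (K + 1) (q * B) + 1) + u₀ + min n (A - u₀), 0,
    ((q + 1) * B) % L (kap L (K + 1) ((q + 1) * B) + 1) + (u₀ + min n (B + A - u₀) - B), ?_⟩
  intro i hi
  split_ifs with h1 h2 h3
  · rw [hs, add_assoc, hsm _ _ (by omega)]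
  · rw [hs, add_assoc, hla _ _ (by omega) (by omega)]
    omega
  · have e : s + i = (q + 1) * B + (u₀ + i - B) := by
      rw [hs, add_mul, one_mul]; omega
    rw [e, hsm _ _ (by omega)]
    omega
  · have e : s + i = (q + 1) * B + (u₀ + i - B) := by
      rw [hs, add_mul, one_mul]; omega
    rw [e, hla _ _ (by omega) (by omega)]
    omega

/-- description of `toep` at a given level -/
lemma toep_level {L : ℕ → ℕ} (h : Chain L) (b : ℕ → α) (K t : ℕ) :
    ((∃ k < K, (t % L K) % L (k + 1) < L k) → toep L b t = toep L b (t % L K)) ∧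
    ((¬ ∃ k < K, (t % L K) % L (k + 1) < L k) → toep L b t = b (rho L K t)) := by
  have hmod : ∀ k < K, (t % L K) % L (k + 1) = t % L (k + 1) := fun k hk =>
    Nat.mod_mod_of_dvd _ (h.dvd_of_le hk)
  constructor
  · rintro ⟨k, hk, hlt⟩
    have h1 : kap L 0 (t % L K) < K := lt_of_le_of_lt (kap_le (Nat.zero_le _) hlt) hk
    have h2 := toep_period h b (t % L K) (L K) (h.dvd_of_le h1) (t / L K)
    rw [← h2]
    congr 1
    rw [mul_comm]
    exact (Nat.mod_add_div t (L K)).symm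
  · intro hno
    have h1 : kap L 0 t = kap L K t := by
      have h2 := kap_spec h K t
      refine kap_eq (Nat.zero_le _) h2.2 ?_
      intro j _ hj h3
      rcases lt_or_ge j K with hjK | hjK
      · exact hno ⟨j, hjK, by rw [hmod j hjK]; exact h3⟩
      · exact absurd (kap_le hjK h3) (not_le.2 hj)
    unfold toep rho
    rw [h1]

/-- the counting bound -/
theorem toep_count [DecidableEq α] {L : ℕ → ℕ} (h : Chain L) (b : ℕ → α) (n : ℕ) (hn : 1 ≤ n)
    (S : Finset (Fin n → α)) (hS : ∀ s : ℕ, (fun i : Fin n => b (s + i)) ∈ S) :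
    ∃ S' : Finset (Fin n → α), S'.card ≤ n * ((n + 1) ^ 3 * S.card ^ 4) ∧
      ∀ s : ℕ, (fun i : Fin n => toep L b (s + i)) ∈ S' := by
  classical
  -- the level
  obtain ⟨K, hK1, hK2⟩ : ∃ K, L K ≤ n ∧ n < L (K + 1) := by
    have hex : ∃ k, n < L k := ⟨n, h.succ_le n⟩
    have h1 := Nat.find_spec hex
    have h2 : Nat.find hex ≠ 0 := by
      intro h0
      rw [h0, h.zero] at h1
      omega
    obtain ⟨K, hK⟩ := Nat.exists_eq_succ_of_ne_zero h2
    refine ⟨K, ?_, by rw [hK] at h1; exact h1⟩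
    by_contra hlt
    push Not at hlt
    have := Nat.find_min' hex hlt
    omega
  let Φ : (Fin (L K) × (Fin (n + 1) × Fin (n + 1) × Fin (n + 1)) × (S × S × S × S)) →
      (Fin n → α) := fun p i =>
    if ∃ k < K, (((p.1 : ℕ) + (i : ℕ)) % L K) % L (k + 1) < L k then
      toep L b (((p.1 : ℕ) + (i : ℕ)) % L K)
    else if (i : ℕ) < p.2.1.1 then p.2.2.1.1 i
    else if (i : ℕ) < p.2.1.2.1 then
      p.2.2.2.1.1 ⟨i - p.2.1.1, lt_of_le_of_lt (Nat.sub_le _ _) i.2⟩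
    else if (i : ℕ) < p.2.1.2.2 then
      p.2.2.2.2.1.1 ⟨i - p.2.1.2.1, lt_of_le_of_lt (Nat.sub_le _ _) i.2⟩
    else p.2.2.2.2.2.1 ⟨i - p.2.1.2.2, lt_of_le_of_lt (Nat.sub_le _ _) i.2⟩
  refine ⟨univ.image Φ, ?_, ?_⟩
  · refine card_image_le.trans ?_
    rw [card_univ]
    simp only [Fintype.card_prod, Fintype.card_fin, Fintype.card_coe]
    calc L K * ((n + 1) * ((n + 1) * (n + 1)) * (S.card * (S.card * (S.card * S.card))))
        ≤ n * ((n + 1) * ((n + 1) * (n + 1)) * (S.card * (S.card * (S.card * S.card)))) :=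
          Nat.mul_le_mul_right _ hK1
      _ = _ := by ring
  · intro s
    obtain ⟨c₁, c₂, c₃, h1, h2, h3, r₁, r₂, r₃, r₄, hr⟩ := rho_window h K s n hK2.le
    rw [mem_image]
    refine ⟨(⟨s % L K, Nat.mod_lt _ (h.pos K)⟩, (⟨c₁, by omega⟩, ⟨c₂, by omega⟩, ⟨c₃, by omega⟩),
      (⟨_, hS r₁⟩, ⟨_, hS r₂⟩, ⟨_, hS r₃⟩, ⟨_, hS r₄⟩)), mem_univ _, ?_⟩
    funext i
    have hmod : (s % L K + i) % L K = (s + i) % L K := by
      rw [Nat.add_mod, Nat.mod_mod, ← Nat.add_mod]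
    have h4 := toep_level h b K (s + i)
    have h5 := hr i i.2
    simp only [Φ, hmod]
    by_cases hc : ∃ k < K, ((s + i) % L K) % L (k + 1) < L k
    · rw [if_pos hc, h4.1 hc]
    · rw [if_neg hc, h4.2 hc, h5]
      split_ifs <;> rfl

theorem toep_subExp {L : ℕ → ℕ} (h : Chain L) (b : ℕ → α) (hb : SubExp b) :
    SubExp (toep L b) := by
  classical
  intro δ hδ
  obtain ⟨N, hN⟩ := hb (δ / 8) (by positivity)
  -- `n (n+1)^3 ≤ exp (δ n / 2)` for large `n`
  have hlim : ∃ M : ℕ, ∀ n : ℕ, M ≤ n → (n : ℝ) * ((n : ℝ) + 1) ^ 3 ≤ Real.exp (δ / 2 * n) := by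
    have h1 : Filter.Tendsto (fun x : ℝ => x ^ 4 * Real.exp (-x)) Filter.atTop (nhds 0) :=
      Real.tendsto_pow_mul_exp_neg_atTop_nhds_zero 4
    have h2 : Filter.Tendsto (fun n : ℕ => δ / 2 * (n : ℝ)) Filter.atTop Filter.atTop :=
      tendsto_natCast_atTop_atTop.const_mul_atTop (by positivity)
    have h3 := h1.comp h2
    have h4 : (0 : ℝ) < (δ / 2) ^ 4 / 8 := by positivity
    obtain ⟨M, hM⟩ := Filter.eventually_atTop.1 (h3.eventually (gt_mem_nhds h4))
    refine ⟨max M 1, fun n hn => ?_⟩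
    have h5 := hM n ((le_max_left _ _).trans hn)
    have hn1 : (1 : ℝ) ≤ n := by exact_mod_cast (le_max_right M 1).trans hn
    simp only [Function.comp] at h5
    have h6 : (n : ℝ) * ((n : ℝ) + 1) ^ 3 ≤ 8 * (n : ℝ) ^ 4 := by
      have h7 : ((n : ℝ) + 1) ^ 3 ≤ (2 * n) ^ 3 := by
        apply pow_le_pow_left₀ (by positivity); linarith
      calc (n : ℝ) * ((n : ℝ) + 1) ^ 3 ≤ n * (2 * n) ^ 3 := by gcongr
        _ = 8 * (n : ℝ) ^ 4 := by ring
    rw [Real.exp_neg] at h5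
    have h8 : (0 : ℝ) < Real.exp (δ / 2 * n) := Real.exp_pos _
    rw [← div_eq_mul_inv, div_lt_iff₀ h8, mul_pow] at h5
    have h9 : (0 : ℝ) < (δ / 2) ^ 4 := by positivity
    have h10 : (n : ℝ) ^ 4 * 8 < Real.exp (δ / 2 * n) := by
      have : (δ / 2) ^ 4 * ((n : ℝ) ^ 4 * 8) < (δ / 2) ^ 4 * Real.exp (δ / 2 * n) := by linarith
      exact lt_of_mul_lt_mul_left this h9.le
    linarith
  obtain ⟨M, hM⟩ := hlim
  refine ⟨max (max N M) 1, fun n hn => ?_⟩
  have hn1 : N ≤ n := ((le_max_left _ _).trans (le_max_left _ _)).trans hn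
  have hn2 : M ≤ n := ((le_max_right _ _).trans (le_max_left _ _)).trans hn
  have hn3 : 1 ≤ n := (le_max_right _ _).trans hn
  obtain ⟨S, hS1, hS2⟩ := hN n hn1
  obtain ⟨S', hS'1, hS'2⟩ := toep_count h b n hn3 S hS2
  refine ⟨S', ?_, hS'2⟩
  have h1 : (S'.card : ℝ) ≤ (n : ℝ) * (((n : ℝ) + 1) ^ 3 * (S.card : ℝ) ^ 4) := by
    exact_mod_cast hS'1
  have h2 : (S.card : ℝ) ^ 4 ≤ Real.exp (δ / 2 * n) := by
    calc (S.card : ℝ) ^ 4 ≤ Real.exp (δ / 8 * n) ^ 4 :=
          pow_le_pow_left₀ (by positivity) hS1 4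
      _ = Real.exp (δ / 2 * n) := by
          rw [← Real.exp_nat_mul]; congr 1; push_cast; ring
  calc (S'.card : ℝ) ≤ (n : ℝ) * (((n : ℝ) + 1) ^ 3 * (S.card : ℝ) ^ 4) := h1
    _ = ((n : ℝ) * ((n : ℝ) + 1) ^ 3) * (S.card : ℝ) ^ 4 := by ring
    _ ≤ Real.exp (δ / 2 * n) * Real.exp (δ / 2 * n) :=
        mul_le_mul (hM n hn2) h2 (by positivity) (Real.exp_pos _).le
    _ = Real.exp (δ * n) := by rw [← Real.exp_add]; congr 1; ring

end Pool.Agent.W136
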