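import Mathlib
import Pool.Agent.Helper222.CPE.Ent
import Pool.Agent.W136.Toep

/-!
# Symbolic approximation of observables of zero entropy systems
-/

set_option autoImplicit false

open Finset

namespace Pool.Agent.W136

/-- windows of a sequence that is made of blocks of length `B` from the collection `W` from `B` on -/
theorem block_count {α : Type*} [DecidableEq α] (B : ℕ) (hB : 0 < B) (W : Finset (Fin B → α))
    (a : ℕ → α) (ha : ∀ q : ℕ, 1 ≤ q → (fun i : Fin B => a (q * B + i)) ∈ W) (n : ℕ) :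
    ∃ S : Finset (Fin n → α), S.card ≤ B + B * W.card ^ (n / B + 2) ∧
      ∀ s : ℕ, (fun i : Fin n => a (s + i)) ∈ S := by
  classical
  let Φ : Fin B × (Fin (n / B + 2) → W) → (Fin n → α) := fun p i =>
    (p.2 ⟨((p.1 : ℕ) + (i : ℕ)) / B, by
      have h1 := p.1.2
      have h2 := i.2
      have h3 : ((p.1 : ℕ) + (i : ℕ)) / B ≤ (n + B) / B := Nat.div_le_div_right (by omega)
      rw [Nat.add_div_right _ hB] at h3
      omega⟩).1 ⟨((p.1 : ℕ) + (i : ℕ)) % B, Nat.mod_lt _ hB⟩
  refine ⟨(range B).image (fun s => fun i : Fin n => a (s + i)) ∪ univ.image Φ, ?_, ?_⟩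
  · refine (card_union_le _ _).trans ?_
    refine Nat.add_le_add ?_ ?_
    · refine card_image_le.trans ?_
      rw [card_range]
    · refine card_image_le.trans ?_
      rw [card_univ]
      simp only [Fintype.card_prod, Fintype.card_fin, Fintype.card_coe, Fintype.card_fun]
      exact le_rfl
  · intro s
    rw [mem_union]
    by_cases hs : s < B
    · left
      exact mem_image.2 ⟨s, mem_range.2 hs, rfl⟩
    · right
      rw [mem_image]
      have hq : 1 ≤ s / B := (Nat.one_le_div_iff hB).2 (not_lt.1 hs)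
      refine ⟨(⟨s % B, Nat.mod_lt _ hB⟩, fun j => ⟨_, ha (s / B + j) (by omega)⟩), mem_univ _, ?_⟩
      funext i
      simp only [Φ]
      congr 1
      have h1 := Nat.div_add_mod s B
      have h2 := Nat.div_add_mod (s % B + i) B
      calc (s / B + (s % B + i) / B) * B + (s % B + i) % B
          = B * (s / B) + (B * ((s % B + i) / B) + (s % B + i) % B) := by ring
        _ = B * (s / B) + (s % B + i) := by rw [h2]
        _ = s + i := by omega

section Hier

variable {X : Type} (T : X → X) (L : ℕ → ℕ) (c : ℕ → X → X)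

/-- the hierarchical approximation -/
def hier {α : Type*} (f : X → α) : ℕ → X → ℕ → α
  | 0, y, _ => f (c 0 y)
  | k + 1, y, i => hier f k (T^[L k * (i / L k)] (c (k + 1) y)) (i % L k)

lemma hier_mem {α : Type*} (f : X → α) (k : ℕ) (y : X) (i : ℕ) :
    ∃ y', hier T L c f k y i = f (c 0 y') := by
  induction k generalizing y i with
  | zero => exact ⟨y, rfl⟩
  | succ k ih => exact ih _ _

variable {L}

lemma hier_block {α : Type*} (hL : Chain L) (f : X → α) (K k : ℕ) (hk : K ≤ k) (y : X) (q : ℕ)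
    (hq : (q + 1) * L K ≤ L k) :
    ∃ y', ∀ i < L K, hier T L c f k y (q * L K + i) = hier T L c f K y' i := by
  induction k, hk using Nat.le_induction generalizing y q with
  | base =>
    have h1 := hL.pos K
    have h2 : q = 0 := by
      by_contra h0
      have : 2 * L K ≤ (q + 1) * L K := Nat.mul_le_mul_right _ (by omega)
      omega
    subst h2
    exact ⟨y, fun i _ => by rw [zero_mul, zero_add]⟩
  | succ k hk ih =>
    obtain ⟨d, hd⟩ := hL.dvd_of_le hk
    have hpos := hL.pos K
    have hposk := hL.pos k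
    have hd0 : 0 < d := by
      rcases Nat.eq_zero_or_pos d with h0 | h0
      · rw [h0, mul_zero] at hd; omega
      · exact h0
    have key : ∀ i < L K, (q * L K + i) / L k = q / d ∧
        (q * L K + i) % L k = (q % d) * L K + i := by
      intro i hi
      have hqd := Nat.div_add_mod q d
      have hlt : (q % d) * L K + i < L k := by
        have h3 : q % d < d := Nat.mod_lt _ hd0
        calc (q % d) * L K + i < (q % d) * L K + L K := by omega
          _ = (q % d + 1) * L K := by ring
          _ ≤ d * L K := Nat.mul_le_mul_right _ h3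
          _ = L k := by rw [hd, mul_comm]
      have e : q * L K + i = L k * (q / d) + ((q % d) * L K + i) := by
        calc q * L K + i = (d * (q / d) + q % d) * L K + i := by rw [hqd]
          _ = (L K * d) * (q / d) + ((q % d) * L K + i) := by ring
          _ = _ := by rw [← hd]
      rw [e]
      constructor
      · rw [Nat.mul_add_div hposk, Nat.div_eq_of_lt hlt, add_zero]
      · rw [Nat.mul_add_mod, Nat.mod_eq_of_lt hlt]
    obtain ⟨y', hy'⟩ := ih (T^[L k * (q / d)] (c (k + 1) y)) (q % d) (by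
      have h3 : q % d < d := Nat.mod_lt _ hd0
      calc (q % d + 1) * L K ≤ d * L K := Nat.mul_le_mul_right _ h3
        _ = L k := by rw [hd, mul_comm])
    refine ⟨y', fun i hi => ?_⟩
    rw [← hy' i hi]
    show hier T L c f k (T^[L k * ((q * L K + i) / L k)] (c (k + 1) y)) ((q * L K + i) % L k) = _
    rw [(key i hi).1, (key i hi).2]

lemma hier_center {α : Type*} (f : X → α) (K : ℕ) (y y' : X) (h : c K y = c K y') :
    hier T L c f K y = hier T L c f K y' := by
  cases K with
  | zero => funext i; show f (c 0 y) = f (c 0 y'); rw [h]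
  | succ k =>
    funext i
    show hier T L c f k (T^[L k * (i / L k)] (c (k + 1) y)) (i % L k) =
      hier T L c f k (T^[L k * (i / L k)] (c (k + 1) y')) (i % L k)
    rw [h]

lemma hier_close (hL : Chain L) (f : X → ℂ) (e : ℕ → ℝ)
    (hc : ∀ k y, ∀ i < L k, ‖f (T^[i] y) - f (T^[i] (c k y))‖ ≤ e k) (k : ℕ) (y : X) (i : ℕ)
    (hi : i < L k) : ‖hier T L c f k y i - f (T^[i] y)‖ ≤ ∑ j ∈ range (k + 1), e j := by
  induction k generalizing y i with
  | zero =>
    rw [hL.zero] at hi
    have h0 : i = 0 := by omega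
    subst h0
    rw [zero_add, sum_range_one, norm_sub_rev]
    exact hc 0 y 0 (by rw [hL.zero]; omega)
  | succ k ih =>
    rw [sum_range_succ]
    have h1 := ih (T^[L k * (i / L k)] (c (k + 1) y)) (i % L k) (Nat.mod_lt _ (hL.pos k))
    rw [← Function.iterate_add_apply, add_comm (i % L k), Nat.div_add_mod] at h1
    have h2 := hc (k + 1) y i hi
    rw [norm_sub_rev] at h2
    calc ‖hier T L c f (k + 1) y i - f (T^[i] y)‖
        = ‖(hier T L c f k (T^[L k * (i / L k)] (c (k + 1) y)) (i % L k)
            - f (T^[i] (c (k + 1) y))) + (f (T^[i] (c (k + 1) y)) - f (T^[i] y))‖ := by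
          rw [sub_add_sub_cancel]; rfl
      _ ≤ _ := (norm_add_le _ _).trans (add_le_add h1 h2)

end Hier

/-- symbolic approximation -/
theorem symb {X : Type} [MetricSpace X] [CompactSpace X] (T : X → X)
    (hent : ¬ 0 < Dynamics.coverEntropy T (Set.univ : Set X)) (f : X → ℂ) (hf : Continuous f)
    (x : X) (ε : ℝ) (hε : 0 < ε) :
    ∃ a : ℕ → ℂ, (Set.range a).Finite ∧ SubExp a ∧ ∀ n, ‖a n - f (T^[n] x)‖ ≤ ε := by
  classical
  have hfu : UniformContinuous f := CompactSpace.uniformContinuous_of_continuous hf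
  -- data at each level
  have hη : ∀ k : ℕ, ∃ η : ℝ, 0 < η ∧ ∀ a b : X, dist a b < η → ‖f a - f b‖ ≤ ε / 2 ^ (k + 1) := by
    intro k
    obtain ⟨η, h1, h2⟩ := Metric.uniformContinuous_iff.1 hfu (ε / 2 ^ (k + 1)) (by positivity)
    exact ⟨η, h1, fun a b hab => by rw [← dist_eq_norm]; exact (h2 hab).le⟩
  choose η hη0 hη using hη
  have hN := fun k : ℕ => (Helper222.CPE.ent_iff T).1 hent (η k) (hη0 k) (1 / ((k : ℝ) + 1))
    (by positivity)
  choose N hN using hN
  -- the chain
  obtain ⟨L, hL0, hLs⟩ : ∃ L : ℕ → ℕ, L 0 = 1 ∧ ∀ k, L (k + 1) = L k * (N (k + 1) + 2) := by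
    refine ⟨fun k => Nat.rec 1 (fun k r => r * (N (k + 1) + 2)) k, rfl, fun k => rfl⟩
  have hpos : ∀ k, 0 < L k := by
    intro k
    induction k with
    | zero => rw [hL0]; exact one_pos
    | succ k ih => rw [hLs]; positivity
  have hL : Chain L := ⟨hL0, fun k => ⟨_, hLs k⟩, fun k => by
    rw [hLs]
    have := hpos k
    calc L k < L k * 2 := by omega
      _ ≤ L k * (N (k + 1) + 2) := Nat.mul_le_mul_left _ (by omega)⟩
  have hLN : ∀ k, 1 ≤ k → N k ≤ L k := by
    intro k hk
    obtain ⟨j, rfl⟩ : ∃ j, k = j + 1 := ⟨k - 1, by omega⟩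
    rw [hLs]
    calc N (j + 1) ≤ 1 * (N (j + 1) + 2) := by omega
      _ ≤ L j * (N (j + 1) + 2) := Nat.mul_le_mul_right _ (hpos j)
  -- nets
  have hnet : ∀ k : ℕ, ∃ s : Finset X, (1 ≤ k → (s.card : ℝ) ≤ Real.exp (1 / ((k : ℝ) + 1) * L k)) ∧
      ∀ y : X, ∃ z ∈ s, ∀ i < L k, dist (T^[i] y) (T^[i] z) < η k := by
    intro k
    rcases Nat.eq_zero_or_pos k with rfl | hk
    · obtain ⟨s, _, h2⟩ := hN 0 (max (N 0) 1) (le_max_left _ _)
      refine ⟨s, fun h => absurd h (by norm_num), fun y => ?_⟩
      obtain ⟨z, hz, h3⟩ := h2 y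
      exact ⟨z, hz, fun i hi => h3 i (lt_of_lt_of_le hi (by rw [hL0]; exact le_max_right _ _))⟩
    · obtain ⟨s, h1, h2⟩ := hN k (L k) (hLN k hk)
      exact ⟨s, fun _ => h1, h2⟩
  choose E hE1 hE2 using hnet
  choose c hc1 hc2 using hE2
  -- the sequence
  have hex : ∀ n, ∃ k, n < L k := fun n => ⟨n, hL.succ_le n⟩
  let a : ℕ → ℂ := fun n => hier T L c f (Nat.find (hex n)) x n
  have hblock : ∀ K q, 1 ≤ q → ∃ y, ∀ i < L K, a (q * L K + i) = hier T L c f K y i := by
    intro K q hq
    have h1 := Nat.find_spec (hex (q * L K))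
    obtain ⟨k, hk⟩ : ∃ k, k = Nat.find (hex (q * L K)) := ⟨_, rfl⟩
    rw [← hk] at h1
    have hKq : L K ≤ q * L K := Nat.le_mul_of_pos_left _ hq
    have hKk : K ≤ k := by
      by_contra hlt
      push Not at hlt
      have := hL.le_of_le hlt.le
      omega
    obtain ⟨d, hd⟩ := hL.dvd_of_le hKk
    have hqd : q < d := by
      rw [hd, mul_comm] at h1
      exact Nat.lt_of_mul_lt_mul_left h1
    obtain ⟨y, hy⟩ := hier_block T c hL f K k hKk x q (by
      rw [hd, mul_comm (L K)]
      exact Nat.mul_le_mul_right _ hqd)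
    refine ⟨y, fun i hi => ?_⟩
    rw [← hy i hi]
    have hfind : Nat.find (hex (q * L K + i)) = k := by
      rw [Nat.find_eq_iff]
      constructor
      · calc q * L K + i < q * L K + L K := by omega
          _ = (q + 1) * L K := by ring
          _ ≤ d * L K := Nat.mul_le_mul_right _ hqd
          _ = L k := by rw [hd, mul_comm]
      · intro j hj
        rw [hk] at hj
        have := Nat.find_min (hex (q * L K)) hj
        omega
    show hier T L c f (Nat.find (hex (q * L K + i))) x (q * L K + i) = _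
    rw [hfind]
  refine ⟨a, ?_, ?_, ?_⟩
  · refine Set.Finite.subset ((E 0).image f).finite_toSet ?_
    rintro _ ⟨n, rfl⟩
    obtain ⟨y, hy⟩ := hier_mem T L c f (Nat.find (hex n)) x n
    show hier T L c f (Nat.find (hex n)) x n ∈ _
    rw [hy]
    exact mem_coe.2 (mem_image.2 ⟨_, hc1 0 y, rfl⟩)
  · -- complexity
    intro δ hδ
    obtain ⟨K0, hK0⟩ : ∃ K0 : ℕ, 3 / ((K0 : ℝ) + 1) ≤ δ / 2 := by
      obtain ⟨K0, hK0⟩ := exists_nat_gt (3 / (δ / 2))
      refine ⟨K0, ?_⟩
      rw [div_lt_iff₀ (by positivity)] at hK0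
      rw [div_le_iff₀ (by positivity)]
      nlinarith
    obtain ⟨M, hM⟩ : ∃ M : ℕ, ∀ n : ℕ, M ≤ n → 2 * (n : ℝ) ≤ Real.exp (δ / 2 * n) := by
      have h1 : Filter.Tendsto (fun x : ℝ => x ^ 1 * Real.exp (-x)) Filter.atTop (nhds 0) :=
        Real.tendsto_pow_mul_exp_neg_atTop_nhds_zero 1
      have h2 : Filter.Tendsto (fun n : ℕ => δ / 2 * (n : ℝ)) Filter.atTop Filter.atTop :=
        tendsto_natCast_atTop_atTop.const_mul_atTop (by positivity)
      have h3 := h1.comp h2
      have h4 : (0 : ℝ) < (δ / 2) / 2 := by positivity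
      obtain ⟨M, hM⟩ := Filter.eventually_atTop.1 (h3.eventually (gt_mem_nhds h4))
      refine ⟨M, fun n hn => ?_⟩
      have h5 := hM n hn
      simp only [Function.comp, pow_one] at h5
      rw [Real.exp_neg] at h5
      have h8 : (0 : ℝ) < Real.exp (δ / 2 * n) := Real.exp_pos _
      rw [← div_eq_mul_inv, div_lt_iff₀ h8] at h5
      have h9 : (0 : ℝ) < δ / 2 := by positivity
      have : (δ / 2) * (2 * (n : ℝ)) < (δ / 2) * Real.exp (δ / 2 * n) := by linarith
      exact (lt_of_mul_lt_mul_left this h9.le).le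
    refine ⟨max M (L (K0 + 1)), fun n hn => ?_⟩
    have hnM := (le_max_left _ _).trans hn
    have hnL := (le_max_right M (L (K0 + 1))).trans hn
    -- the level of `n`
    obtain ⟨K, hK1, hK2⟩ : ∃ K, L K ≤ n ∧ n < L (K + 1) := by
      have h1 := Nat.find_spec (hex n)
      have h2 : Nat.find (hex n) ≠ 0 := by
        intro h0
        rw [h0, hL0] at h1
        have := hpos (K0 + 1)
        omega
      obtain ⟨K, hK⟩ := Nat.exists_eq_succ_of_ne_zero h2
      refine ⟨K, ?_, by rw [hK] at h1; exact h1⟩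
      by_contra hlt
      push Not at hlt
      have := Nat.find_min' (hex n) hlt
      omega
    have hKK : K0 + 1 ≤ K := by
      by_contra hlt
      push Not at hlt
      have := hL.le_of_le (show K + 1 ≤ K0 + 1 by omega)
      omega
    -- the words of level `K`
    let W : Finset (Fin (L K) → ℂ) :=
      (E K).image fun z => if h : ∃ y, c K y = z then
        (fun i : Fin (L K) => hier T L c f K h.choose i) else fun _ => 0
    have hWc : (W.card : ℝ) ≤ Real.exp (1 / ((K : ℝ) + 1) * L K) := by
      refine le_trans ?_ (hE1 K (by omega))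
      exact_mod_cast card_image_le
    have hW : ∀ q : ℕ, 1 ≤ q → (fun i : Fin (L K) => a (q * L K + i)) ∈ W := by
      intro q hq
      obtain ⟨y, hy⟩ := hblock K q hq
      refine mem_image.2 ⟨c K y, hc1 K y, ?_⟩
      have h : ∃ y', c K y' = c K y := ⟨y, rfl⟩
      rw [dif_pos h]
      funext i
      rw [hy i i.2, hier_center T c f K _ _ h.choose_spec]
    obtain ⟨S, hS1, hS2⟩ := block_count (L K) (hpos K) W a hW n
    refine ⟨S, ?_, hS2⟩
    have hW1 : (1 : ℝ) ≤ W.card := by
      have : 0 < W.card := card_pos.2 ⟨_, hW 1 le_rfl⟩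
      exact_mod_cast this
    have hLpos : (0 : ℝ) < L K := by exact_mod_cast hpos K
    have h1 : (W.card : ℝ) ^ (n / L K + 2) ≤ Real.exp (δ / 2 * n) := by
      calc (W.card : ℝ) ^ (n / L K + 2) ≤ Real.exp (1 / ((K : ℝ) + 1) * L K) ^ (n / L K + 2) :=
            pow_le_pow_left₀ (by positivity) hWc _
        _ = Real.exp (((n / L K + 2 : ℕ) : ℝ) * (1 / ((K : ℝ) + 1) * L K)) := by
            rw [← Real.exp_nat_mul]
        _ ≤ Real.exp (δ / 2 * n) := by
            apply Real.exp_le_exp.2
            have h2 : ((n / L K + 2 : ℕ) : ℝ) * L K ≤ 3 * n := by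
              have h3 : (n / L K + 2) * L K ≤ 3 * n := by
                have h4 : n / L K * L K ≤ n := Nat.div_mul_le_self n (L K)
                calc (n / L K + 2) * L K = n / L K * L K + 2 * L K := by ring
                  _ ≤ 3 * n := by omega
              exact_mod_cast h3
            have h5 : 1 / ((K : ℝ) + 1) ≤ 1 / ((K0 : ℝ) + 1) := by
              apply one_div_le_one_div_of_le (by positivity)
              have : ((K0 : ℝ) + 1) ≤ K := by exact_mod_cast hKK
              linarith
            calc ((n / L K + 2 : ℕ) : ℝ) * (1 / ((K : ℝ) + 1) * L K)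
                = (1 / ((K : ℝ) + 1)) * (((n / L K + 2 : ℕ) : ℝ) * L K) := by ring
              _ ≤ (1 / ((K0 : ℝ) + 1)) * (3 * n) :=
                  mul_le_mul h5 h2 (by positivity) (by positivity)
              _ = (3 / ((K0 : ℝ) + 1)) * n := by ring
              _ ≤ δ / 2 * n := by gcongr
    have h1' : (1 : ℝ) ≤ Real.exp (δ / 2 * n) := Real.one_le_exp (by positivity)
    have hLn : (L K : ℝ) ≤ n := by exact_mod_cast hK1
    calc (S.card : ℝ) ≤ ((L K + L K * W.card ^ (n / L K + 2) : ℕ) : ℝ) := by exact_mod_cast hS1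
      _ = (L K : ℝ) + L K * (W.card : ℝ) ^ (n / L K + 2) := by push_cast; ring
      _ ≤ (n : ℝ) * Real.exp (δ / 2 * n) + n * Real.exp (δ / 2 * n) := by
          have h6 : (L K : ℝ) ≤ n * Real.exp (δ / 2 * n) := by
            calc (L K : ℝ) ≤ n := hLn
              _ = n * 1 := by ring
              _ ≤ n * Real.exp (δ / 2 * n) := by gcongr
          have h7 : (L K : ℝ) * (W.card : ℝ) ^ (n / L K + 2) ≤ n * Real.exp (δ / 2 * n) :=
            mul_le_mul hLn h1 (by positivity) (by positivity)
          linarith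
      _ = (2 * n) * Real.exp (δ / 2 * n) := by ring
      _ ≤ Real.exp (δ / 2 * n) * Real.exp (δ / 2 * n) :=
          mul_le_mul_of_nonneg_right (hM n hnM) (Real.exp_pos _).le
      _ = Real.exp (δ * n) := by rw [← Real.exp_add]; congr 1; ring
  · intro n
    have h1 := hier_close T c hL f (fun k => ε / 2 ^ (k + 1))
      (fun k y i hi => hη k _ _ (hc2 k y i hi)) (Nat.find (hex n)) x n (Nat.find_spec (hex n))
    refine h1.trans ?_
    have h2 : ∀ m : ℕ, ∑ j ∈ range m, ε / 2 ^ (j + 1) = ε - ε / 2 ^ m := by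
      intro m
      induction m with
      | zero => simp
      | succ m ih => rw [sum_range_succ, ih, pow_succ]; field_simp; ring
    rw [h2]
    have : 0 < ε / 2 ^ (Nat.find (hex n) + 1) := by positivity
    linarith

end Pool.Agent.W136
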