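import Mathlib
import Pool.Agent.W136.Symb

/-!
# Weighted correlations with the Möbius function and Toeplitz approximation
-/

set_option autoImplicit false

open Finset Filter

namespace Pool.Agent.W136

/-- a nonincreasing weight together with a normalization -/
structure Weight (w S : ℕ → ℝ) : Prop where
  nonneg : ∀ n, 0 ≤ w n
  anti : ∀ m n, 1 ≤ m → m ≤ n → w n ≤ w m
  bound : ∀ᶠ N in atTop, ∑ n ∈ Icc 1 N, w n ≤ 2 * S N

/-- weighted sum against the Möbius function -/
noncomputable def WSum (w : ℕ → ℝ) (a : ℕ → ℂ) (N : ℕ) : ℂ :=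
  ∑ n ∈ Icc 1 N, (w n : ℂ) * (a n * ((ArithmeticFunction.moebius n : ℤ) : ℂ))

/-- the weighted sums are negligible -/
def Orth (w S : ℕ → ℝ) (a : ℕ → ℂ) : Prop :=
  ∀ ε : ℝ, 0 < ε → ∀ᶠ N in atTop, ‖WSum w a N‖ ≤ ε * S N

lemma norm_moebius_le (n : ℕ) : ‖((ArithmeticFunction.moebius n : ℤ) : ℂ)‖ ≤ 1 := by
  rw [Complex.norm_intCast]
  have := ArithmeticFunction.abs_moebius_le_one (n := n)
  exact_mod_cast this

lemma WSum_sub_le (w : ℕ → ℝ) (hw : ∀ n, 0 ≤ w n) (a b : ℕ → ℂ) (N : ℕ) :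
    ‖WSum w a N - WSum w b N‖ ≤ ∑ n ∈ Icc 1 N, w n * ‖a n - b n‖ := by
  unfold WSum
  rw [← sum_sub_distrib]
  refine (norm_sum_le _ _).trans (sum_le_sum fun n _ => ?_)
  rw [← mul_sub, ← sub_mul, norm_mul, norm_mul, Complex.norm_real, Real.norm_eq_abs,
    abs_of_nonneg (hw n)]
  calc w n * (‖a n - b n‖ * ‖((ArithmeticFunction.moebius n : ℤ) : ℂ)‖)
      ≤ w n * (‖a n - b n‖ * 1) := by
        apply mul_le_mul_of_nonneg_left _ (hw n)
        exact mul_le_mul_of_nonneg_left (norm_moebius_le n) (norm_nonneg _)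
    _ = _ := by rw [mul_one]

section

variable {w S : ℕ → ℝ} (hw : Weight w S)
include hw

lemma Weight.ev_nonneg : ∀ᶠ N in atTop, 0 ≤ S N := by
  filter_upwards [hw.bound] with N hN
  have : 0 ≤ ∑ n ∈ Icc 1 N, w n := sum_nonneg fun n _ => hw.nonneg n
  linarith

lemma orth_of_density (a : ℕ → ℂ) (h : ∀ ε : ℝ, 0 < ε → ∃ b : ℕ → ℂ, Orth w S b ∧
    ∀ᶠ N in atTop, ∑ n ∈ Icc 1 N, w n * ‖a n - b n‖ ≤ ε * S N) : Orth w S a := by
  intro ε hε
  obtain ⟨b, hb, h1⟩ := h (ε / 2) (half_pos hε)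
  filter_upwards [hb (ε / 2) (half_pos hε), h1] with N h2 h3
  have h4 := WSum_sub_le w hw.nonneg a b N
  calc ‖WSum w a N‖ = ‖(WSum w a N - WSum w b N) + WSum w b N‖ := by rw [sub_add_cancel]
    _ ≤ ‖WSum w a N - WSum w b N‖ + ‖WSum w b N‖ := norm_add_le _ _
    _ ≤ ε / 2 * S N + ε / 2 * S N := add_le_add (h4.trans h3) h2
    _ = ε * S N := by ring

lemma orth_of_approx (a : ℕ → ℂ) (h : ∀ ε : ℝ, 0 < ε → ∃ b : ℕ → ℂ, Orth w S b ∧
    ∀ n, ‖a n - b n‖ ≤ ε) : Orth w S a := by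
  refine orth_of_density hw a fun ε hε => ?_
  obtain ⟨b, hb, h1⟩ := h (ε / 2) (half_pos hε)
  refine ⟨b, hb, ?_⟩
  filter_upwards [hw.bound] with N hN
  calc ∑ n ∈ Icc 1 N, w n * ‖a n - b n‖ ≤ ∑ n ∈ Icc 1 N, w n * (ε / 2) :=
        sum_le_sum fun n _ => mul_le_mul_of_nonneg_left (h1 n) (hw.nonneg n)
    _ = (∑ n ∈ Icc 1 N, w n) * (ε / 2) := by rw [sum_mul]
    _ ≤ (2 * S N) * (ε / 2) := by gcongr
    _ = ε * S N := by ring

lemma orth_zero : Orth w S (fun _ => 0) := by
  intro ε hε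
  filter_upwards [hw.ev_nonneg] with N hN
  have : WSum w (fun _ => 0) N = 0 := by unfold WSum; simp
  rw [this, norm_zero]
  positivity

lemma Orth.add {a b : ℕ → ℂ} (ha : Orth w S a) (hb : Orth w S b) :
    Orth w S (fun n => a n + b n) := by
  intro ε hε
  filter_upwards [ha (ε / 2) (half_pos hε), hb (ε / 2) (half_pos hε)] with N h1 h2
  have : WSum w (fun n => a n + b n) N = WSum w a N + WSum w b N := by
    unfold WSum
    rw [← sum_add_distrib]
    exact sum_congr rfl fun n _ => by ring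
  rw [this]
  calc _ ≤ ‖WSum w a N‖ + ‖WSum w b N‖ := norm_add_le _ _
    _ ≤ ε / 2 * S N + ε / 2 * S N := add_le_add h1 h2
    _ = ε * S N := by ring

lemma Orth.smul {a : ℕ → ℂ} (ha : Orth w S a) (c : ℂ) : Orth w S (fun n => c * a n) := by
  intro ε hε
  filter_upwards [ha (ε / (‖c‖ + 1)) (by positivity), hw.ev_nonneg] with N h1 h0
  have : WSum w (fun n => c * a n) N = c * WSum w a N := by
    unfold WSum
    rw [mul_sum]
    exact sum_congr rfl fun n _ => by ring
  rw [this, norm_mul]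
  calc ‖c‖ * ‖WSum w a N‖ ≤ (‖c‖ + 1) * (ε / (‖c‖ + 1) * S N) :=
        mul_le_mul (by linarith) h1 (norm_nonneg _) (by positivity)
    _ = ε * S N := by field_simp

lemma orth_sum {ι : Type*} (s : Finset ι) (a : ι → ℕ → ℂ) (h : ∀ i ∈ s, Orth w S (a i)) :
    Orth w S (fun n => ∑ i ∈ s, a i n) := by
  classical
  induction s using Finset.induction_on with
  | empty => simpa using orth_zero hw
  | insert i s hi ih =>
    have h1 := Orth.add hw (h i (mem_insert_self _ _)) (ih fun j hj => h j (mem_insert_of_mem hj))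
    refine cast ?_ h1
    congr 1
    funext n
    rw [sum_insert hi]

/-- residues in short intervals have small weight -/
lemma block_weight (M L N : ℕ) (hL : 0 < L) :
    (L : ℝ) * ∑ n ∈ (Icc 1 N).filter (fun n => L ≤ n ∧ n % L < M), w n ≤
      M * ∑ n ∈ Icc 1 N, w n := by
  classical
  set A := (Icc 1 N).filter (fun n => L ≤ n ∧ n % L < M) with hA
  have h1 : (L : ℝ) * ∑ n ∈ A, w n = ∑ p ∈ A ×ˢ range L, w p.1 := by
    rw [sum_product]
    simp only [sum_const, card_range, nsmul_eq_mul]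
    rw [mul_sum]
  have h2 : ∑ p ∈ A ×ˢ range L, w p.1 ≤
      ∑ p ∈ A ×ˢ range L, w ((p.1 / L - 1) * L + p.2 + 1) := by
    refine sum_le_sum fun p hp => ?_
    rw [mem_product, hA, mem_filter, mem_Icc, mem_range] at hp
    refine hw.anti _ _ (by omega) ?_
    have h3 : 1 ≤ p.1 / L := (Nat.one_le_div_iff hL).2 hp.1.2.1
    calc (p.1 / L - 1) * L + p.2 + 1 ≤ (p.1 / L - 1) * L + L := by omega
      _ = (p.1 / L - 1 + 1) * L := by ring
      _ = p.1 / L * L := by rw [Nat.sub_add_cancel h3]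
      _ ≤ p.1 := Nat.div_mul_le_self _ _
  let φ : ℕ × ℕ → ℕ × ℕ := fun p => (p.1 % L, (p.1 / L - 1) * L + p.2 + 1)
  have hφ : Set.InjOn φ (A ×ˢ range L : Finset (ℕ × ℕ)) := by
    rintro ⟨n, j⟩ hp ⟨n', j'⟩ hp' he
    rw [mem_coe, mem_product, hA, mem_filter, mem_Icc, mem_range] at hp hp'
    simp only [φ, Prod.mk.injEq] at he hp hp'
    obtain ⟨he1, he2⟩ := he
    have h3 : 1 ≤ n / L := (Nat.one_le_div_iff hL).2 hp.1.2.1
    have h3' : 1 ≤ n' / L := (Nat.one_le_div_iff hL).2 hp'.1.2.1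
    have h4 : L * (n / L - 1) + j = L * (n' / L - 1) + j' := by
      rw [mul_comm L, mul_comm L]; omega
    have h5 : (L * (n / L - 1) + j) / L = n / L - 1 := by
      rw [Nat.mul_add_div hL, Nat.div_eq_of_lt hp.2, add_zero]
    have h5' : (L * (n' / L - 1) + j') / L = n' / L - 1 := by
      rw [Nat.mul_add_div hL, Nat.div_eq_of_lt hp'.2, add_zero]
    have h6 : n / L = n' / L := by
      rw [h4, h5'] at h5; omega
    have h7 : n = n' := by
      rw [← Nat.div_add_mod n L, ← Nat.div_add_mod n' L, h6, he1]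
    subst h7
    have h8 : j = j' := by omega
    subst h8
    rfl
  have h9 : ∑ p ∈ A ×ˢ range L, w ((p.1 / L - 1) * L + p.2 + 1) =
      ∑ q ∈ (A ×ˢ range L).image φ, w q.2 := by
    rw [sum_image hφ]
  have h10 : (A ×ˢ range L).image φ ⊆ range M ×ˢ Icc 1 N := by
    intro q hq
    obtain ⟨p, hp, rfl⟩ := mem_image.1 hq
    rw [mem_product, hA, mem_filter, mem_Icc, mem_range] at hp
    rw [mem_product, mem_range, mem_Icc]
    refine ⟨hp.1.2.2, by simp only [φ]; omega, ?_⟩
    have h3 : 1 ≤ p.1 / L := (Nat.one_le_div_iff hL).2 hp.1.2.1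
    calc (p.1 / L - 1) * L + p.2 + 1 ≤ (p.1 / L - 1) * L + L := by omega
      _ = (p.1 / L - 1 + 1) * L := by ring
      _ = p.1 / L * L := by rw [Nat.sub_add_cancel h3]
      _ ≤ p.1 := Nat.div_mul_le_self _ _
      _ ≤ N := hp.1.1.2
  have h11 : ∑ q ∈ (A ×ˢ range L).image φ, w q.2 ≤ ∑ q ∈ range M ×ˢ Icc 1 N, w q.2 :=
    sum_le_sum_of_subset_of_nonneg h10 fun q _ _ => hw.nonneg _
  have h12 : ∑ q ∈ range M ×ˢ Icc 1 N, w q.2 = M * ∑ n ∈ Icc 1 N, w n := by
    rw [sum_product]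
    simp only [sum_const, card_range, nsmul_eq_mul]
  rw [h1]
  calc _ ≤ _ := h2
    _ = _ := h9
    _ ≤ _ := h11
    _ = _ := h12

end

/-- a map of a subexponential sequence and a periodic sequence -/
lemma SubExp.map_periodic {α β γ : Type*} {a : ℕ → α} (ha : SubExp a) (m : ℕ) (hm : 0 < m)
    (g : ℕ → β) (hg : ∀ n, g n = g (n % m)) (φ : α → β → γ) :
    SubExp (fun n => φ (a n) (g n)) := by
  classical
  intro δ hδ
  obtain ⟨N, hN⟩ := ha (δ / 2) (half_pos hδ)
  obtain ⟨M, hM⟩ : ∃ M : ℕ, ∀ n : ℕ, M ≤ n → (m : ℝ) ≤ Real.exp (δ / 2 * n) := by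
    have h2 : Tendsto (fun n : ℕ => δ / 2 * (n : ℝ)) atTop atTop :=
      tendsto_natCast_atTop_atTop.const_mul_atTop (by positivity)
    obtain ⟨M, hM⟩ := eventually_atTop.1 ((Real.tendsto_exp_atTop.comp h2).eventually_ge_atTop
      (m : ℝ))
    exact ⟨M, fun n hn => hM n hn⟩
  refine ⟨max N M, fun n hn => ?_⟩
  obtain ⟨S, h1, h2⟩ := hN n ((le_max_left _ _).trans hn)
  refine ⟨(range m ×ˢ S).image fun p => fun i : Fin n => φ (p.2 i) (g (p.1 + i)), ?_, ?_⟩
  · have h3 : (((range m ×ˢ S).image fun p => fun i : Fin n => φ (p.2 i) (g (p.1 + i))).card : ℝ) ≤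
        (m : ℝ) * S.card := by
      have h4 := card_image_le (s := range m ×ˢ S)
        (f := fun p => fun i : Fin n => φ (p.2 i) (g (p.1 + i)))
      rw [card_product, card_range] at h4
      exact_mod_cast h4
    calc _ ≤ (m : ℝ) * S.card := h3
      _ ≤ Real.exp (δ / 2 * n) * Real.exp (δ / 2 * n) :=
          mul_le_mul (hM n ((le_max_right _ _).trans hn)) h1 (Nat.cast_nonneg _) (Real.exp_pos _).le
      _ = Real.exp (δ * n) := by rw [← Real.exp_add]; congr 1; ring
  · intro s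
    refine mem_image.2 ⟨(s % m, _), mem_product.2 ⟨mem_range.2 (Nat.mod_lt _ hm), h2 s⟩, ?_⟩
    funext i
    simp only
    congr 1
    rw [hg (s % m + i), hg (s + i), Nat.mod_add_mod]

lemma SubExp.map {α γ : Type*} {a : ℕ → α} (ha : SubExp a) (φ : α → γ) :
    SubExp (fun n => φ (a n)) :=
  ha.map_periodic 1 one_pos (fun _ => ()) (fun _ => rfl) (fun x _ => φ x)

/-- indicator of a set given by a Boolean sequence -/
noncomputable def bi (b : ℕ → Bool) (n : ℕ) : ℂ := if b n = true then 1 else 0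

/-- a chain inside `Q` that grows fast -/
lemma exists_chain (Q : ℕ → ℕ) (hpos : ∀ k, 0 < Q k) (hdvd : ∀ k, Q k ∣ Q (k + 1))
    (htend : Tendsto Q atTop atTop) (k0 : ℕ) (δ : ℝ) (hδ : 0 < δ) :
    ∃ (L : ℕ → ℕ) (j : ℕ → ℕ), Chain L ∧ (∀ k, L (k + 1) = Q (j k)) ∧ (∀ k, k0 ≤ j k) ∧
      ∀ k, (L k : ℝ) / L (k + 1) ≤ δ / 2 ^ (k + 2) := by
  have hmono : ∀ i j, i ≤ j → Q i ∣ Q j := by
    intro i j hij
    induction hij with
    | refl => exact dvd_rfl
    | step _ ih => exact ih.trans (hdvd _)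
  have hstep : ∀ (i l k : ℕ), ∃ i', i ≤ i' ∧ l < Q i' ∧ (l : ℝ) / Q i' ≤ δ / 2 ^ (k + 2) := by
    intro i l k
    obtain ⟨R, hR⟩ := exists_nat_gt ((l : ℝ) / (δ / 2 ^ (k + 2)))
    obtain ⟨i', h1, h2⟩ := ((eventually_ge_atTop i).and
      (htend.eventually_ge_atTop (max R (l + 1)))).exists
    refine ⟨i', h1, ?_, ?_⟩
    · have := (le_max_right R (l + 1)).trans h2
      omega
    · have h3 : (R : ℝ) ≤ Q i' := by exact_mod_cast (le_max_left R (l + 1)).trans h2
      have h4 : (0 : ℝ) < Q i' := by exact_mod_cast hpos i'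
      rw [div_le_iff₀ h4]
      rw [div_lt_iff₀ (by positivity)] at hR
      have h5 : (R : ℝ) * (δ / 2 ^ (k + 2)) ≤ (Q i') * (δ / 2 ^ (k + 2)) := by gcongr
      linarith
  choose F hF1 hF2 hF3 using hstep
  -- `j 0 = F k0 1 0`, `j (k+1) = F (j k) (Q (j k)) (k+1)`
  obtain ⟨j, hj0, hjs⟩ : ∃ j : ℕ → ℕ, j 0 = F k0 1 0 ∧
      ∀ k, j (k + 1) = F (j k) (Q (j k)) (k + 1) :=
    ⟨fun k => Nat.rec (F k0 1 0) (fun k r => F r (Q r) (k + 1)) k, rfl, fun k => rfl⟩
  refine ⟨fun k => Nat.casesOn k 1 (fun k => Q (j k)), j, ⟨rfl, ?_, ?_⟩, fun k => rfl, ?_, ?_⟩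
  · intro k
    cases k with
    | zero => exact one_dvd _
    | succ k =>
      show Q (j k) ∣ Q (j (k + 1))
      rw [hjs]
      exact hmono _ _ (hF1 _ _ _)
  · intro k
    cases k with
    | zero =>
      show 1 < Q (j 0)
      rw [hj0]
      exact hF2 _ _ _
    | succ k =>
      show Q (j k) < Q (j (k + 1))
      rw [hjs]
      exact hF2 _ _ _
  · intro k
    induction k with
    | zero => rw [hj0]; exact hF1 _ _ _
    | succ k ih => rw [hjs]; exact ih.trans (hF1 _ _ _)
  · intro k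
    cases k with
    | zero =>
      show ((1 : ℕ) : ℝ) / Q (j 0) ≤ _
      rw [hj0]
      exact hF3 _ _ _
    | succ k =>
      show (Q (j k) : ℝ) / Q (j (k + 1)) ≤ _
      rw [hjs]
      exact hF3 _ _ _

/-- Toeplitz sequences with large periodic part suffice -/
theorem bool_of_toep {w S : ℕ → ℝ} (hw : Weight w S) (Q : ℕ → ℕ) (hpos : ∀ k, 0 < Q k)
    (hdvd : ∀ k, Q k ∣ Q (k + 1)) (htend : Tendsto Q atTop atTop) (ε : ℝ) (hε : 0 < ε)
    (H : ∀ z : ℕ → Bool, SubExp z → (∀ n, ∃ k, ∀ j, z (n + j * Q k) = z n) →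
      (∃ k, (1 - ε) * Q k ≤ ({r : ℕ | r < Q k ∧ ∀ j, z (r + j * Q k) = z r}.ncard : ℝ)) →
      Orth w S (bi z)) (b : ℕ → Bool) (hb : SubExp b) : Orth w S (bi b) := by
  classical
  obtain ⟨k0, hk0⟩ : ∃ k0, 1 / (Q k0 : ℝ) ≤ ε := by
    obtain ⟨R, hR⟩ := exists_nat_gt (1 / ε)
    obtain ⟨k0, h1⟩ := (htend.eventually_ge_atTop R).exists
    refine ⟨k0, ?_⟩
    have h2 : (0 : ℝ) < Q k0 := by exact_mod_cast hpos k0
    have h3 : (R : ℝ) ≤ Q k0 := by exact_mod_cast h1
    rw [div_le_iff₀ h2]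
    rw [div_lt_iff₀ hε] at hR
    nlinarith
  obtain ⟨m, hm⟩ : ∃ m, m = Q k0 := ⟨_, rfl⟩
  have hm0 : 0 < m := by rw [hm]; exact hpos k0
  have hmono : ∀ i j, i ≤ j → Q i ∣ Q j := by
    intro i j hij
    induction hij with
    | refl => exact dvd_rfl
    | step _ ih => exact ih.trans (hdvd _)
  -- one residue class
  have hclass : ∀ r < m, Orth w S (bi fun n => b n && decide (n % m = r)) := by
    intro r hr
    have hbr : SubExp (fun n => b n && decide (n % m = r)) :=
      hb.map_periodic m hm0 (fun n => decide (n % m = r))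
        (fun n => by simp only [Nat.mod_mod]) (fun x y => x && y)
    refine orth_of_density hw _ fun δ hδ => ?_
    obtain ⟨L, j, hL, hLQ, hj, hLδ⟩ := exists_chain Q hpos hdvd htend k0 δ hδ
    set c : ℕ → Bool := fun n => b n && decide (n % m = r) with hc
    have hfalse : ∀ n, n % m ≠ r → toep L c n = false := by
      intro n hn
      unfold toep
      have h1 : m ∣ L (kap L 0 n + 1) := by
        rw [hLQ, hm]
        exact hmono _ _ (hj _)
      simp only [hc, Nat.mod_mod_of_dvd _ h1, hn, decide_false, Bool.and_false]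
    refine ⟨bi (toep L c), H _ (toep_subExp hL c hbr) ?_ ?_, ?_⟩
    · intro n
      refine ⟨j (kap L 0 n), fun i => ?_⟩
      exact toep_period hL c n _ (by rw [hLQ]) i
    · refine ⟨k0, ?_⟩
      have hsub : (((range (Q k0)).erase r : Finset ℕ) : Set ℕ) ⊆
          {r : ℕ | r < Q k0 ∧ ∀ j, toep L c (r + j * Q k0) = toep L c r} := by
        intro s hs
        rw [mem_coe, mem_erase, mem_range] at hs
        refine ⟨hs.2, fun i => ?_⟩
        rw [hfalse, hfalse]
        · rw [← hm] at hs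
          rw [Nat.mod_eq_of_lt hs.2]
          exact hs.1
        · rw [← hm] at hs ⊢
          rw [Nat.add_mul_mod_self_right, Nat.mod_eq_of_lt hs.2]
          exact hs.1
      have hfinite : {r : ℕ | r < Q k0 ∧ ∀ j, toep L c (r + j * Q k0) = toep L c r}.Finite :=
        (Set.finite_lt_nat (Q k0)).subset fun r hr => hr.1
      have h1 := Set.ncard_le_ncard hsub hfinite
      rw [Set.ncard_coe_finset, card_erase_of_mem (mem_range.2 (by rw [← hm]; exact hr)),
        card_range] at h1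
      have h2 : (0 : ℝ) < Q k0 := by exact_mod_cast hpos k0
      rw [div_le_iff₀ h2] at hk0
      have h3 : (Q k0 : ℝ) ≤
          ({r : ℕ | r < Q k0 ∧ ∀ j, toep L c (r + j * Q k0) = toep L c r}.ncard : ℝ) + 1 := by
        have h4 : Q k0 ≤
          {r : ℕ | r < Q k0 ∧ ∀ j, toep L c (r + j * Q k0) = toep L c r}.ncard + 1 := by omega
        exact_mod_cast h4
      linarith
    · filter_upwards [hw.bound] with N hN
      have h1 : ∀ n ∈ Icc 1 N, w n * ‖bi c n - bi (toep L c) n‖ ≤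
          ∑ k ∈ range N, if L (k + 1) ≤ n ∧ n % L (k + 1) < L k then w n else 0 := by
        intro n hn
        rw [mem_Icc] at hn
        by_cases h2 : toep L c n = c n
        · have : bi c n - bi (toep L c) n = 0 := by unfold bi; rw [h2, sub_self]
          rw [this, norm_zero, mul_zero]
          refine sum_nonneg fun k _ => ?_
          split_ifs
          · exact hw.nonneg n
          · exact le_rfl
        · obtain ⟨k, hk⟩ := toep_ne hL c n h2
          have hkN : k ∈ range N := by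
            rw [mem_range]
            have := hL.succ_le (k + 1)
            omega
          have h3 : ‖bi c n - bi (toep L c) n‖ ≤ 1 := by
            unfold bi
            split_ifs <;> simp
          calc w n * ‖bi c n - bi (toep L c) n‖ ≤ w n * 1 :=
                mul_le_mul_of_nonneg_left h3 (hw.nonneg n)
            _ = if L (k + 1) ≤ n ∧ n % L (k + 1) < L k then w n else 0 := by
                rw [if_pos hk, mul_one]
            _ ≤ _ := single_le_sum (f := fun k =>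
                if L (k + 1) ≤ n ∧ n % L (k + 1) < L k then w n else 0)
                (fun k _ => by
                  split_ifs
                  · exact hw.nonneg n
                  · exact le_rfl) hkN
      have h4 : ∀ k, ∑ n ∈ Icc 1 N, (if L (k + 1) ≤ n ∧ n % L (k + 1) < L k then w n else 0) ≤
          δ / 2 ^ (k + 2) * ∑ n ∈ Icc 1 N, w n := by
        intro k
        rw [← sum_filter]
        have h5 := block_weight hw (L k) (L (k + 1)) N (hL.pos _)
        have h6 : (0 : ℝ) < L (k + 1) := by exact_mod_cast hL.pos (k + 1)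
        have h7 : 0 ≤ ∑ n ∈ Icc 1 N, w n := sum_nonneg fun n _ => hw.nonneg n
        calc _ ≤ (L k : ℝ) / L (k + 1) * ∑ n ∈ Icc 1 N, w n := by
              rw [div_mul_eq_mul_div, le_div_iff₀ h6, mul_comm]
              exact h5
          _ ≤ _ := mul_le_mul_of_nonneg_right (hLδ k) h7
      have h8 : ∀ M : ℕ, ∑ k ∈ range M, δ / 2 ^ (k + 2) = δ / 2 - δ / 2 ^ (M + 1) := by
        intro M
        induction M with
        | zero => simp
        | succ M ih => rw [sum_range_succ, ih]; field_simp; ring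
      have h9 : 0 ≤ ∑ n ∈ Icc 1 N, w n := sum_nonneg fun n _ => hw.nonneg n
      calc ∑ n ∈ Icc 1 N, w n * ‖bi c n - bi (toep L c) n‖
          ≤ ∑ n ∈ Icc 1 N, ∑ k ∈ range N,
            (if L (k + 1) ≤ n ∧ n % L (k + 1) < L k then w n else 0) := sum_le_sum h1
        _ = ∑ k ∈ range N, ∑ n ∈ Icc 1 N,
            (if L (k + 1) ≤ n ∧ n % L (k + 1) < L k then w n else 0) := sum_comm
        _ ≤ ∑ k ∈ range N, δ / 2 ^ (k + 2) * ∑ n ∈ Icc 1 N, w n := sum_le_sum fun k _ => h4 k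
        _ = (∑ k ∈ range N, δ / 2 ^ (k + 2)) * ∑ n ∈ Icc 1 N, w n := by rw [sum_mul]
        _ ≤ (δ / 2) * ∑ n ∈ Icc 1 N, w n := by
            refine mul_le_mul_of_nonneg_right ?_ h9
            rw [h8]
            have : 0 < δ / 2 ^ (N + 1) := by positivity
            linarith
        _ ≤ (δ / 2) * (2 * S N) := mul_le_mul_of_nonneg_left hN (by positivity)
        _ = δ * S N := by ring
  have hsum := orth_sum hw (range m) (fun r => bi fun n => b n && decide (n % m = r))
    (fun r hr => hclass r (mem_range.1 hr))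
  refine cast ?_ hsum
  congr 1
  funext n
  unfold bi
  rw [sum_eq_single (n % m)]
  · simp
  · intro r _ hr
    simp [hr.symm]
  · intro h
    exact absurd (mem_range.2 (Nat.mod_lt _ hm0)) h

/-- finite valued sequences -/
theorem finite_of_bool {w S : ℕ → ℝ} (hw : Weight w S)
    (H : ∀ b : ℕ → Bool, SubExp b → Orth w S (bi b)) (a : ℕ → ℂ) (hfin : (Set.range a).Finite)
    (ha : SubExp a) : Orth w S a := by
  classical
  have h1 := orth_sum hw hfin.toFinset (fun v n => v * bi (fun n => decide (a n = v)) n)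
    (fun v _ => Orth.smul hw (H _ (ha.map fun x => decide (x = v))) v)
  refine cast ?_ h1
  congr 1
  funext n
  rw [sum_eq_single (a n)]
  · simp [bi]
  · intro v _ hv
    simp [bi, hv.symm]
  · intro h
    exact absurd (hfin.mem_toFinset.2 ⟨n, rfl⟩) h

/-- systems of zero entropy -/
theorem system_of_bool {w S : ℕ → ℝ} (hw : Weight w S)
    (H : ∀ b : ℕ → Bool, SubExp b → Orth w S (bi b))
    {X : Type} [MetricSpace X] [CompactSpace X] (T : X → X)
    (hent : ¬ 0 < Dynamics.coverEntropy T (Set.univ : Set X)) (f : X → ℂ) (hf : Continuous f)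
    (x : X) : Orth w S (fun n => f (T^[n] x)) := by
  refine orth_of_approx hw _ fun ε hε => ?_
  obtain ⟨a, h1, h2, h3⟩ := symb T hent f hf x ε hε
  exact ⟨a, finite_of_bool hw H a h1 h2, fun n => by rw [norm_sub_rev]; exact h3 n⟩

end Pool.Agent.W136
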