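import Mathlib
import Pool.Agent.Helper222.CPE.Ent
import Pool.Agent.W136.Avg

/-!
# The two-sided subshift of a Toeplitz sequence
-/

set_option autoImplicit false

open Filter Topology

namespace Pool.Agent.W136

/-- the two-sided sequences all of whose windows occur in `z` -/
def subSet (z : ℕ → Bool) : Set (ℤ → Bool) :=
  {y | ∀ (a : ℤ) (n : ℕ), ∃ s : ℕ, ∀ i : ℕ, i < n → y (a + i) = z (s + i)}

/-- the subshift as a type -/
def Sub (z : ℕ → Bool) : Type := subSet z

namespace Sub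

variable {z : ℕ → Bool}

lemma isClosed_carrier (z : ℕ → Bool) : IsClosed (subSet z) := by
  have : subSet z = ⋂ (a : ℤ), ⋂ (n : ℕ),
      (fun (y : ℤ → Bool) => fun i : Fin n => y (a + ((i : ℕ) : ℤ))) ⁻¹'
        {v | ∃ s : ℕ, ∀ i : Fin n, v i = z (s + i)} := by
    ext y
    simp only [subSet, Set.mem_ofPred_eq, Set.mem_iInter, Set.mem_preimage]
    refine forall_congr' fun a => forall_congr' fun n => exists_congr fun s => ?_
    exact ⟨fun h i => h i i.2, fun h i hi => h ⟨i, hi⟩⟩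
  rw [this]
  refine isClosed_iInter fun a => isClosed_iInter fun n => ?_
  refine IsClosed.preimage ?_ (isClosed_discrete _)
  exact continuous_pi fun i => continuous_apply _

instance : TopologicalSpace (Sub z) := inferInstanceAs (TopologicalSpace (subSet z))

instance : CompactSpace (Sub z) := isCompact_iff_compactSpace.1 (isClosed_carrier z).isCompact

instance : SecondCountableTopology (Sub z) :=
  inferInstanceAs (SecondCountableTopology (subSet z))

instance : T2Space (Sub z) := inferInstanceAs (T2Space (subSet z))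

instance : TotallyDisconnectedSpace (Sub z) :=
  inferInstanceAs (TotallyDisconnectedSpace (subSet z))

noncomputable instance : MetricSpace (Sub z) :=
  TopologicalSpace.metrizableSpaceMetric (Sub z)

/-- the underlying sequence -/
def seq (y : Sub z) : ℤ → Bool := Subtype.val (p := fun v => v ∈ subSet z) y

lemma seq_mem (y : Sub z) : y.seq ∈ subSet z := Subtype.property (p := fun v => v ∈ subSet z) y

/-- constructor -/
def of (v : ℤ → Bool) (hv : v ∈ subSet z) : Sub z := (⟨v, hv⟩ : subSet z)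

lemma of_seq (v : ℤ → Bool) (hv : v ∈ subSet z) : (of v hv).seq = v := rfl

lemma seq_ext {x y : Sub z} (h : ∀ i, x.seq i = y.seq i) : x = y :=
  Subtype.ext (p := fun v => v ∈ subSet z) (funext h)

lemma continuous_seq : Continuous (seq : Sub z → ℤ → Bool) :=
  (continuous_subtype_val : Continuous (Subtype.val : subSet z → ℤ → Bool))

lemma continuous_of {Y : Type} [TopologicalSpace Y] (v : Y → ℤ → Bool) (hv : ∀ y, v y ∈ subSet z)
    (hc : Continuous v) : Continuous (fun y => of (v y) (hv y)) :=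
  (Continuous.subtype_mk hc hv : Continuous (fun y => (⟨v y, hv y⟩ : subSet z)))

lemma continuous_coord (i : ℤ) : Continuous (fun y : Sub z => y.seq i) :=
  (continuous_apply i).comp continuous_seq

lemma mem_up (y : Sub z) : (fun i => y.seq (i + 1)) ∈ subSet z := by
  intro a n
  obtain ⟨s, hs⟩ := y.seq_mem (a + 1) n
  refine ⟨s, fun i hi => ?_⟩
  rw [← hs i hi, add_right_comm]

lemma mem_down (y : Sub z) : (fun i => y.seq (i - 1)) ∈ subSet z := by
  intro a n
  obtain ⟨s, hs⟩ := y.seq_mem (a - 1) n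
  refine ⟨s, fun i hi => ?_⟩
  rw [← hs i hi]
  show y.seq (a + i - 1) = y.seq (a - 1 + i)
  rw [add_sub_right_comm]

/-- the shift -/
def shift (z : ℕ → Bool) : Sub z ≃ₜ Sub z where
  toFun y := of (fun i => y.seq (i + 1)) y.mem_up
  invFun y := of (fun i => y.seq (i - 1)) y.mem_down
  left_inv y := by
    apply seq_ext
    intro i
    show y.seq (i - 1 + 1) = y.seq i
    rw [sub_add_cancel]
  right_inv y := by
    apply seq_ext
    intro i
    show y.seq (i + 1 - 1) = y.seq i
    rw [add_sub_cancel_right]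
  continuous_toFun :=
    continuous_of (fun (y : Sub z) i => y.seq (i + 1)) _ (continuous_pi fun i => continuous_coord _)
  continuous_invFun :=
    continuous_of (fun (y : Sub z) i => y.seq (i - 1)) _ (continuous_pi fun i => continuous_coord _)

lemma shift_iter (y : Sub z) (n : ℕ) (i : ℤ) : ((shift z)^[n] y).seq i = y.seq (i + n) := by
  induction n generalizing i with
  | zero => simp
  | succ n ih =>
    rw [Function.iterate_succ_apply']
    show ((shift z)^[n] y).seq (i + 1) = _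
    rw [ih, add_assoc, add_comm 1 (n : ℤ), Nat.cast_succ]

/-- agreement on a long central window implies closeness -/
lemma close_of_agree (ε : ℝ) (hε : 0 < ε) : ∃ m : ℕ, ∀ x y : Sub z,
    (∀ i : ℤ, -(m : ℤ) ≤ i → i ≤ m → x.seq i = y.seq i) → dist x y < ε := by
  by_contra hcon
  push Not at hcon
  let C : ℕ → Set (Sub z × Sub z) := fun m =>
    {p | ∀ i : ℤ, -(m : ℤ) ≤ i → i ≤ m → p.1.seq i = p.2.seq i} ∩ {p | ε ≤ dist p.1 p.2}
  have hcl : ∀ m, IsClosed (C m) := by
    intro m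
    refine IsClosed.inter ?_ (isClosed_le continuous_const continuous_dist)
    have : {p : Sub z × Sub z | ∀ i : ℤ, -(m : ℤ) ≤ i → i ≤ m → p.1.seq i = p.2.seq i} =
        ⋂ (i : ℤ), ⋂ (_ : -(m : ℤ) ≤ i), ⋂ (_ : i ≤ m), {p | p.1.seq i = p.2.seq i} := by
      ext p; simp
    rw [this]
    refine isClosed_iInter fun i => isClosed_iInter fun _ => isClosed_iInter fun _ => ?_
    exact isClosed_eq ((continuous_coord i).comp continuous_fst)
      ((continuous_coord i).comp continuous_snd)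
  have hne := IsCompact.nonempty_iInter_of_sequence_nonempty_isCompact_isClosed C
    (fun m p hp => ⟨fun i h1 h2 => hp.1 i (by push_cast; omega) (by push_cast; omega), hp.2⟩)
    (fun m => by
      obtain ⟨x, y, h1, h2⟩ := hcon m
      exact ⟨(x, y), h1, h2⟩) (hcl 0).isCompact hcl
  obtain ⟨p, hp⟩ := hne
  rw [Set.mem_iInter] at hp
  have heq : p.1 = p.2 := by
    apply seq_ext
    intro i
    exact (hp i.natAbs).1 i (by omega) (by omega)
  have h2 : ε ≤ dist p.1 p.2 := (hp 0).2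
  rw [heq, dist_self] at h2
  linarith

lemma entropy_zero (hz : SubExp z) (hne : Nonempty (Sub z)) :
    Dynamics.coverEntropy (shift z) (Set.univ : Set (Sub z)) = 0 := by
  classical
  have h1 : ¬ 0 < Dynamics.coverEntropy (shift z) (Set.univ : Set (Sub z)) := by
    rw [Helper222.CPE.ent_iff]
    intro ε hε δ hδ
    obtain ⟨m, hm⟩ := close_of_agree (z := z) ε hε
    obtain ⟨N, hN⟩ := hz (δ / 2) (half_pos hδ)
    refine ⟨max N (2 * m + 1), fun n hn => ?_⟩
    have hn1 := (le_max_left _ _).trans hn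
    have hn2 := (le_max_right N (2 * m + 1)).trans hn
    obtain ⟨S, hS1, hS2⟩ := hN (n + (2 * m + 1)) (by omega)
    let wd : Sub z → (Fin (n + (2 * m + 1)) → Bool) := fun y i => y.seq (-(m : ℤ) + ((i : ℕ) : ℤ))
    have hwd : ∀ y, wd y ∈ S := by
      intro y
      obtain ⟨s, hs⟩ := y.seq_mem (-(m : ℤ)) (n + (2 * m + 1))
      have : wd y = fun i : Fin (n + (2 * m + 1)) => z (s + i) := by
        funext i
        exact hs i i.2
      rw [this]
      exact hS2 s
    let rep : (Fin (n + (2 * m + 1)) → Bool) → Sub z := fun v =>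
      if h : ∃ y, wd y = v then h.choose else hne.some
    refine ⟨S.image rep, ?_, ?_⟩
    · calc ((S.image rep).card : ℝ) ≤ S.card := by exact_mod_cast Finset.card_image_le
        _ ≤ Real.exp (δ / 2 * ((n + (2 * m + 1) : ℕ) : ℝ)) := hS1
        _ ≤ Real.exp (δ * n) := by
            apply Real.exp_le_exp.2
            have h3 : ((n + (2 * m + 1) : ℕ) : ℝ) ≤ 2 * n := by
              have : n + (2 * m + 1) ≤ 2 * n := by omega
              exact_mod_cast this
            calc δ / 2 * ((n + (2 * m + 1) : ℕ) : ℝ) ≤ δ / 2 * (2 * n) := by gcongr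
              _ = δ * n := by ring
    · intro x
      refine ⟨rep (wd x), Finset.mem_image_of_mem _ (hwd x), fun i hi => ?_⟩
      have hex : ∃ y, wd y = wd x := ⟨x, rfl⟩
      have hrep : wd (rep (wd x)) = wd x := by
        show wd (if h : ∃ y, wd y = wd x then h.choose else hne.some) = wd x
        rw [dif_pos hex]
        exact hex.choose_spec
      refine hm _ _ fun t ht1 ht2 => ?_
      rw [shift_iter, shift_iter]
      obtain ⟨u, hu⟩ : ∃ u : ℕ, t + i = -(m : ℤ) + u := ⟨(t + i + m).toNat, by omega⟩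
      have hu2 : u < n + (2 * m + 1) := by omega
      have := congrFun hrep ⟨u, hu2⟩
      rw [hu]
      exact this.symm
  obtain ⟨y⟩ := hne
  exact le_antisymm (not_lt.1 h1) (Dynamics.coverEntropy_nonneg _ ⟨y, Set.mem_univ y⟩)

/-- a common period for a finite window -/
lemma window_period (Q : ℕ → ℕ) (hdvd : ∀ k, Q k ∣ Q (k + 1))
    (hT : ∀ n, ∃ k, ∀ j, z (n + j * Q k) = z n) (s n : ℕ) :
    ∃ k, ∀ i < n, ∀ j, z (s + i + j * Q k) = z (s + i) := by
  have hmono : ∀ i j, i ≤ j → Q i ∣ Q j := by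
    intro i j hij
    induction hij with
    | refl => exact dvd_rfl
    | step _ ih => exact ih.trans (hdvd _)
  induction n with
  | zero => exact ⟨0, fun i hi => absurd hi (Nat.not_lt_zero _)⟩
  | succ n ih =>
    obtain ⟨k1, h1⟩ := ih
    obtain ⟨k2, h2⟩ := hT (s + n)
    refine ⟨max k1 k2, fun i hi j => ?_⟩
    rcases Nat.lt_succ_iff_lt_or_eq.1 hi with h3 | rfl
    · obtain ⟨c, hc⟩ := hmono k1 _ (le_max_left k1 k2)
      rw [hc, mul_comm (Q k1), ← mul_assoc]
      exact h1 i h3 _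
    · obtain ⟨c, hc⟩ := hmono k2 _ (le_max_right k1 k2)
      rw [hc, mul_comm (Q k2), ← mul_assoc]
      exact h2 _

lemma minimal (Q : ℕ → ℕ) (hpos : ∀ k, 0 < Q k) (hdvd : ∀ k, Q k ∣ Q (k + 1))
    (hT : ∀ n, ∃ k, ∀ j, z (n + j * Q k) = z n) (y : Sub z) :
    Dense (Set.range fun n : ℕ => (shift z)^[n] y) := by
  rw [Metric.dense_iff]
  intro x ε hε
  obtain ⟨m, hm⟩ := close_of_agree (z := z) ε hε
  obtain ⟨s, hs⟩ := x.seq_mem (-(m : ℤ)) (2 * m + 1)
  obtain ⟨k, hk⟩ := window_period Q hdvd hT s (2 * m + 1)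
  obtain ⟨t, ht⟩ := y.seq_mem 0 (s + Q k + (2 * m + 1))
  have hP := hpos k
  refine ⟨(shift z)^[m + (s + (Q k - t % Q k))] y, ?_, ⟨_, rfl⟩⟩
  rw [Metric.mem_ball]
  refine hm _ _ fun i h1 h2 => ?_
  rw [shift_iter]
  obtain ⟨u, hu⟩ : ∃ u : ℕ, i = -(m : ℤ) + u := ⟨(i + m).toNat, by omega⟩
  have hu2 : u < 2 * m + 1 := by omega
  have hmod : t % Q k < Q k := Nat.mod_lt _ hP
  have e1 : i + ((m + (s + (Q k - t % Q k)) : ℕ) : ℤ) = 0 + ((s + (Q k - t % Q k) + u : ℕ) : ℤ) := by
    rw [hu]; push_cast; ring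
  have h3 := ht (s + (Q k - t % Q k) + u) (by omega)
  have h3' := hs u hu2
  rw [← hu] at h3'
  rw [e1, h3, h3']
  have e2 : t + (s + (Q k - t % Q k) + u) = s + u + (t / Q k + 1) * Q k := by
    have h4 := Nat.div_add_mod t (Q k)
    have h5 : (t / Q k + 1) * Q k = Q k * (t / Q k) + Q k := by ring
    omega
  rw [e2]
  exact hk u hu2 _

lemma exists_point (Q : ℕ → ℕ) (hpos : ∀ k, 0 < Q k) (hdvd : ∀ k, Q k ∣ Q (k + 1))
    (hT : ∀ n, ∃ k, ∀ j, z (n + j * Q k) = z n) : ∃ x : Sub z, ∀ n : ℕ, x.seq n = z n := by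
  have hp := fun k : ℕ => window_period Q hdvd hT 0 k
  choose p hp using hp
  let Y : ℕ → (ℤ → Bool) := fun k i => z (((k * Q (p k) : ℕ) : ℤ) + i).toNat
  let V : Ultrafilter ℕ := Ultrafilter.of atTop
  let U : Ultrafilter (ℤ → Bool) := Ultrafilter.map Y V
  have hle : (U : Filter (ℤ → Bool)) ≤ 𝓝 U.lim := U.le_nhds_lim
  obtain ⟨y, hy⟩ : ∃ y, y = U.lim := ⟨_, rfl⟩
  rw [← hy] at hle
  have hcyl : ∀ (a : ℤ) (n : ℕ) (K : ℕ), ∃ k, K ≤ k ∧ ∀ i : Fin n, Y k (a + ((i : ℕ) : ℤ)) =
      y (a + ((i : ℕ) : ℤ)) := by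
    intro a n K
    have h1 : {v : ℤ → Bool | ∀ i : Fin n, v (a + ((i : ℕ) : ℤ)) = y (a + ((i : ℕ) : ℤ))} ∈ 𝓝 y := by
      refine IsOpen.mem_nhds ?_ (fun i => rfl)
      have : {v : ℤ → Bool | ∀ i : Fin n, v (a + ((i : ℕ) : ℤ)) = y (a + ((i : ℕ) : ℤ))} =
          (fun (v : ℤ → Bool) => fun i : Fin n => v (a + ((i : ℕ) : ℤ))) ⁻¹'
            {fun i : Fin n => y (a + ((i : ℕ) : ℤ))} := by
        ext v
        simp [funext_iff]
      rw [this]
      exact (isOpen_discrete _).preimage (continuous_pi fun i => continuous_apply _)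
    have h2 := hle h1
    have h3 : ∀ᶠ k in (V : Filter ℕ), ∀ i : Fin n, Y k (a + ((i : ℕ) : ℤ)) =
        y (a + ((i : ℕ) : ℤ)) := h2
    have h4 : ∀ᶠ k in (V : Filter ℕ), K ≤ k :=
      (Ultrafilter.of_le atTop) (eventually_ge_atTop K)
    obtain ⟨k, h5, h6⟩ := (h4.and h3).exists
    exact ⟨k, h5, h6⟩
  have hmem : y ∈ subSet z := by
    intro a n
    obtain ⟨k, h1, h2⟩ := hcyl a n a.natAbs
    refine ⟨(((k * Q (p k) : ℕ) : ℤ) + a).toNat, fun i hi => ?_⟩
    have h5 := h2 ⟨i, hi⟩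
    simp only at h5
    rw [← h5]
    show z _ = z _
    congr 1
    have h3 : k ≤ k * Q (p k) := Nat.le_mul_of_pos_right _ (hpos _)
    omega
  refine ⟨of y hmem, fun n => ?_⟩
  show y n = z n
  obtain ⟨k, h1, h2⟩ := hcyl 0 (n + 1) (n + 1)
  have h3 := h2 ⟨n, by omega⟩
  simp only [zero_add] at h3
  rw [← h3]
  show z (((k * Q (p k) : ℕ) : ℤ) + (n : ℤ)).toNat = z n
  have h4 := hp k n (by omega) k
  rw [zero_add] at h4
  rw [← h4]
  congr 1
  omega

end Sub

/-- realisation of a Toeplitz sequence in a minimal homeomorphism of zero entropy -/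
theorem toep_system (z : ℕ → Bool) (hz : SubExp z) (Q : ℕ → ℕ) (hpos : ∀ k, 0 < Q k)
    (hdvd : ∀ k, Q k ∣ Q (k + 1)) (hT : ∀ n, ∃ k, ∀ j, z (n + j * Q k) = z n) :
    ∃ (X : Type) (_ : MetricSpace X) (_ : CompactSpace X) (T : X ≃ₜ X) (f : C(X, ℂ)) (x : X),
      TotallyDisconnectedSpace X ∧ Dynamics.coverEntropy T (Set.univ : Set X) = 0 ∧
      (∀ y : X, Dense (Set.range fun n : ℕ => T^[n] y)) ∧ ∀ n : ℕ, f (T^[n] x) = bi z n := by
  obtain ⟨x, hx⟩ := Sub.exists_point (z := z) Q hpos hdvd hT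
  refine ⟨Sub z, inferInstance, inferInstance, Sub.shift z,
    ⟨fun y => if y.seq 0 = true then 1 else 0, ?_⟩, x, inferInstance,
    Sub.entropy_zero hz ⟨x⟩, Sub.minimal Q hpos hdvd hT, ?_⟩
  · have h1 : Continuous (fun b : Bool => if b = true then (1 : ℂ) else 0) :=
      continuous_of_discreteTopology
    exact h1.comp (Sub.continuous_coord 0)
  · intro n
    show (if ((Sub.shift z)^[n] x).seq 0 = true then (1 : ℂ) else 0) = bi z n
    rw [Sub.shift_iter, zero_add, hx]
    rfl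

end Pool.Agent.W136
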