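import Mathlib
import Pool.Agent.W136.Sys

/-!
# Final assembly for general weights
-/

set_option autoImplicit false

open Filter Topology

namespace Pool.Agent.W136

/-- the two ways to say that a 0-1 sequence has zero entropy -/
theorem subExp_iff (z : ℕ → Bool) : SubExp z ↔
    Tendsto (fun n : ℕ =>
      Real.log ({u : Fin n → Bool | ∃ s : ℕ, ∀ i : Fin n, u i = z (s + i)}.ncard : ℝ) / (n : ℝ))
      atTop (𝓝 0) := by
  classical
  have hne : ∀ n : ℕ, 1 ≤ ({u : Fin n → Bool | ∃ s : ℕ, ∀ i : Fin n, u i = z (s + i)}.ncard : ℝ) := by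
    intro n
    have h1 : 0 < {u : Fin n → Bool | ∃ s : ℕ, ∀ i : Fin n, u i = z (s + i)}.ncard :=
      (Set.ncard_pos (Set.toFinite _)).2 ⟨fun i => z (0 + i), 0, fun i => rfl⟩
    exact_mod_cast h1
  constructor
  · intro h
    rw [Metric.tendsto_atTop]
    intro δ hδ
    obtain ⟨N, hN⟩ := h (δ / 2) (half_pos hδ)
    refine ⟨max N 1, fun n hn => ?_⟩
    obtain ⟨S, hS1, hS2⟩ := hN n ((le_max_left _ _).trans hn)
    have hn1 : (1 : ℝ) ≤ n := by exact_mod_cast (le_max_right N 1).trans hn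
    have h1 : {u : Fin n → Bool | ∃ s : ℕ, ∀ i : Fin n, u i = z (s + i)}.ncard ≤ S.card := by
      rw [← Set.ncard_coe_finset]
      refine Set.ncard_le_ncard ?_ S.finite_toSet
      rintro u ⟨s, hs⟩
      have : u = fun i : Fin n => z (s + i) := funext hs
      rw [this]
      exact hS2 s
    have h2 : Real.log ({u : Fin n → Bool | ∃ s : ℕ, ∀ i : Fin n, u i = z (s + i)}.ncard : ℝ) ≤
        δ / 2 * n := by
      rw [Real.log_le_iff_le_exp (by linarith [hne n])]
      refine le_trans ?_ hS1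
      exact_mod_cast h1
    have h3 := Real.log_nonneg (hne n)
    rw [Real.dist_eq, sub_zero, abs_of_nonneg (by positivity), div_lt_iff₀ (by linarith)]
    have : δ / 2 * n < δ * n := by
      apply mul_lt_mul_of_pos_right _ (by linarith)
      linarith
    linarith
  · intro h δ hδ
    have h1 := h.eventually (gt_mem_nhds hδ)
    obtain ⟨N, hN⟩ := eventually_atTop.1 (h1.and (eventually_ge_atTop 1))
    refine ⟨N, fun n hn => ?_⟩
    obtain ⟨h2, h3⟩ := hN n hn
    have hn1 : (1 : ℝ) ≤ n := by exact_mod_cast h3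
    have hfin : {u : Fin n → Bool | ∃ s : ℕ, ∀ i : Fin n, u i = z (s + i)}.Finite := Set.toFinite _
    refine ⟨hfin.toFinset, ?_, ?_⟩
    · rw [div_lt_iff₀ (by linarith)] at h2
      rw [← Set.ncard_eq_toFinset_card _ hfin]
      rw [← Real.log_le_iff_le_exp (by linarith [hne n])]
      exact h2.le
    · intro s
      rw [Set.Finite.mem_toFinset]
      exact ⟨s, fun i => rfl⟩

/-- normalised sums -/
lemma tendsto_iff_ev (F : ℕ → ℂ) (S : ℕ → ℝ) (hS : ∀ᶠ N in atTop, 0 < S N) :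
    Tendsto (fun N : ℕ => (1 / (S N : ℂ)) * F N) atTop (𝓝 0) ↔
      ∀ ε : ℝ, 0 < ε → ∀ᶠ N in atTop, ‖F N‖ ≤ ε * S N := by
  have key : ∀ N, 0 < S N → ‖(1 / (S N : ℂ)) * F N‖ = ‖F N‖ / S N := by
    intro N hN
    rw [norm_mul, norm_div, norm_one, Complex.norm_real, Real.norm_eq_abs, abs_of_pos hN]
    ring
  constructor
  · intro h ε hε
    rw [Metric.tendsto_atTop'] at h
    obtain ⟨N0, hN0⟩ := h ε hε
    filter_upwards [hS, eventually_gt_atTop N0] with N h1 h2
    have h3 := hN0 N h2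
    rw [dist_zero_right, key N h1, div_lt_iff₀ h1] at h3
    exact h3.le
  · intro h
    rw [Metric.tendsto_atTop']
    intro ε hε
    obtain ⟨N0, hN0⟩ := eventually_atTop.1 ((h (ε / 2) (half_pos hε)).and hS)
    refine ⟨N0, fun N hN => ?_⟩
    obtain ⟨h1, h2⟩ := hN0 N hN.le
    rw [dist_zero_right, key N h2, div_lt_iff₀ h2]
    have : ε / 2 * S N < ε * S N := mul_lt_mul_of_pos_right (by linarith) h2
    linarith

/-- Cesàro weights -/
lemma weight_one : Weight (fun _ => 1) (fun N => (N : ℝ)) := by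
  refine ⟨fun _ => zero_le_one, fun _ _ _ _ => le_rfl, Eventually.of_forall fun N => ?_⟩
  rw [Finset.sum_const, Nat.card_Icc, nsmul_eq_mul, mul_one, Nat.add_sub_cancel]
  have : (0 : ℝ) ≤ N := Nat.cast_nonneg N
  linarith

/-- logarithmic weights -/
lemma weight_log : Weight (fun n => 1 / (n : ℝ)) (fun N => Real.log N) := by
  refine ⟨fun n => by positivity, fun m n hm hmn => ?_, ?_⟩
  · have h1 : (0 : ℝ) < m := by exact_mod_cast hm
    have h2 : (m : ℝ) ≤ n := by exact_mod_cast hmn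
    exact one_div_le_one_div_of_le h1 h2
  · have h1 : Tendsto (fun N : ℕ => Real.log (N : ℝ)) atTop atTop :=
      Real.tendsto_log_atTop.comp tendsto_natCast_atTop_atTop
    filter_upwards [h1.eventually_ge_atTop 1] with N hN
    have h2 := harmonic_le_one_add_log N
    have h3 : ((harmonic N : ℚ) : ℝ) = ∑ n ∈ Finset.Icc 1 N, 1 / (n : ℝ) := by
      rw [harmonic_eq_sum_Icc]
      push_cast
      refine Finset.sum_congr rfl fun n _ => ?_
      rw [one_div]
    rw [h3] at h2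
    linarith

lemma orth_cesaro (a : ℕ → ℂ) : Orth (fun _ => 1) (fun N => (N : ℝ)) a ↔
    Tendsto (fun N : ℕ => (1 / (N : ℂ)) *
      ∑ n ∈ Finset.Icc 1 N, a n * ((ArithmeticFunction.moebius n : ℤ) : ℂ)) atTop (𝓝 0) := by
  have h1 := tendsto_iff_ev (fun N => WSum (fun _ => 1) a N) (fun N => (N : ℝ))
    (by filter_upwards [eventually_gt_atTop 0] with N hN; exact_mod_cast hN)
  unfold Orth
  rw [← h1]
  have h2 : (fun N : ℕ => 1 / (((N : ℝ)) : ℂ) * WSum (fun _ => 1) a N) =
      fun N : ℕ => (1 / (N : ℂ)) *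
      ∑ n ∈ Finset.Icc 1 N, a n * ((ArithmeticFunction.moebius n : ℤ) : ℂ) := by
    funext N
    unfold WSum
    simp
  rw [h2]

lemma orth_log (a : ℕ → ℂ) : Orth (fun n => 1 / (n : ℝ)) (fun N => Real.log N) a ↔
    Tendsto (fun N : ℕ => (1 / (Real.log (N : ℝ) : ℂ)) *
      ∑ n ∈ Finset.Icc 1 N, a n * ((ArithmeticFunction.moebius n : ℤ) : ℂ) / (n : ℂ))
      atTop (𝓝 0) := by
  have hlog : Tendsto (fun N : ℕ => Real.log (N : ℝ)) atTop atTop :=
    Real.tendsto_log_atTop.comp tendsto_natCast_atTop_atTop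
  have h1 := tendsto_iff_ev (fun N => WSum (fun n => 1 / (n : ℝ)) a N) (fun N => Real.log N)
    (by filter_upwards [hlog.eventually_gt_atTop 0] with N hN; exact hN)
  unfold Orth
  rw [← h1]
  have h2 : (fun N : ℕ => 1 / ((Real.log (N : ℝ) : ℝ) : ℂ) * WSum (fun n => 1 / (n : ℝ)) a N) =
      fun N : ℕ => (1 / (Real.log (N : ℝ) : ℂ)) *
      ∑ n ∈ Finset.Icc 1 N, a n * ((ArithmeticFunction.moebius n : ℤ) : ℂ) / (n : ℂ) := by
    funext N
    unfold WSum
    congr 1
    refine Finset.sum_congr rfl fun n _ => ?_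
    push_cast
    ring
  rw [h2]

end Pool.Agent.W136
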