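import Mathlib

/-!
# Generalised shears are smooth diffeomorphisms
-/

set_option autoImplicit false

open Filter Topology

namespace Pool.Agent.W136

variable {V : Type*} [NormedAddCommGroup V] [NormedSpace ℝ V]

/-- the derivative of a shear is invertible -/
noncomputable def shearEquiv (e : V) (φ : V →L[ℝ] ℝ) (h : 1 + φ e ≠ 0) : V ≃L[ℝ] V :=
  ContinuousLinearEquiv.equivOfInverse
    (ContinuousLinearMap.id ℝ V + φ.smulRight e)
    (ContinuousLinearMap.id ℝ V - ((1 + φ e)⁻¹ • φ).smulRight e)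
    (fun v => by
      show (v + φ v • e) - ((1 + φ e)⁻¹ * φ (v + φ v • e)) • e = v
      rw [map_add, map_smul, smul_eq_mul]
      have h1 : (1 + φ e)⁻¹ * (φ v + φ v * φ e) = φ v := by
        field_simp
      rw [h1, add_sub_cancel_right])
    (fun v => by
      show (v - ((1 + φ e)⁻¹ * φ v) • e) + φ (v - ((1 + φ e)⁻¹ * φ v) • e) • e = v
      rw [map_sub, map_smul, smul_eq_mul]
      have h1 : φ v - (1 + φ e)⁻¹ * φ v * φ e = (1 + φ e)⁻¹ * φ v := by
        field_simp
        ring
      rw [h1, sub_add_cancel])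

lemma shearEquiv_coe (e : V) (φ : V →L[ℝ] ℝ) (h : 1 + φ e ≠ 0) :
    (shearEquiv e φ h : V →L[ℝ] V) = ContinuousLinearMap.id ℝ V + φ.smulRight e := rfl

theorem shear_diffeo [CompleteSpace V] (e : V) (ψ : V → ℝ) (hψ : ContDiff ℝ (⊤ : ℕ∞) ψ)
    (hlip : ∀ x (τ : ℝ), |ψ (x + τ • e) - ψ x| ≤ 1 / 2 * |τ|) :
    ∃ Φ : V ≃ₜ V, (∀ x, Φ x = x + ψ x • e) ∧ ContDiff ℝ (⊤ : ℕ∞) Φ ∧
      ContDiff ℝ (⊤ : ℕ∞) Φ.symm := by
  -- the contraction
  have hcon : ∀ y : V, ContractingWith (1 / 2) (fun τ : ℝ => ψ (y - τ • e)) := by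
    intro y
    refine ⟨by rw [← NNReal.coe_lt_coe]; norm_num, ?_⟩
    refine LipschitzWith.of_dist_le_mul fun τ τ' => ?_
    rw [Real.dist_eq, Real.dist_eq]
    have h1 := hlip (y - τ' • e) (-(τ - τ'))
    have h2 : y - τ' • e + (-(τ - τ')) • e = y - τ • e := by
      rw [neg_smul, sub_smul]; abel
    rw [h2, abs_neg] at h1
    simpa using h1
  let T : V → ℝ := fun y => (hcon y).fixedPoint
  have hT : ∀ y, ψ (y - T y • e) = T y := fun y => (hcon y).fixedPoint_isFixedPt
  have hTu : ∀ y (τ : ℝ), ψ (y - τ • e) = τ → τ = T y := fun y τ h => (hcon y).fixedPoint_unique h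
  have hψc : Continuous ψ := hψ.continuous
  -- continuity of the inverse
  have hTc : Continuous T := by
    rw [continuous_iff_continuousAt]
    intro y
    rw [ContinuousAt, Metric.tendsto_nhds]
    intro ε hε
    have h1 : Continuous (fun y' : V => ψ (y' - T y • e)) :=
      hψc.comp (continuous_id.sub continuous_const)
    have h2 := Metric.tendsto_nhds.1 (h1.continuousAt (x := y)) (ε / 2) (half_pos hε)
    filter_upwards [h2] with y' hy'
    rw [Real.dist_eq] at hy' ⊢
    have h3 := hlip (y' - T y • e) (-(T y' - T y))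
    have h4 : y' - T y • e + (-(T y' - T y)) • e = y' - T y' • e := by
      rw [neg_smul, sub_smul]; abel
    rw [h4, abs_neg, hT y'] at h3
    rw [hT y] at hy'
    have h5 : T y' - T y = (T y' - ψ (y' - T y • e)) + (ψ (y' - T y • e) - T y) := by ring
    have h6 : |T y' - T y| ≤ 1 / 2 * |T y' - T y| + |ψ (y' - T y • e) - T y| := by
      calc |T y' - T y| = |(T y' - ψ (y' - T y • e)) + (ψ (y' - T y • e) - T y)| := by rw [← h5]
        _ ≤ _ := (abs_add_le _ _).trans (add_le_add h3 le_rfl)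
    linarith
  let Φ : V ≃ₜ V :=
    { toFun := fun x => x + ψ x • e
      invFun := fun y => y - T y • e
      left_inv := fun x => by
        have h1 : ψ x = T (x + ψ x • e) := by
          apply hTu
          rw [add_sub_cancel_right]
        show (x + ψ x • e) - T (x + ψ x • e) • e = x
        rw [← h1, add_sub_cancel_right]
      right_inv := fun y => by
        show (y - T y • e) + ψ (y - T y • e) • e = y
        rw [hT, sub_add_cancel]
      continuous_toFun := continuous_id.add (hψc.smul continuous_const)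
      continuous_invFun := continuous_id.sub (hTc.smul continuous_const) }
  have hΦ : ContDiff ℝ (⊤ : ℕ∞) Φ := contDiff_id.add (hψ.smul contDiff_const)
  refine ⟨Φ, fun x => rfl, hΦ, ?_⟩
  have hd : ∀ x, HasFDerivAt ψ (fderiv ℝ ψ x) x := fun x =>
    ((hψ.differentiable (by simp)) x).hasFDerivAt
  have hne : ∀ x, 1 + fderiv ℝ ψ x e ≠ 0 := by
    intro x
    have h1 : HasDerivAt (fun τ : ℝ => ψ (x + τ • e)) (fderiv ℝ ψ x e) 0 := by
      have h2 : HasDerivAt (fun τ : ℝ => x + τ • e) e 0 := by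
        simpa using ((hasDerivAt_id (0 : ℝ)).smul_const e).const_add x
      have h3 : HasFDerivAt ψ (fderiv ℝ ψ x) (x + (0 : ℝ) • e) := by
        rw [zero_smul, add_zero]; exact hd x
      exact h3.comp_hasDerivAt (0 : ℝ) h2
    have h4 : ‖fderiv ℝ ψ x e‖ ≤ 1 / 2 := by
      refine h1.le_of_lip' (by norm_num) (Eventually.of_forall fun τ => ?_)
      rw [zero_smul, add_zero, sub_zero, Real.norm_eq_abs, Real.norm_eq_abs]
      exact hlip x τ
    rw [Real.norm_eq_abs, abs_le] at h4
    have := h4.1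
    intro h5
    linarith
  refine Φ.contDiff_symm (f₀' := fun x => shearEquiv e (fderiv ℝ ψ x) (hne x)) (fun x => ?_) hΦ
  rw [shearEquiv_coe]
  exact (hasFDerivAt_id x).add ((hd x).smul_const e)

end Pool.Agent.W136
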