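import Mathlib
import Pool.Agent.Helper222.CPE.Ent

/-!
# Entropy when every orbit spends a bounded time away from a set of zero entropy
-/

set_option autoImplicit false

open Finset

namespace Pool.Agent.W136

/-- codes for orbit segments of length `n` with at most `m` times outside `U` -/
theorem drift_code {Y : Type} [MetricSpace Y] (F : Y → Y) (U : Set Y) (ε : ℝ) (N : ℕ)
    (hN : 1 ≤ N) (s₀ s₁ : Finset Y)
    (h₀ : ∀ y ∈ U, ∃ c ∈ s₀, ∀ i < N, dist (F^[i] y) (F^[i] c) < ε / 2)
    (h₁ : ∀ y, ∃ c ∈ s₁, dist y c < ε / 2) (n : ℕ) :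
    ∀ m : ℕ, ∃ (ι : Type) (_ : Fintype ι) (c : Y → ι),
      Fintype.card ι ≤ (2 * (s₀.card + 1)) ^ ((n + N - 1) / N + m) * (2 * (s₁.card + 1)) ^ m ∧
      ∀ y y' : Y, (∀ T : Finset ℕ, (∀ i ∈ T, i < n ∧ F^[i] y ∉ U) → T.card ≤ m) →
        (∀ T : Finset ℕ, (∀ i ∈ T, i < n ∧ F^[i] y' ∉ U) → T.card ≤ m) →
        c y = c y' → ∀ i < n, dist (F^[i] y) (F^[i] y') < ε := by
  classical
  induction n using Nat.strong_induction_on with
  | _ n ih =>
  intro m
  rcases Nat.eq_zero_or_pos n with rfl | hn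
  · refine ⟨Unit, inferInstance, fun _ => (), ?_, fun _ _ _ _ _ i hi => absurd hi (by omega)⟩
    rw [Fintype.card_unit]
    exact Nat.succ_le_of_lt (by positivity)
  choose! c₀ hc₀ hc₀' using h₀
  choose c₁ hc₁ hc₁' using h₁
  obtain ⟨ι₁, inst₁, d₁, hcard₁, hd₁⟩ := ih (n - N) (by omega) m
  -- the second code is needed only if `m ≥ 1`
  obtain ⟨ι₂, inst₂, d₂, hcard₂, hd₂⟩ := ih (n - 1) (by omega) (m - 1)
  let c : Y → (s₀ × ι₁) ⊕ (s₁ × ι₂) := fun y =>
    if h : y ∈ U then Sum.inl (⟨c₀ y, hc₀ y h⟩, d₁ (F^[N] y))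
    else Sum.inr (⟨c₁ y, hc₁ y⟩, d₂ (F y))
  -- shifting the bad times
  have shift1 : ∀ y : Y, (∀ T : Finset ℕ, (∀ i ∈ T, i < n ∧ F^[i] y ∉ U) → T.card ≤ m) →
      ∀ T : Finset ℕ, (∀ i ∈ T, i < n - N ∧ F^[i] (F^[N] y) ∉ U) → T.card ≤ m := by
    intro y hy T hT
    have h1 := hy (T.image (· + N)) (by
      intro i hi
      obtain ⟨j, hj, rfl⟩ := mem_image.1 hi
      obtain ⟨h2, h3⟩ := hT j hj
      rw [← Function.iterate_add_apply] at h3
      exact ⟨by omega, h3⟩)
    rwa [card_image_of_injective _ (add_left_injective N)] at h1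
  have shift2 : ∀ y : Y, y ∉ U → (∀ T : Finset ℕ, (∀ i ∈ T, i < n ∧ F^[i] y ∉ U) → T.card ≤ m) →
      1 ≤ m ∧ ∀ T : Finset ℕ, (∀ i ∈ T, i < n - 1 ∧ F^[i] (F y) ∉ U) → T.card ≤ m - 1 := by
    intro y hyU hy
    have key : ∀ T : Finset ℕ, (∀ i ∈ T, i < n - 1 ∧ F^[i] (F y) ∉ U) → T.card + 1 ≤ m := by
      intro T hT
      have h1 := hy (insert 0 (T.image (· + 1))) (by
        intro i hi
        rcases mem_insert.1 hi with rfl | hi
        · exact ⟨hn, hyU⟩
        · obtain ⟨j, hj, rfl⟩ := mem_image.1 hi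
          obtain ⟨h2, h3⟩ := hT j hj
          rw [← Function.iterate_succ_apply] at h3
          exact ⟨by omega, h3⟩)
      rw [card_insert_of_notMem (by simp), card_image_of_injective _ (add_left_injective 1)] at h1
      exact h1
    refine ⟨?_, fun T hT => by have := key T hT; omega⟩
    have := key ∅ (by simp)
    omega
  by_cases hm : 1 ≤ m
  · refine ⟨(s₀ × ι₁) ⊕ (s₁ × ι₂), inferInstance, c, ?_, ?_⟩
    · rw [Fintype.card_sum, Fintype.card_prod, Fintype.card_prod, Fintype.card_coe,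
        Fintype.card_coe]
      set a := s₀.card + 1 with ha
      set b := s₁.card + 1 with hb
      have e1 : (n - N + N - 1) / N + 1 = (n + N - 1) / N := by
        rcases Nat.lt_or_ge n N with h | h
        · have h2 : n - N + N - 1 = N - 1 := by omega
          rw [h2, Nat.div_eq_of_lt (by omega)]
          have h3 : n + N - 1 = (n - 1) + N := by omega
          rw [h3, Nat.add_div_right _ (by omega), Nat.div_eq_of_lt (by omega)]
        · have h2 : n - N + N - 1 = n - 1 := by omega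
          have h3 : n + N - 1 = (n - 1) + N := by omega
          rw [h2, h3, Nat.add_div_right _ (by omega)]
      have e2 : (n - 1 + N - 1) / N ≤ (n + N - 1) / N := Nat.div_le_div_right (by omega)
      have h1 : s₀.card * Fintype.card ι₁ ≤
          a * ((2 * a) ^ ((n - N + N - 1) / N + m) * (2 * b) ^ m) :=
        Nat.mul_le_mul (by omega) hcard₁
      have h2 : s₁.card * Fintype.card ι₂ ≤
          b * ((2 * a) ^ ((n - 1 + N - 1) / N + (m - 1)) * (2 * b) ^ (m - 1)) :=
        Nat.mul_le_mul (by omega) hcard₂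
      have h3 : 2 * (a * ((2 * a) ^ ((n - N + N - 1) / N + m) * (2 * b) ^ m)) =
          (2 * a) ^ ((n + N - 1) / N + m) * (2 * b) ^ m := by
        rw [← e1]
        ring
      have h4 : 2 * (b * ((2 * a) ^ ((n - 1 + N - 1) / N + (m - 1)) * (2 * b) ^ (m - 1))) ≤
          (2 * a) ^ ((n + N - 1) / N + m) * (2 * b) ^ m := by
        have h5 : (2 * a) ^ ((n - 1 + N - 1) / N + (m - 1)) ≤ (2 * a) ^ ((n + N - 1) / N + m) :=
          Nat.pow_le_pow_right (by omega) (by omega)
        have h6 : (2 * b) ^ m = 2 * b * (2 * b) ^ (m - 1) := by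
          obtain ⟨m', rfl⟩ : ∃ m', m = m' + 1 := ⟨m - 1, by omega⟩
          rw [Nat.add_sub_cancel, pow_succ]
          ring
        calc 2 * (b * ((2 * a) ^ ((n - 1 + N - 1) / N + (m - 1)) * (2 * b) ^ (m - 1)))
            = (2 * a) ^ ((n - 1 + N - 1) / N + (m - 1)) * (2 * b * (2 * b) ^ (m - 1)) := by ring
          _ ≤ (2 * a) ^ ((n + N - 1) / N + m) * (2 * b * (2 * b) ^ (m - 1)) :=
              Nat.mul_le_mul_right _ h5
          _ = _ := by rw [h6]
      omega
    · intro y y' hy hy' hcc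
      by_cases hU : y ∈ U
      · by_cases hU' : y' ∈ U
        · simp only [c, dif_pos hU, dif_pos hU', Sum.inl.injEq, Prod.mk.injEq,
            Subtype.mk.injEq] at hcc
          intro i hi
          rcases Nat.lt_or_ge i N with h | h
          · have h1 := hc₀' y hU i h
            have h2 := hc₀' y' hU' i h
            rw [← hcc.1] at h2
            calc dist (F^[i] y) (F^[i] y') ≤ dist (F^[i] y) (F^[i] (c₀ y)) +
                  dist (F^[i] y') (F^[i] (c₀ y)) := dist_triangle_right _ _ _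
              _ < ε := by linarith
          · have h1 := hd₁ _ _ (shift1 y hy) (shift1 y' hy') hcc.2 (i - N) (by omega)
            rw [← Function.iterate_add_apply, ← Function.iterate_add_apply,
              Nat.sub_add_cancel h] at h1
            exact h1
        · simp only [c, dif_pos hU, dif_neg hU', reduceCtorEq] at hcc
      · by_cases hU' : y' ∈ U
        · simp only [c, dif_neg hU, dif_pos hU', reduceCtorEq] at hcc
        · simp only [c, dif_neg hU, dif_neg hU', Sum.inr.injEq, Prod.mk.injEq,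
            Subtype.mk.injEq] at hcc
          intro i hi
          rcases Nat.eq_zero_or_pos i with rfl | h
          · have h1 := hc₁' y
            have h2 := hc₁' y'
            rw [← hcc.1] at h2
            calc dist (F^[0] y) (F^[0] y') ≤ dist y (c₁ y) + dist y' (c₁ y) :=
                  dist_triangle_right _ _ _
              _ < ε := by linarith
          · have h1 := hd₂ _ _ (shift2 y hU hy).2 (shift2 y' hU' hy').2 hcc.2 (i - 1) (by omega)
            rw [← Function.iterate_succ_apply, ← Function.iterate_succ_apply,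
              Nat.succ_eq_add_one, Nat.sub_add_cancel h] at h1
            exact h1
  · -- `m = 0`: everything stays inside `U`
    have hm0 : m = 0 := by omega
    subst hm0
    refine ⟨s₀ × ι₁ ⊕ Unit, inferInstance, fun y =>
      if h : y ∈ U then Sum.inl (⟨c₀ y, hc₀ y h⟩, d₁ (F^[N] y)) else Sum.inr (), ?_, ?_⟩
    · rw [Fintype.card_sum, Fintype.card_prod, Fintype.card_coe, Fintype.card_unit]
      set a := s₀.card + 1 with ha
      have e1 : (n - N + N - 1) / N + 1 = (n + N - 1) / N := by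
        rcases Nat.lt_or_ge n N with h | h
        · have h2 : n - N + N - 1 = N - 1 := by omega
          rw [h2, Nat.div_eq_of_lt (by omega)]
          have h3 : n + N - 1 = (n - 1) + N := by omega
          rw [h3, Nat.add_div_right _ (by omega), Nat.div_eq_of_lt (by omega)]
        · have h2 : n - N + N - 1 = n - 1 := by omega
          have h3 : n + N - 1 = (n - 1) + N := by omega
          rw [h2, h3, Nat.add_div_right _ (by omega)]
      simp only [add_zero, pow_zero, mul_one] at hcard₁ ⊢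
      have h1 : s₀.card * Fintype.card ι₁ ≤ a * (2 * a) ^ ((n - N + N - 1) / N) :=
        Nat.mul_le_mul (by omega) hcard₁
      have h3 : 2 * (a * (2 * a) ^ ((n - N + N - 1) / N)) = (2 * a) ^ ((n + N - 1) / N) := by
        rw [← e1]
        ring
      have h4 : 1 ≤ a * (2 * a) ^ ((n - N + N - 1) / N) := Nat.succ_le_of_lt (by positivity)
      omega
    · intro y y' hy hy' hcc
      have hU : y ∈ U := by
        by_contra h
        have := (shift2 y h hy).1
        omega
      have hU' : y' ∈ U := by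
        by_contra h
        have := (shift2 y' h hy').1
        omega
      simp only [dif_pos hU, dif_pos hU', Sum.inl.injEq, Prod.mk.injEq,
        Subtype.mk.injEq] at hcc
      intro i hi
      rcases Nat.lt_or_ge i N with h | h
      · have h1 := hc₀' y hU i h
        have h2 := hc₀' y' hU' i h
        rw [← hcc.1] at h2
        calc dist (F^[i] y) (F^[i] y') ≤ dist (F^[i] y) (F^[i] (c₀ y)) +
              dist (F^[i] y') (F^[i] (c₀ y)) := dist_triangle_right _ _ _
          _ < ε := by linarith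
      · have h1 := hd₁ _ _ (shift1 y hy) (shift1 y' hy') hcc.2 (i - N) (by omega)
        rw [← Function.iterate_add_apply, ← Function.iterate_add_apply,
          Nat.sub_add_cancel h] at h1
        exact h1

/-- If every orbit spends a bounded time outside of every neighbourhood of `Z`, and `Z` has zero
entropy, then the system has zero entropy. -/
theorem drift_entropy {Y : Type} [MetricSpace Y] [CompactSpace Y] (F : Y → Y) (hF : Continuous F)
    (Z : Set Y)
    (hZ : ∀ ε : ℝ, 0 < ε → ∀ δ : ℝ, 0 < δ → ∃ N : ℕ, ∀ n : ℕ, N ≤ n → ∃ s : Finset Y,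
      (s.card : ℝ) ≤ Real.exp (δ * n) ∧ ∀ z ∈ Z, ∃ y ∈ s, ∀ i < n, dist (F^[i] z) (F^[i] y) < ε)
    (hU : ∀ U : Set Y, IsOpen U → Z ⊆ U → ∃ M : ℕ, ∀ (y : Y) (T : Finset ℕ),
      (∀ i ∈ T, F^[i] y ∉ U) → T.card ≤ M) :
    ¬ 0 < Dynamics.coverEntropy F (Set.univ : Set Y) := by
  classical
  rw [Helper222.CPE.ent_iff]
  intro ε hε δ hδ
  rcases isEmpty_or_nonempty Y with hY | hY
  · exact ⟨0, fun n _ => ⟨∅, by simp; positivity, fun x => (hY.false x).elim⟩⟩
  obtain ⟨N₀, hN₀⟩ := hZ (ε / 2) (half_pos hε) (δ / 4) (by positivity)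
  obtain ⟨N₁, hN₁⟩ : ∃ N₁ : ℕ, Real.log 4 / (δ / 4) < N₁ := exists_nat_gt _
  obtain ⟨N, hN⟩ : ∃ N, N = max (max N₀ N₁) 1 := ⟨_, rfl⟩
  have hNN₀ : N₀ ≤ N := by rw [hN]; exact (le_max_left _ _).trans (le_max_left _ _)
  have hNN₁ : N₁ ≤ N := by rw [hN]; exact (le_max_right _ _).trans (le_max_left _ _)
  have hN1 : 1 ≤ N := by rw [hN]; exact le_max_right _ _
  obtain ⟨s₀, hs₀, hs₀'⟩ := hN₀ N hNN₀
  let U : Set Y := {y | ∃ c ∈ s₀, ∀ i < N, dist (F^[i] y) (F^[i] c) < ε / 2}
  have hUo : IsOpen U := by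
    have : U = ⋃ c ∈ s₀, ⋂ i ∈ range N, {y | dist (F^[i] y) (F^[i] c) < ε / 2} := by
      ext y
      simp [U]
    rw [this]
    refine isOpen_biUnion fun c _ => isOpen_biInter_finset fun i _ => ?_
    exact isOpen_lt ((hF.iterate i).dist continuous_const) continuous_const
  obtain ⟨M, hM⟩ := hU U hUo (fun z hz => hs₀' z hz)
  -- a net
  obtain ⟨t, _, htf, htc⟩ :=
    Metric.totallyBounded_iff.1 (isCompact_univ (X := Y)).totallyBounded (ε / 2) (half_pos hε)
    |>.imp (fun t h => (⟨trivial, h.1, h.2⟩ : True ∧ t.Finite ∧ _))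
  obtain ⟨s₁, hs₁⟩ : ∃ s₁ : Finset Y, ∀ y, ∃ c ∈ s₁, dist y c < ε / 2 := by
    refine ⟨htf.toFinset, fun y => ?_⟩
    have := htc (Set.mem_univ y)
    simp only [Set.mem_iUnion, Metric.mem_ball, exists_prop] at this
    obtain ⟨c, hc, hd⟩ := this
    exact ⟨c, htf.mem_toFinset.2 hc, hd⟩
  -- growth
  have hbase : (2 * ((s₀.card : ℝ) + 1)) ≤ Real.exp (δ / 2 * N) := by
    have h1 : Real.log 4 < δ / 4 * N := by
      rw [div_lt_iff₀ (by positivity)] at hN₁
      have : (N₁ : ℝ) ≤ N := by exact_mod_cast hNN₁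
      nlinarith
    have h2 : (4 : ℝ) ≤ Real.exp (δ / 4 * N) :=
      calc (4 : ℝ) = Real.exp (Real.log 4) := (Real.exp_log (by norm_num)).symm
        _ ≤ _ := Real.exp_le_exp.2 h1.le
    have h3 : Real.exp (δ / 2 * N) = Real.exp (δ / 4 * N) * Real.exp (δ / 4 * N) := by
      rw [← Real.exp_add]; congr 1; ring
    have h4 : (1 : ℝ) ≤ Real.exp (δ / 4 * N) := by linarith
    rw [h3]
    nlinarith
  obtain ⟨C, hC⟩ : ∃ C : ℝ, C = Real.exp (δ / 2 * N) * (2 * ((s₀.card : ℝ) + 1)) ^ M *
    (2 * ((s₁.card : ℝ) + 1)) ^ M := ⟨_, rfl⟩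
  obtain ⟨N₂, hN₂⟩ : ∃ N₂ : ℕ, ∀ n : ℕ, N₂ ≤ n → C ≤ Real.exp (δ / 2 * n) := by
    have h2 : Filter.Tendsto (fun n : ℕ => δ / 2 * (n : ℝ)) Filter.atTop Filter.atTop :=
      tendsto_natCast_atTop_atTop.const_mul_atTop (by positivity)
    obtain ⟨N₂, h⟩ := Filter.eventually_atTop.1
      ((Real.tendsto_exp_atTop.comp h2).eventually_ge_atTop C)
    exact ⟨N₂, fun n hn => h n hn⟩
  refine ⟨N₂, fun n hn => ?_⟩
  obtain ⟨ι, inst, c, hcard, hc⟩ := drift_code F U ε N hN1 s₀ s₁ (fun y hy => hy) hs₁ n M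
  let rep : ι → Y := fun v => if h : ∃ y, c y = v then h.choose else hY.some
  refine ⟨univ.image rep, ?_, ?_⟩
  · have h1 : ((univ.image rep).card : ℝ) ≤ Fintype.card ι := by
      exact_mod_cast card_image_le
    have h2 : (Fintype.card ι : ℝ) ≤ (2 * ((s₀.card : ℝ) + 1)) ^ ((n + N - 1) / N + M) *
        (2 * ((s₁.card : ℝ) + 1)) ^ M := by exact_mod_cast hcard
    have h3 : (2 * ((s₀.card : ℝ) + 1)) ^ ((n + N - 1) / N) ≤
        Real.exp (δ / 2 * n) * Real.exp (δ / 2 * N) := by
      calc (2 * ((s₀.card : ℝ) + 1)) ^ ((n + N - 1) / N)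
          ≤ Real.exp (δ / 2 * N) ^ ((n + N - 1) / N) :=
            pow_le_pow_left₀ (by positivity) hbase _
        _ = Real.exp ((((n + N - 1) / N : ℕ) : ℝ) * (δ / 2 * N)) := by rw [← Real.exp_nat_mul]
        _ ≤ Real.exp (δ / 2 * n + δ / 2 * N) := by
            apply Real.exp_le_exp.2
            have h4 : (((n + N - 1) / N : ℕ) : ℝ) * N ≤ n + N := by
              have h5 : (n + N - 1) / N * N ≤ n + N :=
                (Nat.div_mul_le_self _ _).trans (by omega)
              exact_mod_cast h5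
            calc (((n + N - 1) / N : ℕ) : ℝ) * (δ / 2 * N)
                = δ / 2 * ((((n + N - 1) / N : ℕ) : ℝ) * N) := by ring
              _ ≤ δ / 2 * (n + N) := by gcongr
              _ = _ := by ring
        _ = _ := by rw [Real.exp_add]
    calc ((univ.image rep).card : ℝ) ≤ (2 * ((s₀.card : ℝ) + 1)) ^ ((n + N - 1) / N + M) *
        (2 * ((s₁.card : ℝ) + 1)) ^ M := h1.trans h2
      _ = (2 * ((s₀.card : ℝ) + 1)) ^ ((n + N - 1) / N) * (2 * ((s₀.card : ℝ) + 1)) ^ M *
          (2 * ((s₁.card : ℝ) + 1)) ^ M := by rw [pow_add]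
      _ ≤ (Real.exp (δ / 2 * n) * Real.exp (δ / 2 * N)) * (2 * ((s₀.card : ℝ) + 1)) ^ M *
          (2 * ((s₁.card : ℝ) + 1)) ^ M := by gcongr
      _ = Real.exp (δ / 2 * n) * C := by rw [hC]; ring
      _ ≤ Real.exp (δ / 2 * n) * Real.exp (δ / 2 * n) := by
          gcongr
          exact hN₂ n hn
      _ = Real.exp (δ * n) := by rw [← Real.exp_add]; congr 1; ring
  · intro x
    refine ⟨rep (c x), mem_image_of_mem _ (mem_univ _), ?_⟩
    have hex : ∃ y, c y = c x := ⟨x, rfl⟩
    have hrep : c (rep (c x)) = c x := by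
      show c (if h : ∃ y, c y = c x then h.choose else hY.some) = c x
      rw [dif_pos hex]
      exact hex.choose_spec
    exact hc x _ (fun T hT => hM x T fun i hi => (hT i hi).2)
      (fun T hT => hM _ T fun i hi => (hT i hi).2) hrep.symm

end Pool.Agent.W136
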