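import Mathlib
import Pool.Agent.W136.Fin
import Pool.Agent.W136.Drift

/-!
# The one-sided subshift of a sequence and its embedding in the line
-/

set_option autoImplicit false

open Filter Topology

namespace Pool.Agent.W136

/-- coordinate value -/
noncomputable def dig (c : Bool) : ℝ := if c = true then 3 else 1

lemma dig_le (c : Bool) : dig c ≤ 3 := by unfold dig; split_ifs <;> norm_num
lemma one_le_dig (c : Bool) : 1 ≤ dig c := by unfold dig; split_ifs <;> norm_num

/-- the embedding of the Cantor space in the line -/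
noncomputable def cc (y : ℕ → Bool) : ℝ := ∑' i : ℕ, dig (y i) * (1 / 5) ^ (i + 1)

lemma summable_pow5 : Summable (fun i : ℕ => ((1 : ℝ) / 5) ^ (i + 1)) := by
  have := (summable_geometric_of_lt_one (r := (1 : ℝ) / 5) (by norm_num) (by norm_num)).mul_right
    ((1 : ℝ) / 5)
  simpa [pow_succ] using this

lemma tsum_pow5 : ∑' i : ℕ, ((1 : ℝ) / 5) ^ (i + 1) = 1 / 4 := by
  have h := tsum_geometric_of_lt_one (r := (1 : ℝ) / 5) (by norm_num) (by norm_num)
  calc ∑' i : ℕ, ((1 : ℝ) / 5) ^ (i + 1) = ∑' i : ℕ, ((1 : ℝ) / 5) ^ i * (1 / 5) := by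
        simp only [pow_succ]
    _ = (∑' i : ℕ, ((1 : ℝ) / 5) ^ i) * (1 / 5) := tsum_mul_right
    _ = 1 / 4 := by rw [h]; norm_num

lemma summable_cc (y : ℕ → Bool) : Summable (fun i : ℕ => dig (y i) * (1 / 5) ^ (i + 1)) := by
  refine Summable.of_nonneg_of_le (fun i => ?_) (fun i => ?_) (summable_pow5.mul_left 3)
  · have := one_le_dig (y i); positivity
  · exact mul_le_mul_of_nonneg_right (dig_le _) (by positivity)

lemma cc_le (y : ℕ → Bool) : cc y ≤ 3 / 4 := by
  calc cc y ≤ ∑' i : ℕ, 3 * ((1 : ℝ) / 5) ^ (i + 1) :=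
        (summable_cc y).tsum_le_tsum
          (fun i => mul_le_mul_of_nonneg_right (dig_le _) (by positivity))
          (summable_pow5.mul_left 3)
    _ = 3 / 4 := by rw [tsum_mul_left, tsum_pow5]; norm_num

lemma le_cc (y : ℕ → Bool) : 1 / 4 ≤ cc y := by
  calc (1 : ℝ) / 4 = ∑' i : ℕ, ((1 : ℝ) / 5) ^ (i + 1) := tsum_pow5.symm
    _ ≤ cc y := summable_pow5.tsum_le_tsum
          (fun i => le_mul_of_one_le_left (by positivity) (one_le_dig _)) (summable_cc y)

/-- the shift -/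
def sh (y : ℕ → Bool) : ℕ → Bool := fun i => y (i + 1)

lemma cc_sh (y : ℕ → Bool) : cc y = (cc (sh y) + dig (y 0)) / 5 := by
  unfold cc
  rw [(summable_cc y).tsum_eq_zero_add]
  have : ∑' i : ℕ, dig (y (i + 1)) * (1 / 5) ^ (i + 1 + 1) =
      (∑' i : ℕ, dig (sh y i) * (1 / 5) ^ (i + 1)) * (1 / 5) := by
    rw [← tsum_mul_right]
    refine tsum_congr fun i => ?_
    unfold sh
    ring
  rw [this]
  ring

lemma continuous_cc : Continuous cc := by
  refine continuous_tsum (u := fun i : ℕ => 3 * ((1 : ℝ) / 5) ^ (i + 1)) (fun i => ?_)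
    (summable_pow5.mul_left 3) (fun i y => ?_)
  · have h1 : Continuous dig := continuous_of_discreteTopology
    exact (h1.comp (continuous_apply i)).mul continuous_const
  · rw [Real.norm_of_nonneg (by have := one_le_dig (y i); positivity)]
    exact mul_le_mul_of_nonneg_right (dig_le _) (by positivity)

lemma sh_iter (y : ℕ → Bool) (n i : ℕ) : (sh^[n] y) i = y (i + n) := by
  induction n generalizing i with
  | zero => rfl
  | succ n ih =>
    rw [Function.iterate_succ_apply']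
    show (sh^[n] y) (i + 1) = _
    rw [ih]
    congr 1
    omega

lemma cc_close (m : ℕ) (y y' : ℕ → Bool) (h : ∀ i < m, y i = y' i) :
    |cc y - cc y'| ≤ (1 / 5) ^ m := by
  induction m generalizing y y' with
  | zero =>
    have h1 := cc_le y
    have h2 := le_cc y
    have h3 := cc_le y'
    have h4 := le_cc y'
    rw [pow_zero, abs_le]
    constructor <;> linarith
  | succ m ih =>
    rw [cc_sh y, cc_sh y', h 0 (by omega)]
    have h1 := ih (sh y) (sh y') (fun i hi => h (i + 1) (by omega))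
    have h2 : (cc (sh y) + dig (y' 0)) / 5 - (cc (sh y') + dig (y' 0)) / 5 =
        (cc (sh y) - cc (sh y')) * (1 / 5) := by ring
    rw [h2, abs_mul, pow_succ, abs_of_pos (show (0 : ℝ) < 1 / 5 by norm_num)]
    exact mul_le_mul_of_nonneg_right h1 (by norm_num)

/-- the one-sided subshift of `b` -/
def Xb (b : ℕ → Bool) : Set (ℕ → Bool) := {y | ∀ n : ℕ, ∃ s : ℕ, ∀ i < n, y i = b (s + i)}

lemma self_mem_Xb (b : ℕ → Bool) : b ∈ Xb b := fun _ => ⟨0, fun i _ => by rw [zero_add]⟩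

lemma sh_mem_Xb {b y : ℕ → Bool} (hy : y ∈ Xb b) : sh y ∈ Xb b := by
  intro n
  obtain ⟨s, hs⟩ := hy (n + 1)
  refine ⟨s + 1, fun i hi => ?_⟩
  show y (i + 1) = _
  rw [hs (i + 1) (by omega)]
  congr 1
  omega

lemma iter_mem_Xb {b y : ℕ → Bool} (hy : y ∈ Xb b) (n : ℕ) : sh^[n] y ∈ Xb b := by
  induction n with
  | zero => exact hy
  | succ n ih => rw [Function.iterate_succ_apply']; exact sh_mem_Xb ih

lemma isClosed_Xb (b : ℕ → Bool) : IsClosed (Xb b) := by
  have : Xb b = ⋂ (n : ℕ), (fun (y : ℕ → Bool) => fun i : Fin n => y i) ⁻¹'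
        {v | ∃ s : ℕ, ∀ i : Fin n, v i = b (s + i)} := by
    ext y
    simp only [Xb, Set.mem_ofPred_eq, Set.mem_iInter, Set.mem_preimage]
    refine forall_congr' fun n => exists_congr fun s => ?_
    exact ⟨fun h i => h i i.2, fun h i hi => h ⟨i, hi⟩⟩
  rw [this]
  refine isClosed_iInter fun n => ?_
  refine IsClosed.preimage ?_ (isClosed_discrete _)
  exact continuous_pi fun i => continuous_apply _

/-- the Cantor set -/
def Kb (b : ℕ → Bool) : Set ℝ := cc '' Xb b

lemma isCompact_Kb (b : ℕ → Bool) : IsCompact (Kb b) :=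
  (isClosed_Xb b).isCompact.image continuous_cc

/-- finitely many points of the subshift that shadow all others -/
lemma shadow (b : ℕ → Bool) (hb : SubExp b) (ε : ℝ) (hε : 0 < ε) (δ : ℝ) (hδ : 0 < δ) :
    ∃ N : ℕ, ∀ n : ℕ, N ≤ n → ∃ s : Finset (ℕ → Bool),
      (s.card : ℝ) + 1 ≤ Real.exp (δ * n) ∧ (∀ y ∈ s, y ∈ Xb b) ∧
      ∀ y ∈ Xb b, ∃ y' ∈ s, ∀ i < n, |cc (sh^[i] y) - cc (sh^[i] y')| < ε := by
  classical
  obtain ⟨m, hm⟩ : ∃ m : ℕ, ((1 : ℝ) / 5) ^ m < ε := exists_pow_lt_of_lt_one hε (by norm_num)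
  obtain ⟨N₀, hN₀⟩ := hb (δ / 4) (by positivity)
  obtain ⟨N₁, hN₁⟩ : ∃ N₁ : ℕ, ∀ n : ℕ, N₁ ≤ n → (2 : ℝ) ≤ Real.exp (δ / 2 * n) := by
    have h2 : Tendsto (fun n : ℕ => δ / 2 * (n : ℝ)) atTop atTop :=
      tendsto_natCast_atTop_atTop.const_mul_atTop (by positivity)
    obtain ⟨N₂, h⟩ := eventually_atTop.1
      ((Real.tendsto_exp_atTop.comp h2).eventually_ge_atTop 2)
    exact ⟨N₂, fun n hn => h n hn⟩
  refine ⟨max (max N₀ N₁) m, fun n hn => ?_⟩
  have hn0 : N₀ ≤ n := ((le_max_left _ _).trans (le_max_left _ _)).trans hn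
  have hn1 : N₁ ≤ n := ((le_max_right _ _).trans (le_max_left _ _)).trans hn
  have hn2 : m ≤ n := (le_max_right _ _).trans hn
  obtain ⟨S, hS1, hS2⟩ := hN₀ (n + m) (by omega)
  let rep : (Fin (n + m) → Bool) → (ℕ → Bool) := fun v =>
    if h : ∃ y, y ∈ Xb b ∧ ∀ i : Fin (n + m), y i = v i then h.choose else b
  refine ⟨S.image rep, ?_, ?_, ?_⟩
  · have h1 : ((S.image rep).card : ℝ) ≤ S.card := by exact_mod_cast Finset.card_image_le
    have h2 : Real.exp (δ / 4 * ((n + m : ℕ) : ℝ)) ≤ Real.exp (δ / 2 * n) := by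
      apply Real.exp_le_exp.2
      have h3 : ((n + m : ℕ) : ℝ) ≤ 2 * n := by
        have : n + m ≤ 2 * n := by omega
        exact_mod_cast this
      calc δ / 4 * ((n + m : ℕ) : ℝ) ≤ δ / 4 * (2 * n) := by gcongr
        _ = δ / 2 * n := by ring
    have h3 := hN₁ n hn1
    have h4 : Real.exp (δ * n) = Real.exp (δ / 2 * n) * Real.exp (δ / 2 * n) := by
      rw [← Real.exp_add]; congr 1; ring
    rw [h4]
    nlinarith
  · intro y hy
    obtain ⟨v, _, rfl⟩ := Finset.mem_image.1 hy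
    show (if h : ∃ y, y ∈ Xb b ∧ ∀ i : Fin (n + m), y i = v i then h.choose else b) ∈ Xb b
    split_ifs with h
    · exact h.choose_spec.1
    · exact self_mem_Xb b
  · intro y hy
    have hmem : (fun i : Fin (n + m) => y i) ∈ S := by
      obtain ⟨s, hs⟩ := hy (n + m)
      have : (fun i : Fin (n + m) => y i) = fun i : Fin (n + m) => b (s + i) := by
        funext i
        exact hs i i.2
      rw [this]
      exact hS2 s
    refine ⟨rep (fun i : Fin (n + m) => y i), Finset.mem_image_of_mem _ hmem, fun i hi => ?_⟩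
    have hex : ∃ y', y' ∈ Xb b ∧ ∀ i : Fin (n + m), y' i = (fun i : Fin (n + m) => y i) i :=
      ⟨y, hy, fun i => rfl⟩
    have hrep : ∀ i : Fin (n + m), rep (fun i : Fin (n + m) => y i) i = y i := by
      intro j
      show (if h : ∃ y', y' ∈ Xb b ∧ ∀ i : Fin (n + m), y' i = (fun i : Fin (n + m) => y i) i
        then h.choose else b) j = y j
      rw [dif_pos hex]
      exact hex.choose_spec.2 j
    refine lt_of_le_of_lt (cc_close m _ _ fun j hj => ?_) hm
    rw [sh_iter, sh_iter]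
    exact (hrep ⟨j + i, by omega⟩).symm

end Pool.Agent.W136
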