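import Mathlib
import Pool.Agent.W136.Code

/-!
# Zero entropy subshifts inside smooth maps of the square
-/

set_option autoImplicit false

open Filter Topology

namespace Pool.Agent.W136

/-- the closed unit square -/
def sq : Set (ℝ × ℝ) := Set.Icc 0 1 ×ˢ Set.Icc 0 1

instance : CompactSpace sq := isCompact_iff_compactSpace.1 (isCompact_Icc.prod isCompact_Icc)

/-- bump equal to one on `[1/4, 7/20]` -/
noncomputable def bumpA : ContDiffBump (3 / 10 : ℝ) := ⟨1 / 20, 1 / 10, by norm_num, by norm_num⟩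

/-- bump equal to one on `[13/20, 3/4]` -/
noncomputable def bumpB : ContDiffBump (7 / 10 : ℝ) := ⟨1 / 20, 1 / 10, by norm_num, by norm_num⟩

/-- the expanding map -/
noncomputable def ex (x : ℝ) : ℝ := bumpA x * (5 * x - 1) + bumpB x * (5 * x - 3)

lemma ex_contDiff : ContDiff ℝ (⊤ : ℕ∞) ex := by
  unfold ex
  exact (bumpA.contDiff.mul ((contDiff_const.mul contDiff_id).sub contDiff_const)).add
    (bumpB.contDiff.mul ((contDiff_const.mul contDiff_id).sub contDiff_const))

lemma ex_mem (x : ℝ) : ex x ∈ Set.Icc (0 : ℝ) 1 := by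
  have h1 := bumpA.nonneg (x := x)
  have h2 := bumpA.le_one (x := x)
  have h3 := bumpB.nonneg (x := x)
  have h4 := bumpB.le_one (x := x)
  have hA : 1 / 10 ≤ |x - 3 / 10| → bumpA x = 0 := fun h => by
    apply bumpA.zero_of_le_dist
    rw [Real.dist_eq]
    exact h
  have hB : 1 / 10 ≤ |x - 7 / 10| → bumpB x = 0 := fun h => by
    apply bumpB.zero_of_le_dist
    rw [Real.dist_eq]
    exact h
  unfold ex
  rcases le_or_gt x (1 / 2) with hx | hx
  · rw [hB (by rw [abs_of_nonpos (by linarith)]; linarith), zero_mul, add_zero]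
    rcases le_or_gt (1 / 10) |x - 3 / 10| with h | h
    · rw [hA h, zero_mul]; exact ⟨le_rfl, zero_le_one⟩
    · rw [abs_lt] at h
      constructor
      · nlinarith
      · nlinarith
  · rw [hA (by rw [abs_of_nonneg (by linarith)]; linarith), zero_mul, zero_add]
    rcases le_or_gt (1 / 10) |x - 7 / 10| with h | h
    · rw [hB h, zero_mul]; exact ⟨le_rfl, zero_le_one⟩
    · rw [abs_lt] at h
      constructor
      · nlinarith
      · nlinarith

lemma ex_cc (y : ℕ → Bool) : ex (cc y) = cc (sh y) := by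
  have h1 := cc_le (sh y)
  have h2 := le_cc (sh y)
  have h3 := cc_sh y
  rcases hy : y 0 with _ | _
  · have hd : dig (y 0) = 1 := by rw [hy]; rfl
    rw [hd] at h3
    have hA : bumpA (cc y) = 1 := by
      apply bumpA.one_of_mem_closedBall
      rw [Metric.mem_closedBall, Real.dist_eq]
      show |cc y - 3 / 10| ≤ 1 / 20
      rw [abs_le]
      constructor <;> linarith
    have hB : bumpB (cc y) = 0 := by
      apply bumpB.zero_of_le_dist
      rw [Real.dist_eq]
      show 1 / 10 ≤ |cc y - 7 / 10|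
      rw [abs_of_nonpos (by linarith)]
      linarith
    unfold ex
    rw [hA, hB]
    linarith
  · have hd : dig (y 0) = 3 := by rw [hy]; rfl
    rw [hd] at h3
    have hA : bumpA (cc y) = 0 := by
      apply bumpA.zero_of_le_dist
      rw [Real.dist_eq]
      show 1 / 10 ≤ |cc y - 3 / 10|
      rw [abs_of_nonneg (by linarith)]
      linarith
    have hB : bumpB (cc y) = 1 := by
      apply bumpB.one_of_mem_closedBall
      rw [Metric.mem_closedBall, Real.dist_eq]
      show |cc y - 7 / 10| ≤ 1 / 20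
      rw [abs_le]
      constructor <;> linarith
    unfold ex
    rw [hA, hB]
    linarith

/-- the map of the plane -/
noncomputable def sqMap (r : ℝ × ℝ → ℝ) (p : ℝ × ℝ) : ℝ × ℝ :=
  ((1 - p.2) * ex p.1 + p.2 / 2, 1 - (1 - p.2) * (1 - r p / 2))

lemma sqMap_contDiff (r : ℝ × ℝ → ℝ) (hr : ContDiff ℝ (⊤ : ℕ∞) r) :
    ContDiff ℝ (⊤ : ℕ∞) (sqMap r) := by
  unfold sqMap
  refine ContDiff.prodMk ?_ ?_
  · exact ((contDiff_const.sub contDiff_snd).mul (ex_contDiff.comp contDiff_fst)).add
      (contDiff_snd.div_const 2)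
  · exact contDiff_const.sub ((contDiff_const.sub contDiff_snd).mul
      (contDiff_const.sub (hr.div_const 2)))

lemma sqMap_mapsTo (r : ℝ × ℝ → ℝ) (hr : ∀ p, r p ∈ Set.Icc (0 : ℝ) 1) :
    Set.MapsTo (sqMap r) sq sq := by
  rintro ⟨x, t⟩ ⟨⟨hx0, hx1⟩, ⟨ht0, ht1⟩⟩
  simp only at hx0 hx1 ht0 ht1
  have h1 := ex_mem x
  have h2 := hr (x, t)
  refine ⟨⟨?_, ?_⟩, ⟨?_, ?_⟩⟩
  · show 0 ≤ (1 - t) * ex x + t / 2
    have : 0 ≤ (1 - t) * ex x := mul_nonneg (by linarith) h1.1
    linarith
  · show (1 - t) * ex x + t / 2 ≤ 1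
    have : (1 - t) * ex x ≤ (1 - t) * 1 := mul_le_mul_of_nonneg_left h1.2 (by linarith)
    linarith
  · show 0 ≤ 1 - (1 - t) * (1 - r (x, t) / 2)
    have : (1 - t) * (1 - r (x, t) / 2) ≤ 1 * 1 :=
      mul_le_mul (by linarith) (by linarith [h2.1]) (by linarith [h2.2]) (by norm_num)
    linarith
  · show 1 - (1 - t) * (1 - r (x, t) / 2) ≤ 1
    have : 0 ≤ (1 - t) * (1 - r (x, t) / 2) := mul_nonneg (by linarith) (by linarith [h2.2])
    linarith

/-- every sequence of subexponential complexity is an observable of a zero entropy smooth map of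
the square -/
theorem square_system (b : ℕ → Bool) (hb : SubExp b) :
    ∃ (F : ℝ × ℝ → ℝ × ℝ) (_ : ContDiff ℝ (⊤ : ℕ∞) F) (hm : Set.MapsTo F sq sq) (f : C(sq, ℂ))
      (x : sq), Dynamics.coverEntropy (hm.restrict F sq sq) (Set.univ : Set sq) = 0 ∧
      ∀ n : ℕ, f ((hm.restrict F sq sq)^[n] x) = bi b n := by
  classical
  have hclosed : IsClosed (Kb b ×ˢ ({0} : Set ℝ)) := (isCompact_Kb b).isClosed.prod isClosed_singleton
  obtain ⟨r, hr1, hr2, hr3⟩ := hclosed.isOpen_compl.exists_contDiff_support_eq (n := (⊤ : ℕ∞))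
  have hr01 : ∀ p, r p ∈ Set.Icc (0 : ℝ) 1 := fun p => hr3 ⟨p, rfl⟩
  have hrz : ∀ p, r p = 0 ↔ p ∈ Kb b ×ˢ ({0} : Set ℝ) := by
    intro p
    have h1 : p ∈ Function.support r ↔ p ∈ (Kb b ×ˢ ({0} : Set ℝ))ᶜ := by rw [hr1]
    rw [Function.mem_support, Set.mem_compl_iff] at h1
    exact not_iff_not.1 h1
  have hm := sqMap_mapsTo r hr01
  have hFc : Continuous (sqMap r) := (sqMap_contDiff r hr2).continuous
  obtain ⟨G, hG⟩ : ∃ G : sq → sq, G = hm.restrict (sqMap r) sq sq := ⟨_, rfl⟩
  have hGval : ∀ p : sq, (G p).1 = sqMap r p.1 := by intro p; rw [hG]; rfl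
  have hGc : Continuous G := by
    rw [hG]
    exact hFc.restrict hm
  -- points of the Cantor set
  have hpt : ∀ y : ℕ → Bool, (cc y, (0 : ℝ)) ∈ sq := fun y =>
    ⟨⟨by linarith [le_cc y], by linarith [cc_le y]⟩, ⟨le_rfl, zero_le_one⟩⟩
  let pt : (ℕ → Bool) → sq := fun y => ⟨(cc y, 0), hpt y⟩
  have hstep : ∀ y ∈ Xb b, G (pt y) = pt (sh y) := by
    intro y hy
    apply Subtype.ext
    rw [hGval]
    have h1 : r (cc y, 0) = 0 := (hrz _).2 ⟨⟨y, hy, rfl⟩, rfl⟩
    show ((1 - (0 : ℝ)) * ex (cc y) + 0 / 2, 1 - (1 - 0) * (1 - r (cc y, 0) / 2)) = (cc (sh y), 0)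
    rw [h1, ex_cc]
    norm_num
  have hiter : ∀ y ∈ Xb b, ∀ n : ℕ, G^[n] (pt y) = pt (sh^[n] y) := by
    intro y hy n
    induction n with
    | zero => rfl
    | succ n ih =>
      rw [Function.iterate_succ_apply', ih, hstep _ (iter_mem_Xb hy n),
        Function.iterate_succ_apply']
  -- the fixed point
  have hP : ((1 : ℝ) / 2, (1 : ℝ)) ∈ sq := ⟨⟨by norm_num, by norm_num⟩, ⟨by norm_num, by norm_num⟩⟩
  let P : sq := ⟨(1 / 2, 1), hP⟩
  have hPfix : G P = P := by
    apply Subtype.ext
    rw [hGval]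
    show ((1 - (1 : ℝ)) * ex (1 / 2) + 1 / 2, 1 - (1 - 1) * (1 - r (1 / 2, 1) / 2)) = (1 / 2, 1)
    norm_num
  have hPiter : ∀ n : ℕ, G^[n] P = P := fun n => Function.iterate_fixed hPfix n
  have hent : ¬ 0 < Dynamics.coverEntropy G (Set.univ : Set sq) := by
    refine drift_entropy G hGc ({p | ∃ y ∈ Xb b, p = pt y} ∪ {P}) ?_ ?_
    · intro ε hε δ hδ
      obtain ⟨N, hN⟩ := shadow b hb ε hε δ hδ
      refine ⟨N, fun n hn => ?_⟩
      obtain ⟨s, hs1, hs2, hs3⟩ := hN n hn
      refine ⟨insert P (s.image pt), ?_, ?_⟩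
      · refine le_trans ?_ hs1
        have h1 : (insert P (s.image pt)).card ≤ s.card + 1 :=
          (Finset.card_insert_le _ _).trans (Nat.add_le_add_right Finset.card_image_le 1)
        exact_mod_cast h1
      · rintro z (⟨y, hy, rfl⟩ | rfl)
        · obtain ⟨y', hy', h1⟩ := hs3 y hy
          refine ⟨pt y', Finset.mem_insert_of_mem (Finset.mem_image_of_mem _ hy'), fun i hi => ?_⟩
          rw [hiter y hy, hiter y' (hs2 y' hy'), Subtype.dist_eq, Prod.dist_eq]
          show max (dist (cc (sh^[i] y)) (cc (sh^[i] y'))) (dist (0 : ℝ) 0) < ε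
          rw [dist_self, Real.dist_eq]
          exact max_lt (h1 i hi) hε
        · exact ⟨P, Finset.mem_insert_self _ _, fun i _ => by rw [dist_self]; exact hε⟩
    · intro U hUo hUZ
      -- lower bound for `r` off `U`
      have hUc : IsCompact (Uᶜ : Set sq) := hUo.isClosed_compl.isCompact
      obtain ⟨c, hc0, hc1, hc⟩ : ∃ c : ℝ, 0 < c ∧ c ≤ 1 ∧ ∀ p : sq, p ∉ U → c ≤ r p.1 := by
        rcases Set.eq_empty_or_nonempty (Uᶜ : Set sq) with he | hne
        · exact ⟨1, one_pos, le_rfl, fun p hp => by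
            have : p ∈ (Uᶜ : Set sq) := hp
            rw [he] at this
            exact this.elim⟩
        · obtain ⟨p₀, hp₀, hmin⟩ := hUc.exists_isMinOn hne
            ((hr2.continuous.comp continuous_subtype_val).continuousOn)
          have hpos : 0 < r p₀.1 := by
            rcases lt_or_eq_of_le (hr01 p₀.1).1 with h | h
            · exact h
            · exfalso
              have h1 := (hrz p₀.1).1 h.symm
              obtain ⟨⟨y, hy, hy2⟩, h2⟩ := h1
              apply hp₀
              apply hUZ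
              left
              refine ⟨y, hy, Subtype.ext (Prod.ext hy2.symm h2)⟩
          refine ⟨r p₀.1, hpos, (hr01 p₀.1).2, fun p hp => ?_⟩
          exact hmin (show p ∈ (Uᶜ : Set sq) from hp)
      -- a neighbourhood of the fixed point
      obtain ⟨η, hη0, hη⟩ : ∃ η : ℝ, 0 < η ∧ ∀ p : sq, |p.1.1 - 1 / 2| < η → |p.1.2 - 1| < η →
          p ∈ U := by
        obtain ⟨η, h1, h2⟩ := Metric.isOpen_iff.1 hUo P (hUZ (Or.inr rfl))
        refine ⟨η, h1, fun p h3 h4 => h2 ?_⟩
        rw [Metric.mem_ball, Subtype.dist_eq, Prod.dist_eq]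
        exact max_lt (by rw [Real.dist_eq]; exact h3) (by rw [Real.dist_eq]; exact h4)
      obtain ⟨j, hj⟩ : ∃ j : ℕ, (1 - c / 2) ^ j < η :=
        exists_pow_lt_of_lt_one hη0 (by linarith)
      refine ⟨j + 1, fun y T hT => ?_⟩
      have ht : ∀ n : ℕ, 0 ≤ 1 - (G^[n] y).1.2 ∧ 1 - (G^[n] y).1.2 ≤ 1 := by
        intro n
        have h1 : 0 ≤ (G^[n] y).1.2 := (G^[n] y).2.2.1
        have h2 : (G^[n] y).1.2 ≤ 1 := (G^[n] y).2.2.2
        constructor <;> linarith
      have hsucc : ∀ n : ℕ, 1 - (G^[n + 1] y).1.2 =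
          (1 - (G^[n] y).1.2) * (1 - r (G^[n] y).1 / 2) := by
        intro n
        rw [Function.iterate_succ_apply', hGval]
        show 1 - (1 - (1 - (G^[n] y).1.2) * (1 - r (G^[n] y).1 / 2)) = _
        ring
      have hsucc1 : ∀ n : ℕ, (G^[n + 1] y).1.1 - 1 / 2 =
          (1 - (G^[n] y).1.2) * (ex (G^[n] y).1.1 - 1 / 2) := by
        intro n
        rw [Function.iterate_succ_apply', hGval]
        show (1 - (G^[n] y).1.2) * ex (G^[n] y).1.1 + (G^[n] y).1.2 / 2 - 1 / 2 = _
        ring
      have hq0 : 0 < 1 - c / 2 := by linarith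
      have hq1 : 1 - c / 2 ≤ 1 := by linarith
      have hdec : ∀ n : ℕ, 1 - (G^[n] y).1.2 ≤ (1 - c / 2) ^ (T.filter (· < n)).card := by
        intro n
        induction n with
        | zero =>
          have h1 : T.filter (· < 0) = ∅ := by
            apply Finset.filter_eq_empty_iff.2
            intro x _
            omega
          rw [h1, Finset.card_empty, pow_zero]
          exact (ht 0).2
        | succ n ih =>
          rw [hsucc]
          have h0 := ht n
          have hr0 := hr01 (G^[n] y).1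
          by_cases hn : n ∈ T
          · have h1 : T.filter (· < n + 1) = insert n (T.filter (· < n)) := by
              ext k
              simp only [Finset.mem_filter, Finset.mem_insert]
              constructor
              · rintro ⟨h2, h3⟩
                rcases Nat.lt_succ_iff_lt_or_eq.1 h3 with h4 | h4
                · exact Or.inr ⟨h2, h4⟩
                · exact Or.inl h4
              · rintro (h2 | ⟨h2, h3⟩)
                · exact ⟨h2 ▸ hn, by omega⟩
                · exact ⟨h2, by omega⟩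
            rw [h1, Finset.card_insert_of_notMem (by simp), pow_succ]
            have h2 := hc _ (hT n hn)
            exact mul_le_mul ih (by linarith) (by linarith [hr0.2]) (by positivity)
          · have h1 : T.filter (· < n + 1) = T.filter (· < n) := by
              ext k
              simp only [Finset.mem_filter]
              constructor
              · rintro ⟨h2, h3⟩
                refine ⟨h2, ?_⟩
                rcases Nat.lt_succ_iff_lt_or_eq.1 h3 with h4 | h4
                · exact h4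
                · exact absurd (h4 ▸ h2) hn
              · rintro ⟨h2, h3⟩
                exact ⟨h2, by omega⟩
            rw [h1]
            calc (1 - (G^[n] y).1.2) * (1 - r (G^[n] y).1 / 2) ≤ (1 - (G^[n] y).1.2) * 1 :=
                  mul_le_mul_of_nonneg_left (by linarith [hr0.1]) h0.1
              _ ≤ _ := by rw [mul_one]; exact ih
      by_contra hcon
      push Not at hcon
      have hne : T.Nonempty := Finset.card_pos.1 (by omega)
      obtain ⟨n, hn⟩ : ∃ n, n = T.max' hne := ⟨_, rfl⟩
      have hnT : n ∈ T := by rw [hn]; exact T.max'_mem hne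
      have hcard : j + 1 ≤ (T.filter (· < n)).card := by
        have h1 : T.erase n ⊆ T.filter (· < n) := by
          intro k hk
          rw [Finset.mem_erase] at hk
          rw [Finset.mem_filter]
          refine ⟨hk.2, lt_of_le_of_ne ?_ hk.1⟩
          rw [hn]
          exact T.le_max' k hk.2
        have h2 := Finset.card_le_card h1
        rw [Finset.card_erase_of_mem hnT] at h2
        omega
      have hn0 : n ≠ 0 := by
        intro h0
        rw [h0] at hcard
        have : (T.filter (· < 0)).card = 0 := by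
          rw [Finset.card_eq_zero]
          apply Finset.filter_eq_empty_iff.2
          intro x _
          omega
        omega
      obtain ⟨k, rfl⟩ := Nat.exists_eq_succ_of_ne_zero hn0
      have hcardk : j ≤ (T.filter (· < k)).card := by
        have h1 : T.filter (· < k.succ) ⊆ insert k (T.filter (· < k)) := by
          intro i hi
          rw [Finset.mem_filter] at hi
          rw [Finset.mem_insert, Finset.mem_filter]
          rcases Nat.lt_succ_iff_lt_or_eq.1 hi.2 with h4 | h4
          · exact Or.inr ⟨hi.1, h4⟩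
          · exact Or.inl h4
        have h2 := (Finset.card_le_card h1).trans (Finset.card_insert_le _ _)
        omega
      have hlt : 1 - (G^[k] y).1.2 < η := by
        refine lt_of_le_of_lt (hdec k) (lt_of_le_of_lt ?_ hj)
        exact pow_le_pow_of_le_one hq0.le hq1 hcardk
      have hbad := hT _ hnT
      apply hbad
      have h0 := ht k
      have hr0 := hr01 (G^[k] y).1
      apply hη
      · show |(G^[k + 1] y).1.1 - 1 / 2| < η
        rw [hsucc1, abs_mul, abs_of_nonneg h0.1]
        have h5 : |ex (G^[k] y).1.1 - 1 / 2| ≤ 1 := by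
          have := ex_mem (G^[k] y).1.1
          rw [abs_le]
          constructor <;> linarith [this.1, this.2]
        calc _ ≤ (1 - (G^[k] y).1.2) * 1 := mul_le_mul_of_nonneg_left h5 h0.1
          _ < η := by rw [mul_one]; exact hlt
      · show |(G^[k + 1] y).1.2 - 1| < η
        rw [abs_sub_comm, hsucc, abs_of_nonneg (mul_nonneg h0.1 (by linarith [hr0.2]))]
        calc _ ≤ (1 - (G^[k] y).1.2) * 1 := mul_le_mul_of_nonneg_left (by linarith [hr0.1]) h0.1
          _ < η := by rw [mul_one]; exact hlt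
  -- the observable
  refine ⟨sqMap r, sqMap_contDiff r hr2, hm,
    ⟨fun p => ((max 0 (min 1 (5 * p.1.1 - 2)) : ℝ) : ℂ), ?_⟩, pt b, ?_, ?_⟩
  · fun_prop
  · rw [← hG]
    exact le_antisymm (not_lt.1 hent) (Dynamics.coverEntropy_nonneg _ ⟨P, Set.mem_univ P⟩)
  · intro n
    rw [← hG, hiter b (self_mem_Xb b) n]
    show ((max 0 (min 1 (5 * cc (sh^[n] b) - 2)) : ℝ) : ℂ) = bi b n
    have h0 : (sh^[n] b) 0 = b n := by rw [sh_iter, zero_add]
    have h1 := cc_sh (sh^[n] b)
    have h2 := cc_le (sh (sh^[n] b))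
    have h3 := le_cc (sh (sh^[n] b))
    rw [h0] at h1
    unfold bi
    rcases hbn : b n with _ | _
    · rw [hbn] at h1
      have h4 : dig false = 1 := rfl
      rw [h4] at h1
      rw [max_eq_left ((min_le_right _ _).trans (by linarith))]
      simp
    · rw [hbn] at h1
      have h4 : dig true = 3 := rfl
      rw [h4] at h1
      rw [min_eq_left (by linarith), max_eq_right zero_le_one]
      simp

end Pool.Agent.W136
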