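import Mathlib
import Pool.Agent.W136.Square
import Pool.Agent.W136.Shear

/-!
# A compactly supported smooth diffeomorphism of three-space containing the full two-sided shift
-/

set_option autoImplicit false

open Filter Topology

namespace Pool.Agent.W136

variable {d : ℕ}

/-- bump equal to one on `[-20, 20]` -/
noncomputable def om : ContDiffBump (0 : ℝ) := ⟨20, 40, by norm_num, by norm_num⟩

lemma om_one {x : ℝ} (h : |x| ≤ 20) : om x = 1 := by
  apply om.one_of_mem_closedBall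
  rw [Metric.mem_closedBall, dist_zero_right, Real.norm_eq_abs]
  exact h

lemma om_zero {x : ℝ} (h : 40 ≤ |x|) : om x = 0 := by
  apply om.zero_of_le_dist
  rw [dist_zero_right, Real.norm_eq_abs]
  exact h

/-- existence of cut off shears -/
lemma cut_shear (g : ℝ → ℝ) (hg : ContDiff ℝ (⊤ : ℕ∞) g) (k l : Fin (d + 3)) (hkl : k ≠ l) (hk : k ≠ 2)
    (hl : l ≠ 2) : ∃ (R : ℝ) (Φ : (Fin (d + 3) → ℝ) ≃ₜ (Fin (d + 3) → ℝ)), 0 < R ∧ ContDiff ℝ (⊤ : ℕ∞) Φ ∧
      ContDiff ℝ (⊤ : ℕ∞) Φ.symm ∧ (∀ x, R ≤ ‖x‖ → Φ x = x) ∧ (∀ x, (Φ x) 2 = x 2) ∧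
      ∀ x, (∀ i, |x i| ≤ 20) → Φ x = x + g (x l) • Pi.single k 1 := by
  have hgc : HasCompactSupport (fun t : ℝ => g t * om t) := om.hasCompactSupport.mul_left
  have hgcont : Continuous (fun t : ℝ => g t * om t) := hg.continuous.mul om.continuous
  obtain ⟨G₀, hG₀⟩ := hgc.exists_bound_of_continuous hgcont
  obtain ⟨C, hC⟩ := ContDiff.lipschitzWith_of_hasCompactSupport om.hasCompactSupport
    (om.contDiff (n := 1)) (by norm_num)
  obtain ⟨G, hG⟩ : ∃ G, G = max G₀ 0 := ⟨_, rfl⟩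
  have hG0 : 0 ≤ G := by rw [hG]; exact le_max_right _ _
  have hGb : ∀ t, |g t * om t| ≤ G := fun t => by
    rw [hG, ← Real.norm_eq_abs]
    exact (hG₀ t).trans (le_max_left _ _)
  obtain ⟨W, hW⟩ : ∃ W : ℝ, W = 2 * (G * C) + 1 := ⟨_, rfl⟩
  have hW1 : 1 ≤ W := by
    rw [hW]
    have : 0 ≤ G * (C : ℝ) := by positivity
    linarith
  let J : Finset (Fin (d + 3)) := Finset.univ.filter fun i => i ≠ k ∧ i ≠ l
  let ψ : (Fin (d + 3) → ℝ) → ℝ := fun x =>
    (g (x l) * om (x l)) * (∏ i ∈ J, om (x i)) * om (x k / W)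
  have hψ : ContDiff ℝ (⊤ : ℕ∞) ψ := by
    have h1 : ∀ i : Fin (d + 3), ContDiff ℝ (⊤ : ℕ∞) (fun x : Fin (d + 3) → ℝ => x i) := fun i =>
      contDiff_apply ℝ ℝ i
    have h2 : ContDiff ℝ (⊤ : ℕ∞) (fun x : Fin (d + 3) → ℝ => ∏ i ∈ J, om (x i)) :=
      contDiff_prod fun i _ => om.contDiff.comp (h1 i)
    exact (((hg.comp (h1 l)).mul (om.contDiff.comp (h1 l))).mul h2).mul
      (om.contDiff.comp ((h1 k).div_const W))
  have hsingle : ∀ (x : Fin (d + 3) → ℝ) (τ : ℝ) (i : Fin (d + 3)), (x + τ • (Pi.single k (1 : ℝ) : Fin (d + 3) → ℝ)) i =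
      if i = k then x k + τ else x i := by
    intro x τ i
    by_cases h : i = k
    · subst h; simp
    · simp [Pi.single_apply, h]
  have hlip : ∀ x (τ : ℝ), |ψ (x + τ • Pi.single k (1 : ℝ)) - ψ x| ≤ 1 / 2 * |τ| := by
    intro x τ
    have e1 : (x + τ • (Pi.single k (1 : ℝ) : Fin (d + 3) → ℝ)) l = x l := by rw [hsingle, if_neg hkl.symm]
    have e2 : ∏ i ∈ J, om ((x + τ • (Pi.single k (1 : ℝ) : Fin (d + 3) → ℝ)) i) =
        ∏ i ∈ J, om (x i) := by
      refine Finset.prod_congr rfl fun i hi => ?_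
      rw [hsingle, if_neg (Finset.mem_filter.1 hi).2.1]
    have e3 : (x + τ • (Pi.single k (1 : ℝ) : Fin (d + 3) → ℝ)) k = x k + τ := by rw [hsingle, if_pos rfl]
    simp only [ψ]
    rw [e1, e2, e3, ← mul_sub, abs_mul, abs_mul]
    have h1 : |om ((x k + τ) / W) - om (x k / W)| ≤ C * (|τ| / W) := by
      have := hC.dist_le_mul ((x k + τ) / W) (x k / W)
      rw [Real.dist_eq, Real.dist_eq] at this
      have h2 : (x k + τ) / W - x k / W = τ / W := by ring
      rw [h2, abs_div, abs_of_pos (show (0 : ℝ) < W by linarith)] at this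
      exact this
    have h2 : |∏ i ∈ J, om (x i)| ≤ 1 := by
      rw [abs_of_nonneg (Finset.prod_nonneg fun i _ => om.nonneg)]
      exact Finset.prod_le_one (fun i _ => om.nonneg) fun i _ => om.le_one
    calc |g (x l) * om (x l)| * |∏ i ∈ J, om (x i)| * |om ((x k + τ) / W) - om (x k / W)|
        ≤ G * 1 * (C * (|τ| / W)) :=
          mul_le_mul (mul_le_mul (hGb _) h2 (abs_nonneg _) hG0) h1 (abs_nonneg _) (by positivity)
      _ = (G * C / W) * |τ| := by ring
      _ ≤ 1 / 2 * |τ| := by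
          refine mul_le_mul_of_nonneg_right ?_ (abs_nonneg _)
          rw [div_le_iff₀ (by linarith)]
          rw [hW]
          linarith
  obtain ⟨Φ, h1, h2, h3⟩ := shear_diffeo (Pi.single k (1 : ℝ) : Fin (d + 3) → ℝ) ψ hψ hlip
  refine ⟨40 * W, Φ, by linarith, h2, h3, ?_, ?_, ?_⟩
  · intro x hx
    have hex : ∃ i, 40 * W ≤ |x i| := by
      by_contra hcon
      push Not at hcon
      have : ‖x‖ < 40 * W := (pi_norm_lt_iff (by linarith)).2 fun i => by
        rw [Real.norm_eq_abs]; exact hcon i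
      linarith
    obtain ⟨i, hi⟩ := hex
    have h0 : ψ x = 0 := by
      have hcase : i = k ∨ i = l ∨ i ∈ J := by
        by_cases h1 : i = k
        · exact Or.inl h1
        · by_cases h2 : i = l
          · exact Or.inr (Or.inl h2)
          · exact Or.inr (Or.inr (Finset.mem_filter.2 ⟨Finset.mem_univ _, h1, h2⟩))
      rcases hcase with rfl | rfl | hJ
      · have : om (x i / W) = 0 := om_zero (by
          rw [abs_div, abs_of_pos (show (0 : ℝ) < W by linarith), le_div_iff₀ (by linarith)]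
          exact hi)
        simp only [ψ]
        rw [this, mul_zero]
      · have : om (x i) = 0 := om_zero (by linarith)
        simp only [ψ]
        rw [this]
        ring
      · have : ∏ i ∈ J, om (x i) = 0 := Finset.prod_eq_zero hJ (om_zero (by linarith))
        simp only [ψ]
        rw [this]
        ring
    rw [h1, h0, zero_smul, add_zero]
  · intro x
    rw [h1, hsingle, if_neg hk.symm]
  · intro x hx
    have e1 : om (x l) = 1 := om_one (hx l)
    have e2 : ∏ i ∈ J, om (x i) = 1 := Finset.prod_eq_one fun i _ => om_one (hx i)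
    have e3 : om (x k / W) = 1 := om_one (by
      rw [abs_div, abs_of_pos (show (0 : ℝ) < W by linarith), div_le_iff₀ (by linarith)]
      calc |x k| ≤ 20 := hx k
        _ ≤ 20 * W := by linarith)
    rw [h1]
    simp only [ψ]
    rw [e1, e2, e3, mul_one, mul_one, mul_one]

/-- points with only the first two coordinates different from zero -/
def vec (d : ℕ) (a b : ℝ) : Fin (d + 3) → ℝ := fun i => if i = 0 then a else if i = 1 then b else 0

lemma fin01 : (1 : Fin (d + 3)) ≠ 0 := by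
  intro h
  have := congrArg Fin.val h
  simp at this

lemma fin02 : (2 : Fin (d + 3)) ≠ 0 := by
  intro h
  have := congrArg Fin.val h
  rw [Fin.val_two] at this
  simp at this

lemma fin12 : (2 : Fin (d + 3)) ≠ 1 := by
  intro h
  have := congrArg Fin.val h
  rw [Fin.val_two] at this
  simp at this

lemma vec_zero (a b : ℝ) : vec d a b 0 = a := if_pos rfl

lemma vec_one (a b : ℝ) : vec d a b 1 = b := by
  unfold vec
  rw [if_neg fin01, if_pos rfl]

lemma vec_two (a b : ℝ) : vec d a b 2 = 0 := by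
  unfold vec
  rw [if_neg fin02, if_neg fin12]

lemma vec_add0 (a b τ : ℝ) : vec d a b + τ • Pi.single 0 1 = vec d (a + τ) b := by
  funext i
  by_cases h : i = 0
  · subst h; simp [vec]
  · simp [vec, h]

lemma vec_add1 (a b τ : ℝ) : vec d a b + τ • Pi.single 1 1 = vec d a (b + τ) := by
  funext i
  by_cases h : i = 1
  · subst h; simp [vec]
  · simp [vec, h]

lemma bump_cc (y : ℕ → Bool) :
    bumpA (cc y) + 3 * bumpB (cc y) = dig (y 0) := by
  have h1 := cc_le (sh y)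
  have h2 := le_cc (sh y)
  have h3 := cc_sh y
  rcases hy : y 0 with _ | _
  · have hd : dig (y 0) = 1 := by rw [hy]; rfl
    rw [hd] at h3
    have hA : bumpA (cc y) = 1 := by
      apply bumpA.one_of_mem_closedBall
      rw [Metric.mem_closedBall, Real.dist_eq]
      show |cc y - 3 / 10| ≤ 1 / 20
      rw [abs_le]
      constructor <;> linarith
    have hB : bumpB (cc y) = 0 := by
      apply bumpB.zero_of_le_dist
      rw [Real.dist_eq]
      show 1 / 10 ≤ |cc y - 7 / 10|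
      rw [abs_of_nonpos (by linarith)]
      linarith
    rw [hA, hB]
    show (1 : ℝ) + 3 * 0 = 1
    norm_num
  · have hd : dig (y 0) = 3 := by rw [hy]; rfl
    rw [hd] at h3
    have hA : bumpA (cc y) = 0 := by
      apply bumpA.zero_of_le_dist
      rw [Real.dist_eq]
      show 1 / 10 ≤ |cc y - 3 / 10|
      rw [abs_of_nonneg (by linarith)]
      linarith
    have hB : bumpB (cc y) = 1 := by
      apply bumpB.one_of_mem_closedBall
      rw [Metric.mem_closedBall, Real.dist_eq]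
      show |cc y - 7 / 10| ≤ 1 / 20
      rw [abs_le]
      constructor <;> linarith
    rw [hA, hB]
    show (0 : ℝ) + 3 * 1 = 3
    norm_num

lemma bounds3 {a b : ℝ} (ha : |a| ≤ 20) (hb : |b| ≤ 20) : ∀ i, |vec d a b i| ≤ 20 := by
  intro i
  unfold vec
  split_ifs
  · exact ha
  · exact hb
  · norm_num

/-- the horseshoe -/
theorem horseshoe (d : ℕ) : ∃ (R : ℝ) (G : (Fin (d + 3) → ℝ) ≃ₜ (Fin (d + 3) → ℝ)), 0 < R ∧
    ContDiff ℝ (⊤ : ℕ∞) G ∧
    ContDiff ℝ (⊤ : ℕ∞) G.symm ∧ (∀ x, R ≤ ‖x‖ → G x = x) ∧ (∀ x, (G x) 2 = x 2) ∧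
    ∀ p q q' : ℕ → Bool, q' 0 = p 0 → sh q' = q →
      G (vec d (cc p) (cc q)) = vec d (cc (sh p)) (cc q') := by
  obtain ⟨R₁, Φ₁, hR₁, hc₁, hc₁', hb₁, ht₁, hv₁⟩ := cut_shear (d := d) (fun s => -(1 / 5) * s)
    (contDiff_const.mul contDiff_id) 0 1 fin01.symm fin02.symm fin12.symm
  obtain ⟨R₂, Φ₂, hR₂, hc₂, hc₂', hb₂, ht₂, hv₂⟩ := cut_shear (d := d) (fun u => 4 * u)
    (contDiff_const.mul contDiff_id) 1 0 fin01 fin12.symm fin02.symm
  obtain ⟨R₃, Φ₃, hR₃, hc₃, hc₃', hb₃, ht₃, hv₃⟩ := cut_shear (d := d) (fun s => s)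
    contDiff_id 0 1 fin01.symm fin02.symm fin12.symm
  obtain ⟨R₄, Φ₄, hR₄, hc₄, hc₄', hb₄, ht₄, hv₄⟩ := cut_shear (d := d)
    (fun u => -(4 / 5) * u + (bumpA (u / 5) + 3 * bumpB (u / 5)) / 5)
    ((contDiff_const.mul contDiff_id).add
      (((bumpA.contDiff.comp (contDiff_id.div_const 5)).add
        (contDiff_const.mul (bumpB.contDiff.comp (contDiff_id.div_const 5)))).div_const 5))
    1 0 fin01 fin12.symm fin02.symm
  obtain ⟨R₅, Φ₅, hR₅, hc₅, hc₅', hb₅, ht₅, hv₅⟩ := cut_shear (d := d)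
    (fun s => -(bumpA s + 3 * bumpB s))
    ((bumpA.contDiff.add (contDiff_const.mul bumpB.contDiff)).neg)
    0 1 fin01.symm fin02.symm fin12.symm
  refine ⟨max (max (max (max R₁ R₂) R₃) R₄) R₅,
    (((Φ₁.trans Φ₂).trans Φ₃).trans Φ₄).trans Φ₅, ?_, ?_, ?_, ?_, ?_, ?_⟩
  · exact lt_of_lt_of_le hR₅ (le_max_right _ _)
  · exact hc₅.comp (hc₄.comp (hc₃.comp (hc₂.comp hc₁)))
  · exact hc₁'.comp (hc₂'.comp (hc₃'.comp (hc₄'.comp hc₅')))
  · intro x hx
    have h5 : R₅ ≤ ‖x‖ := (le_max_right _ _).trans hx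
    have g1 := (le_max_left _ _).trans hx
    have h4 : R₄ ≤ ‖x‖ := (le_max_right _ _).trans g1
    have g2 := (le_max_left _ _).trans g1
    have h3 : R₃ ≤ ‖x‖ := (le_max_right _ _).trans g2
    have g3 := (le_max_left _ _).trans g2
    have h2 : R₂ ≤ ‖x‖ := (le_max_right _ _).trans g3
    have h1 : R₁ ≤ ‖x‖ := (le_max_left _ _).trans g3
    show Φ₅ (Φ₄ (Φ₃ (Φ₂ (Φ₁ x)))) = x
    rw [hb₁ x h1, hb₂ x h2, hb₃ x h3, hb₄ x h4, hb₅ x h5]
  · intro x
    show (Φ₅ (Φ₄ (Φ₃ (Φ₂ (Φ₁ x))))) 2 = x 2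
    rw [ht₅, ht₄, ht₃, ht₂, ht₁]
  · intro p q q' h0 hq
    have hu1 := le_cc p
    have hu2 := cc_le p
    have hs1 := le_cc q
    have hs2 := cc_le q
    have hup := cc_sh p
    have hq' := cc_sh q'
    rw [hq, h0] at hq'
    have hd1 := one_le_dig (p 0)
    have hd2 := dig_le (p 0)
    show Φ₅ (Φ₄ (Φ₃ (Φ₂ (Φ₁ (vec d (cc p) (cc q)))))) = _
    rw [hv₁ _ (bounds3 (abs_le.2 ⟨by linarith, by linarith⟩) (abs_le.2 ⟨by linarith, by linarith⟩)),
      vec_add0, vec_one]
    rw [hv₂ _ (bounds3 (abs_le.2 ⟨by linarith, by linarith⟩) (abs_le.2 ⟨by linarith, by linarith⟩)),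
      vec_add1, vec_zero]
    rw [hv₃ _ (bounds3 (abs_le.2 ⟨by linarith, by linarith⟩) (abs_le.2 ⟨by linarith, by linarith⟩)),
      vec_add0, vec_one]
    have e4 : cc p + -(1 / 5) * cc q + (cc q + 4 * (cc p + -(1 / 5) * cc q)) = 5 * cc p := by ring
    rw [e4]
    rw [hv₄ _ (bounds3 (abs_le.2 ⟨by linarith, by linarith⟩) (abs_le.2 ⟨by linarith, by linarith⟩)),
      vec_add1, vec_zero]
    have e6 : 5 * cc p / 5 = cc p := by ring
    have e7 : cc q + 4 * (cc p + -(1 / 5) * cc q) +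
        (-(4 / 5) * (5 * cc p) + (bumpA (5 * cc p / 5) + 3 * bumpB (5 * cc p / 5)) / 5) = cc q' := by
      rw [e6, bump_cc, hq']
      ring
    rw [e7]
    have hq1 := le_cc q'
    have hq2 := cc_le q'
    rw [hv₅ _ (bounds3 (abs_le.2 ⟨by linarith, by linarith⟩) (abs_le.2 ⟨by linarith, by linarith⟩)),
      vec_add0, vec_one]
    rw [bump_cc, h0]
    have e9 : 5 * cc p + -dig (p 0) = cc (sh p) := by rw [hup]; ring
    rw [e9]

end Pool.Agent.W136
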