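import Mathlib
import Pool.Agent.W136.Horse
import Pool.Agent.W136.Sys

/-!
# Zero entropy subshifts inside compactly supported smooth diffeomorphisms of three-space
-/

set_option autoImplicit false

open Filter Topology

namespace Pool.Agent.W136

/-- the future of a two-sided sequence -/
def fut {z : ℕ → Bool} (y : Sub z) : ℕ → Bool := fun i => y.seq (i : ℤ)

/-- the past of a two-sided sequence -/
def past {z : ℕ → Bool} (y : Sub z) : ℕ → Bool := fun i => y.seq (-1 - (i : ℤ))

/-- the embedding -/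
noncomputable def emb (d : ℕ) {z : ℕ → Bool} (y : Sub z) : Fin (d + 3) → ℝ :=
  vec d (cc (fut y)) (cc (past y))

lemma continuous_fut {z : ℕ → Bool} : Continuous (fut : Sub z → ℕ → Bool) :=
  continuous_pi fun i => Sub.continuous_coord _

lemma continuous_past {z : ℕ → Bool} : Continuous (past : Sub z → ℕ → Bool) :=
  continuous_pi fun i => Sub.continuous_coord _

lemma continuous_emb (d : ℕ) {z : ℕ → Bool} : Continuous (emb d : Sub z → Fin (d + 3) → ℝ) := by
  refine continuous_pi fun i => ?_
  unfold emb vec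
  split_ifs
  · exact continuous_cc.comp continuous_fut
  · exact continuous_cc.comp continuous_past
  · exact continuous_const

lemma emb_norm (d : ℕ) {z : ℕ → Bool} (y : Sub z) : ‖emb d y‖ ≤ 1 := by
  rw [pi_norm_le_iff_of_nonneg zero_le_one]
  intro i
  have h1 := le_cc (fut y)
  have h2 := cc_le (fut y)
  have h3 := le_cc (past y)
  have h4 := cc_le (past y)
  unfold emb vec
  split_ifs
  · rw [Real.norm_eq_abs, abs_le]
    constructor <;> linarith
  · rw [Real.norm_eq_abs, abs_le]
    constructor <;> linarith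
  · rw [norm_zero]
    exact zero_le_one

lemma fut_shift {z : ℕ → Bool} (y : Sub z) : fut (Sub.shift z y) = sh (fut y) := by
  funext i
  show y.seq ((i : ℤ) + 1) = y.seq ((i + 1 : ℕ) : ℤ)
  rw [Nat.cast_succ]

lemma past_shift {z : ℕ → Bool} (y : Sub z) : sh (past (Sub.shift z y)) = past y := by
  funext i
  show y.seq (-1 - ((i + 1 : ℕ) : ℤ) + 1) = y.seq (-1 - (i : ℤ))
  congr 1
  push_cast
  ring

lemma past_shift_zero {z : ℕ → Bool} (y : Sub z) : past (Sub.shift z y) 0 = fut y 0 := by
  show y.seq (-1 - ((0 : ℕ) : ℤ) + 1) = y.seq ((0 : ℕ) : ℤ)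
  congr 1

/-- every Toeplitz sequence of subexponential complexity is an observable of a zero entropy
compactly supported smooth diffeomorphism of three-space -/
theorem diffeo_system (d : ℕ) (z : ℕ → Bool) (hz : SubExp z) (Q : ℕ → ℕ) (hpos : ∀ k, 0 < Q k)
    (hdvd : ∀ k, Q k ∣ Q (k + 1)) (hT : ∀ n, ∃ k, ∀ j, z (n + j * Q k) = z n) :
    ∃ (R : ℝ) (F : (Fin (d + 3) → ℝ) ≃ₜ (Fin (d + 3) → ℝ)), ContDiff ℝ (⊤ : ℕ∞) F ∧
      ContDiff ℝ (⊤ : ℕ∞) F.symm ∧
      (∀ x, x ∉ Metric.closedBall (0 : Fin (d + 3) → ℝ) R → F x = x) ∧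
      ∃ (hm : Set.MapsTo F (Metric.closedBall 0 R) (Metric.closedBall 0 R))
        (f : C(Metric.closedBall (0 : Fin (d + 3) → ℝ) R, ℂ)) (x : Metric.closedBall (0 : Fin (d + 3) → ℝ) R),
        Dynamics.coverEntropy (hm.restrict F _ _)
          (Set.univ : Set (Metric.closedBall (0 : Fin (d + 3) → ℝ) R)) = 0 ∧
        ∀ n : ℕ, f ((hm.restrict F _ _)^[n] x) = bi z n := by
  classical
  obtain ⟨x₀, hx₀⟩ := Sub.exists_point (z := z) Q hpos hdvd hT
  obtain ⟨R, G, hR, hGc, hGc', hGb, hGt, hGv⟩ := horseshoe d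
  -- the horseshoe on the subshift
  have hGemb : ∀ y : Sub z, G (emb d y) = emb d (Sub.shift z y) := by
    intro y
    have := hGv (fut y) (past y) (past (Sub.shift z y)) (past_shift_zero y) (past_shift y)
    rw [← fut_shift] at this
    exact this
  -- the function that pushes upwards
  obtain ⟨R₁, hR₁⟩ : ∃ R₁, R₁ = max R 1 + 1 := ⟨_, rfl⟩
  have hRR : R ≤ R₁ := by rw [hR₁]; linarith [le_max_left R 1]
  have hR1 : 1 < R₁ := by rw [hR₁]; linarith [le_max_right R 1]
  let Λ : Set (Fin (d + 3) → ℝ) := Set.range (emb d : Sub z → Fin (d + 3) → ℝ)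
  have hΛ : IsClosed Λ := (isCompact_range (continuous_emb d)).isClosed
  have hopen : IsOpen (Metric.ball (0 : Fin (d + 3) → ℝ) R₁ ∩ Λᶜ) := Metric.isOpen_ball.inter hΛ.isOpen_compl
  obtain ⟨r, hr1, hr2, hr3⟩ := hopen.exists_contDiff_support_eq (n := (⊤ : ℕ∞))
  have hr01 : ∀ p, r p ∈ Set.Icc (0 : ℝ) 1 := fun p => hr3 ⟨p, rfl⟩
  have hrz : ∀ p, r p = 0 ↔ (R₁ ≤ ‖p‖ ∨ p ∈ Λ) := by
    intro p
    have h1 : p ∈ Function.support r ↔ p ∈ Metric.ball (0 : Fin (d + 3) → ℝ) R₁ ∩ Λᶜ := by rw [hr1]
    rw [Function.mem_support, Set.mem_inter_iff, mem_ball_zero_iff, Set.mem_compl_iff] at h1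
    constructor
    · intro h
      by_contra hcon
      push Not at hcon
      exact h1.2 hcon h
    · rintro (h | h)
      · by_contra hcon
        exact absurd (h1.1 hcon).1 (not_lt.2 h)
      · by_contra hcon
        exact (h1.1 hcon).2 h
  have hrsupp : HasCompactSupport r := by
    refine HasCompactSupport.of_support_subset_isCompact
      (isCompact_closedBall (0 : Fin (d + 3) → ℝ) R₁) ?_
    rw [hr1]
    exact Set.inter_subset_left.trans Metric.ball_subset_closedBall
  obtain ⟨C, hC⟩ := ContDiff.lipschitzWith_of_hasCompactSupport hrsupp hr2 (by simp)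
  obtain ⟨κ, hκ⟩ : ∃ κ : ℝ, κ = 1 / (2 * ((C : ℝ) + 1)) := ⟨_, rfl⟩
  have hκ0 : 0 < κ := by rw [hκ]; positivity
  have hκC : κ * C ≤ 1 / 2 := by
    rw [hκ, one_div_mul_eq_div, div_le_iff₀ (by positivity)]
    linarith
  obtain ⟨P, hP, hPc, hPc'⟩ := shear_diffeo (Pi.single 2 (1 : ℝ) : Fin (d + 3) → ℝ) (fun x => κ * r x)
    (contDiff_const.mul hr2) (by
      intro x τ
      rw [← mul_sub, abs_mul, abs_of_pos hκ0]
      have h1 := hC.dist_le_mul (x + τ • (Pi.single 2 (1 : ℝ) : Fin (d + 3) → ℝ)) x
      rw [Real.dist_eq, dist_eq_norm, add_sub_cancel_left, norm_smul, Pi.norm_single,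
        norm_one, mul_one, Real.norm_eq_abs] at h1
      calc κ * |r (x + τ • (Pi.single 2 (1 : ℝ) : Fin (d + 3) → ℝ)) - r x| ≤ κ * (C * |τ|) :=
            mul_le_mul_of_nonneg_left h1 hκ0.le
        _ = (κ * C) * |τ| := by ring
        _ ≤ 1 / 2 * |τ| := mul_le_mul_of_nonneg_right hκC (abs_nonneg _))
  obtain ⟨F, hF⟩ : ∃ F : (Fin (d + 3) → ℝ) ≃ₜ (Fin (d + 3) → ℝ), F = P.trans G := ⟨_, rfl⟩
  have hFv : ∀ x, F x = G (P x) := by intro x; rw [hF]; rfl
  have hFfix : ∀ x, R₁ ≤ ‖x‖ → F x = x := by
    intro x hx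
    have h1 : P x = x := by
      rw [hP, (hrz x).2 (Or.inl hx)]
      simp
    rw [hFv, h1, hGb x (hRR.trans hx)]
  have hFt : ∀ x, (F x) 2 = x 2 + κ * r x := by
    intro x
    rw [hFv, hGt, hP]
    simp
  have hFemb : ∀ y : Sub z, F (emb d y) = emb d (Sub.shift z y) := by
    intro y
    have h1 : P (emb d y) = emb d y := by
      rw [hP, (hrz _).2 (Or.inr ⟨y, rfl⟩)]
      simp
    rw [hFv, h1, hGemb]
  have hFc : ContDiff ℝ (⊤ : ℕ∞) F := by rw [hF]; exact hGc.comp hPc
  have hFc' : ContDiff ℝ (⊤ : ℕ∞) F.symm := by rw [hF]; exact hPc'.comp hGc'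
  have hm : Set.MapsTo F (Metric.closedBall 0 R₁) (Metric.closedBall 0 R₁) := by
    intro x hx
    rw [mem_closedBall_zero_iff] at hx ⊢
    by_contra hcon
    push Not at hcon
    have h1 := hFfix (F x) hcon.le
    have h2 : F x = x := F.injective h1
    rw [h2] at hcon
    exact absurd hx (not_le.2 hcon)
  refine ⟨R₁, F, hFc, hFc', fun x hx => ?_, hm, ?_⟩
  · rw [mem_closedBall_zero_iff, not_le] at hx
    exact hFfix x hx.le
  have : CompactSpace (Metric.closedBall (0 : Fin (d + 3) → ℝ) R₁) :=
    isCompact_iff_compactSpace.1 (isCompact_closedBall _ _)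
  obtain ⟨H, hH⟩ : ∃ H, H = hm.restrict F _ _ := ⟨_, rfl⟩
  have hHval : ∀ p, (H p).1 = F p.1 := by intro p; rw [hH]; rfl
  have hHc : Continuous H := by rw [hH]; exact F.continuous.restrict hm
  let pt : Sub z → Metric.closedBall (0 : Fin (d + 3) → ℝ) R₁ := fun y =>
    ⟨emb d y, by rw [mem_closedBall_zero_iff]; exact (emb_norm d y).trans hR1.le⟩
  have hptc : Continuous pt := (continuous_emb d).subtype_mk _
  have hstep : ∀ y, H (pt y) = pt (Sub.shift z y) := fun y => Subtype.ext (by
    rw [hHval]; exact hFemb y)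
  have hiter : ∀ y (n : ℕ), H^[n] (pt y) = pt ((Sub.shift z)^[n] y) := by
    intro y n
    induction n with
    | zero => rfl
    | succ n ih =>
      rw [Function.iterate_succ_apply', ih, hstep, Function.iterate_succ_apply']
  have hfixp : ∀ p : Metric.closedBall (0 : Fin (d + 3) → ℝ) R₁, R₁ ≤ ‖p.1‖ → ∀ n : ℕ, H^[n] p = p := by
    intro p hp n
    exact Function.iterate_fixed (Subtype.ext (by rw [hHval]; exact hFfix _ hp)) n
  have hent : ¬ 0 < Dynamics.coverEntropy H
      (Set.univ : Set (Metric.closedBall (0 : Fin (d + 3) → ℝ) R₁)) := by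
    refine drift_entropy H hHc ({p | ∃ y, p = pt y} ∪ {p | R₁ ≤ ‖p.1‖}) ?_ ?_
    · intro ε hε δ hδ
      obtain ⟨ε', hε', huc⟩ := Metric.uniformContinuous_iff.1
        (CompactSpace.uniformContinuous_of_continuous hptc) ε hε
      have hsub : ¬ 0 < Dynamics.coverEntropy (Sub.shift z) (Set.univ : Set (Sub z)) := by
        rw [Sub.entropy_zero hz ⟨x₀⟩]; exact lt_irrefl _
      obtain ⟨N, hN⟩ := (Helper222.CPE.ent_iff _).1 hsub ε' hε' (δ / 2) (half_pos hδ)
      have hW : IsCompact {p : Metric.closedBall (0 : Fin (d + 3) → ℝ) R₁ | R₁ ≤ ‖p.1‖} :=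
        (isClosed_le continuous_const (continuous_norm.comp continuous_subtype_val)).isCompact
      obtain ⟨t, htW, htf, htc⟩ := hW.finite_cover_balls hε
      obtain ⟨N₁, hN₁⟩ : ∃ N₁ : ℕ, ∀ n : ℕ, N₁ ≤ n →
          (1 + (htf.toFinset.card : ℝ)) ≤ Real.exp (δ / 2 * n) := by
        have h2 : Tendsto (fun n : ℕ => δ / 2 * (n : ℝ)) atTop atTop :=
          tendsto_natCast_atTop_atTop.const_mul_atTop (by positivity)
        obtain ⟨N₂, h⟩ := eventually_atTop.1
          ((Real.tendsto_exp_atTop.comp h2).eventually_ge_atTop (1 + (htf.toFinset.card : ℝ)))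
        exact ⟨N₂, fun n hn => h n hn⟩
      refine ⟨max N N₁, fun n hn => ?_⟩
      obtain ⟨s, hs1, hs2⟩ := hN n ((le_max_left _ _).trans hn)
      refine ⟨s.image pt ∪ htf.toFinset, ?_, ?_⟩
      · have h1 : ((s.image pt ∪ htf.toFinset).card : ℝ) ≤ s.card + htf.toFinset.card := by
          have h2 := (Finset.card_union_le (s.image pt) htf.toFinset).trans
            (Nat.add_le_add_right Finset.card_image_le _)
          exact_mod_cast h2
        have h2 := hN₁ n ((le_max_right _ _).trans hn)
        have h3 : (1 : ℝ) ≤ Real.exp (δ / 2 * n) := Real.one_le_exp (by positivity)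
        have h4 : Real.exp (δ * n) = Real.exp (δ / 2 * n) * Real.exp (δ / 2 * n) := by
          rw [← Real.exp_add]; congr 1; ring
        have h5 : (0 : ℝ) ≤ htf.toFinset.card := Nat.cast_nonneg _
        rw [h4]
        nlinarith
      · rintro p (⟨y, rfl⟩ | hp)
        · obtain ⟨y', hy', h1⟩ := hs2 y
          refine ⟨pt y', Finset.mem_union_left _ (Finset.mem_image_of_mem _ hy'), fun i hi => ?_⟩
          rw [hiter, hiter]
          exact huc (h1 i hi)
        · have h1 := htc hp
          simp only [Set.mem_iUnion, Metric.mem_ball, exists_prop] at h1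
          obtain ⟨q, hq, hd⟩ := h1
          refine ⟨q, Finset.mem_union_right _ (htf.mem_toFinset.2 hq), fun i _ => ?_⟩
          rw [hfixp p hp, hfixp q (htW hq)]
          exact hd
    · intro U hUo hUZ
      have hUc : IsCompact (Uᶜ : Set (Metric.closedBall (0 : Fin (d + 3) → ℝ) R₁)) :=
        hUo.isClosed_compl.isCompact
      obtain ⟨c, hc0, hc⟩ : ∃ c : ℝ, 0 < c ∧
          ∀ p : Metric.closedBall (0 : Fin (d + 3) → ℝ) R₁, p ∉ U → c ≤ κ * r p.1 := by
        rcases Set.eq_empty_or_nonempty (Uᶜ : Set (Metric.closedBall (0 : Fin (d + 3) → ℝ) R₁)) with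
          he | hne
        · exact ⟨1, one_pos, fun p hp => by
            have : p ∈ (Uᶜ : Set (Metric.closedBall (0 : Fin (d + 3) → ℝ) R₁)) := hp
            rw [he] at this
            exact this.elim⟩
        · obtain ⟨p₀, hp₀, hmin⟩ := hUc.exists_isMinOn hne
            ((hr2.continuous.comp continuous_subtype_val).continuousOn)
          have hpos' : 0 < r p₀.1 := by
            rcases lt_or_eq_of_le (hr01 p₀.1).1 with h | h
            · exact h
            · exfalso
              apply hp₀
              apply hUZ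
              rcases (hrz p₀.1).1 h.symm with h1 | ⟨y, hy⟩
              · exact Or.inr h1
              · exact Or.inl ⟨y, Subtype.ext hy.symm⟩
          refine ⟨κ * r p₀.1, mul_pos hκ0 hpos', fun p hp => ?_⟩
          exact mul_le_mul_of_nonneg_left
            (hmin (show p ∈ (Uᶜ : Set (Metric.closedBall (0 : Fin (d + 3) → ℝ) R₁)) from hp)) hκ0.le
      obtain ⟨M, hM⟩ := exists_nat_gt (2 * R₁ / c)
      refine ⟨M, fun y T hTb => ?_⟩
      have hup : ∀ n : ℕ, (y.1 2) + c * (T.filter (· < n)).card ≤ (H^[n] y).1 2 := by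
        intro n
        induction n with
        | zero =>
          have h1 : T.filter (· < 0) = ∅ := by
            apply Finset.filter_eq_empty_iff.2
            intro x _
            omega
          rw [h1, Finset.card_empty]
          simp
        | succ n ih =>
          rw [Function.iterate_succ_apply', hHval, hFt]
          have hr0 := hr01 (H^[n] y).1
          by_cases hn : n ∈ T
          · have h1 : T.filter (· < n + 1) = insert n (T.filter (· < n)) := by
              ext k
              simp only [Finset.mem_filter, Finset.mem_insert]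
              constructor
              · rintro ⟨h2, h3⟩
                rcases Nat.lt_succ_iff_lt_or_eq.1 h3 with h4 | h4
                · exact Or.inr ⟨h2, h4⟩
                · exact Or.inl h4
              · rintro (h2 | ⟨h2, h3⟩)
                · exact ⟨h2 ▸ hn, by omega⟩
                · exact ⟨h2, by omega⟩
            rw [h1, Finset.card_insert_of_notMem (by simp)]
            have h2 := hc _ (hTb n hn)
            push_cast
            linarith
          · have h1 : T.filter (· < n + 1) = T.filter (· < n) := by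
              ext k
              simp only [Finset.mem_filter]
              constructor
              · rintro ⟨h2, h3⟩
                refine ⟨h2, ?_⟩
                rcases Nat.lt_succ_iff_lt_or_eq.1 h3 with h4 | h4
                · exact h4
                · exact absurd (h4 ▸ h2) hn
              · rintro ⟨h2, h3⟩
                exact ⟨h2, by omega⟩
            rw [h1]
            have := mul_nonneg hκ0.le hr0.1
            linarith
      have habs : ∀ p : Metric.closedBall (0 : Fin (d + 3) → ℝ) R₁, |p.1 2| ≤ R₁ := by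
        intro p
        have h1 := p.2
        rw [mem_closedBall_zero_iff] at h1
        rw [← Real.norm_eq_abs]
        exact (norm_le_pi_norm _ _).trans h1
      obtain ⟨n, hn⟩ : ∃ n, ∀ i ∈ T, i < n := ⟨T.sup id + 1, fun i hi =>
        Nat.lt_succ_of_le (Finset.le_sup (f := id) hi)⟩
      have h1 := hup n
      rw [Finset.filter_true_of_mem hn] at h1
      have h2 := (abs_le.1 (habs y)).1
      have h3 := (abs_le.1 (habs (H^[n] y))).2
      have h4 : (T.card : ℝ) ≤ 2 * R₁ / c := by
        rw [le_div_iff₀ hc0]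
        linarith
      exact_mod_cast (h4.trans hM.le)
  -- the observable
  refine ⟨⟨fun p => ((max 0 (min 1 (5 * p.1 0 - 2)) : ℝ) : ℂ), ?_⟩, pt x₀, ?_, ?_⟩
  · have h1 : Continuous (fun p : Metric.closedBall (0 : Fin (d + 3) → ℝ) R₁ => p.1 0) :=
      (continuous_apply 0).comp continuous_subtype_val
    exact Complex.continuous_ofReal.comp
      (continuous_const.max (continuous_const.min ((continuous_const.mul h1).sub continuous_const)))
  · rw [← hH]
    exact le_antisymm (not_lt.1 hent) (Dynamics.coverEntropy_nonneg _ ⟨pt x₀, Set.mem_univ _⟩)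
  · intro n
    rw [← hH, hiter]
    show ((max 0 (min 1 (5 * cc (fut ((Sub.shift z)^[n] x₀)) - 2)) : ℝ) : ℂ) = bi z n
    have h0 : fut ((Sub.shift z)^[n] x₀) 0 = z n := by
      show ((Sub.shift z)^[n] x₀).seq ((0 : ℕ) : ℤ) = z n
      rw [Sub.shift_iter, Nat.cast_zero, zero_add, hx₀]
    have h1 := cc_sh (fut ((Sub.shift z)^[n] x₀))
    have h2 := cc_le (sh (fut ((Sub.shift z)^[n] x₀)))
    have h3 := le_cc (sh (fut ((Sub.shift z)^[n] x₀)))
    rw [h0] at h1
    unfold bi
    rcases hbn : z n with _ | _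
    · rw [hbn] at h1
      have h4 : dig false = 1 := rfl
      rw [h4] at h1
      rw [max_eq_left ((min_le_right _ _).trans (by linarith))]
      simp
    · rw [hbn] at h1
      have h4 : dig true = 3 := rfl
      rw [h4] at h1
      rw [min_eq_left (by linarith), max_eq_right zero_le_one]
      simp

end Pool.Agent.W136
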