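import Mathlib

set_option autoImplicit false

namespace Pool.W136.Sq

abbrev E3 := EuclideanSpace ℝ (Fin 3)

/-- Clause satisfaction: the clause with positive mask `P` and negative mask `N`. -/
def Sat (b : Nat → Bool) (P N : Nat) : Prop :=
  ∃ i, (P.testBit i = true ∧ b i = true) ∨ (N.testBit i = true ∧ b i = false)

/-- Width of one mask in the clause table. -/
def W : Nat := 128

/-- The clause table: chunks of 128 clauses, each clause `P + 2^W * N`. -/
def look (D : List Nat) (k : Nat) : Nat :=
  ((D.getD (k / 128) 0) >>> (2 * W * (k % 128))) % (2 ^ (2 * W))

def cP (D : List Nat) (k : Nat) : Nat := look D k % 2 ^ W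
def cN (D : List Nat) (k : Nat) : Nat := look D k / 2 ^ W

/-- Unit propagation along the hints coded by `h` in base 4096 (shifted by one). -/
def rup (D : List Nat) (k : Nat) : (fuel h T F : Nat) → Bool
  | 0, _, _, _ => false
  | fuel + 1, h, T, F =>
    let id := h % 4096 - 1
    let c := look D id
    let P := c % 2 ^ W
    let N := c / 2 ^ W
    let P' := P ^^^ (P &&& F)
    let N' := N ^^^ (N &&& T)
    bif Nat.blt id k then
      bif Nat.beq P' 0 then
        bif Nat.beq N' 0 then true
        else bif Nat.beq N' (2 ^ Nat.log2 N') then rup D k fuel (h / 4096) T (F ||| N')
        else false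
      else bif Nat.beq N' 0 then
        bif Nat.beq P' (2 ^ Nat.log2 P') then rup D k fuel (h / 4096) (T ||| P') F
        else false
      else false
    else false

theorem testBit_diff {P F i : Nat} (h : P.testBit i = true) (hF : F.testBit i = false) :
    (P ^^^ (P &&& F)).testBit i = true := by
  simp [Nat.testBit_xor, Nat.testBit_and, h, hF]

theorem eq_log_of_testBit {x i : Nat} (hx : x = 2 ^ Nat.log2 x) (h : x.testBit i = true) :
    i = Nat.log2 x := by
  rw [hx, Nat.testBit_two_pow] at h
  simpa using (of_decide_eq_true h).symm

theorem rup_sound (b : Nat → Bool) (D : List Nat) (k : Nat)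
    (hk : ∀ j, j < k → Sat b (cP D j) (cN D j)) :
    ∀ (fuel h T F : Nat), (∀ i, T.testBit i = true → b i = true) →
      (∀ i, F.testBit i = true → b i = false) → rup D k fuel h T F = true → False := by
  intro fuel
  induction fuel with
  | zero => intro h T F _ _ hr; simp [rup] at hr
  | succ fuel ih =>
    intro h T F hT hF hr
    rw [rup] at hr
    simp only [Bool.cond_eq_ite] at hr
    split_ifs at hr with h1 h2 h3 h4 h5 h6
    · -- conflict
      have hlt : h % 4096 - 1 < k := by simpa [Nat.blt] using h1
      obtain ⟨i, hi⟩ := hk _ hlt
      unfold cP cN at hi
      rcases hi with ⟨hp, hb⟩ | ⟨hn, hb⟩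
      · have hFi : F.testBit i = false := by
          by_contra hc
          have := hF i (by simpa using hc)
          simp [this] at hb
        have := testBit_diff hp hFi
        rw [Nat.eq_of_beq_eq_true h2] at this
        simp at this
      · have hTi : T.testBit i = false := by
          by_contra hc
          have := hT i (by simpa using hc)
          simp [this] at hb
        have := testBit_diff hn hTi
        rw [Nat.eq_of_beq_eq_true h3] at this
        simp at this
    · -- N' single
      have hlt : h % 4096 - 1 < k := by simpa [Nat.blt] using h1
      obtain ⟨i, hi⟩ := hk _ hlt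
      unfold cP cN at hi
      refine ih _ _ _ hT ?_ hr
      intro j hj
      rw [Nat.testBit_or, Bool.or_eq_true] at hj
      rcases hj with hj | hj
      · exact hF j hj
      · rcases hi with ⟨hp, hb⟩ | ⟨hn, hb⟩
        · exfalso
          have hFi : F.testBit i = false := by
            by_contra hc
            have := hF i (by simpa using hc)
            simp [this] at hb
          have := testBit_diff hp hFi
          rw [Nat.eq_of_beq_eq_true h2] at this
          simp at this
        · have hTi : T.testBit i = false := by
            by_contra hc
            have := hT i (by simpa using hc)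
            simp [this] at hb
          have h7 := eq_log_of_testBit (Nat.eq_of_beq_eq_true h4) (testBit_diff hn hTi)
          have h8 := eq_log_of_testBit (Nat.eq_of_beq_eq_true h4) hj
          rw [h8, ← h7]; exact hb
    · -- P' single
      have hlt : h % 4096 - 1 < k := by simpa [Nat.blt] using h1
      obtain ⟨i, hi⟩ := hk _ hlt
      unfold cP cN at hi
      refine ih _ _ _ ?_ hF hr
      intro j hj
      rw [Nat.testBit_or, Bool.or_eq_true] at hj
      rcases hj with hj | hj
      · exact hT j hj
      · rcases hi with ⟨hp, hb⟩ | ⟨hn, hb⟩
        · have hFi : F.testBit i = false := by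
            by_contra hc
            have := hF i (by simpa using hc)
            simp [this] at hb
          have h7 := eq_log_of_testBit (Nat.eq_of_beq_eq_true h6) (testBit_diff hp hFi)
          have h8 := eq_log_of_testBit (Nat.eq_of_beq_eq_true h6) hj
          rw [h8, ← h7]; exact hb
        · exfalso
          have hTi : T.testBit i = false := by
            by_contra hc
            have := hT i (by simpa using hc)
            simp [this] at hb
          have := testBit_diff hn hTi
          rw [Nat.eq_of_beq_eq_true h5] at this
          simp at this

/-- Check the derived clauses with numbers `k, k+1, ...`, whose hints are listed. -/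
def steps (D : List Nat) (fuel : Nat) : (k : Nat) → List Nat → Bool
  | _, [] => true
  | k, h :: hs => bif rup D k fuel h (cN D k) (cP D k) then steps D fuel (k + 1) hs else false

theorem steps_sound (b : Nat → Bool) (D : List Nat) (fuel : Nat) :
    ∀ (hs : List Nat) (k : Nat), (∀ j, j < k → Sat b (cP D j) (cN D j)) →
      steps D fuel k hs = true → ∀ j, j < k + hs.length → Sat b (cP D j) (cN D j) := by
  intro hs
  induction hs with
  | nil => intro k hk _ j hj; exact hk j (by simpa using hj)
  | cons h hs ih =>
    intro k hk hst j hj
    rw [steps] at hst
    simp only [Bool.cond_eq_ite] at hst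
    split_ifs at hst with h1
    refine ih (k + 1) ?_ hst j (by simp at hj; omega)
    intro i hi
    rcases Nat.lt_or_ge i k with h2 | h2
    · exact hk i h2
    · have hik : i = k := by omega
      subst hik
      by_contra hc
      unfold Sat at hc
      push Not at hc
      refine rup_sound b D i hk fuel h _ _ ?_ ?_ h1
      · intro t ht
        have := (hc t).2 ht
        simpa using this
      · intro t ht
        have := (hc t).1 ht
        simpa using this

end Pool.W136.Sq
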