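import Mathlib
import Pool.Agent.W136.SqBase

set_option autoImplicit false

namespace Pool.W136.Sq

open Real

/-- An integer code `(a1,b1,a2,b2,a3,b3)` of the point `((a_i + b_i √2)/2)_i`. -/
structure V where
  a1 : Int
  b1 : Int
  a2 : Int
  b2 : Int
  a3 : Int
  b3 : Int

noncomputable def re (v : V) : E3 :=
  !₂[((v.a1 : ℝ) + v.b1 * √2) / 2, ((v.a2 : ℝ) + v.b2 * √2) / 2, ((v.a3 : ℝ) + v.b3 * √2) / 2]

def dig (x k : Nat) : Int := Int.sub (Int.ofNat (x / 32 ^ k % 32)) 16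

def dec (x : Nat) : V := ⟨dig x 0, dig x 1, dig x 2, dig x 3, dig x 4, dig x 5⟩

def pcode (Q i : Nat) : Nat := (Q >>> (32 * i)) % 2 ^ 32

def nrmOK (p q : V) : Bool :=
  decide ((q.a1 - p.a1) * (q.a1 - p.a1) + 2 * ((q.b1 - p.b1) * (q.b1 - p.b1))
    + (q.a2 - p.a2) * (q.a2 - p.a2) + 2 * ((q.b2 - p.b2) * (q.b2 - p.b2))
    + (q.a3 - p.a3) * (q.a3 - p.a3) + 2 * ((q.b3 - p.b3) * (q.b3 - p.b3)) = 4) &&
  decide ((q.a1 - p.a1) * (q.b1 - p.b1) + (q.a2 - p.a2) * (q.b2 - p.b2)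
    + (q.a3 - p.a3) * (q.b3 - p.b3) = 0)

def ortOK (p q s : V) : Bool :=
  decide ((q.a1 - p.a1) * (s.a1 - p.a1) + 2 * ((q.b1 - p.b1) * (s.b1 - p.b1))
    + (q.a2 - p.a2) * (s.a2 - p.a2) + 2 * ((q.b2 - p.b2) * (s.b2 - p.b2))
    + (q.a3 - p.a3) * (s.a3 - p.a3) + 2 * ((q.b3 - p.b3) * (s.b3 - p.b3)) = 0) &&
  decide ((q.a1 - p.a1) * (s.b1 - p.b1) + (q.b1 - p.b1) * (s.a1 - p.a1)
    + (q.a2 - p.a2) * (s.b2 - p.b2) + (q.b2 - p.b2) * (s.a2 - p.a2)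
    + (q.a3 - p.a3) * (s.b3 - p.b3) + (q.b3 - p.b3) * (s.a3 - p.a3) = 0)

def sumOK (p q s r : V) : Bool :=
  decide (r.a1 = q.a1 + s.a1 - p.a1) && decide (r.b1 = q.b1 + s.b1 - p.b1) &&
  decide (r.a2 = q.a2 + s.a2 - p.a2) && decide (r.b2 = q.b2 + s.b2 - p.b2) &&
  decide (r.a3 = q.a3 + s.a3 - p.a3) && decide (r.b3 = q.b3 + s.b3 - p.b3)

/-- Ball check: `4 * |re p|^2 ≤ K / 10000`. -/
def ballOK (K : Int) (p : V) : Bool :=
  decide (10000 * (p.a1 * p.a1 + 2 * (p.b1 * p.b1) + p.a2 * p.a2 + 2 * (p.b2 * p.b2)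
      + p.a3 * p.a3 + 2 * (p.b3 * p.b3)) + 28284 * (p.a1 * p.b1 + p.a2 * p.b2 + p.a3 * p.b3)
      ≤ K) &&
  decide (10000 * (p.a1 * p.a1 + 2 * (p.b1 * p.b1) + p.a2 * p.a2 + 2 * (p.b2 * p.b2)
      + p.a3 * p.a3 + 2 * (p.b3 * p.b3)) + 28286 * (p.a1 * p.b1 + p.a2 * p.b2 + p.a3 * p.b3)
      ≤ K)

theorem s2 : √2 * √2 = (2 : ℝ) := Real.mul_self_sqrt (by norm_num)

theorem norm_re {p q : V} (h : nrmOK p q = true) : ‖re q - re p‖ = 1 := by
  unfold nrmOK at h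
  rw [Bool.and_eq_true, decide_eq_true_eq, decide_eq_true_eq] at h
  obtain ⟨h1, h2⟩ := h
  have h1' : ((q.a1 : ℝ) - p.a1) * (q.a1 - p.a1) + 2 * (((q.b1 : ℝ) - p.b1) * (q.b1 - p.b1))
    + ((q.a2 : ℝ) - p.a2) * (q.a2 - p.a2) + 2 * (((q.b2 : ℝ) - p.b2) * (q.b2 - p.b2))
    + ((q.a3 : ℝ) - p.a3) * (q.a3 - p.a3) + 2 * (((q.b3 : ℝ) - p.b3) * (q.b3 - p.b3)) = 4 := by
    exact_mod_cast h1
  have h2' : ((q.a1 : ℝ) - p.a1) * (q.b1 - p.b1) + ((q.a2 : ℝ) - p.a2) * (q.b2 - p.b2)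
    + ((q.a3 : ℝ) - p.a3) * (q.b3 - p.b3) = 0 := by exact_mod_cast h2
  have h3 : ‖re q - re p‖ ^ 2 = 1 := by
    rw [EuclideanSpace.norm_sq_eq]
    simp only [re, Fin.sum_univ_three, PiLp.sub_apply, Real.norm_eq_abs, sq_abs]
    simp
    have := s2
    linear_combination (1 / 4 : ℝ) * h1' + (√2 / 2) * h2' +
      (1 / 4 : ℝ) * (((q.b1 : ℝ) - p.b1) * (q.b1 - p.b1) + ((q.b2 : ℝ) - p.b2) * (q.b2 - p.b2)
        + ((q.b3 : ℝ) - p.b3) * (q.b3 - p.b3)) * this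
  have h4 : (0 : ℝ) ≤ ‖re q - re p‖ := norm_nonneg _
  nlinarith [h3, h4]

theorem inner_re {p q s : V} (h : ortOK p q s = true) :
    inner ℝ (re q - re p) (re s - re p) = (0 : ℝ) := by
  unfold ortOK at h
  rw [Bool.and_eq_true, decide_eq_true_eq, decide_eq_true_eq] at h
  obtain ⟨h1, h2⟩ := h
  have h1' : ((q.a1 : ℝ) - p.a1) * (s.a1 - p.a1) + 2 * (((q.b1 : ℝ) - p.b1) * (s.b1 - p.b1))
    + ((q.a2 : ℝ) - p.a2) * (s.a2 - p.a2) + 2 * (((q.b2 : ℝ) - p.b2) * (s.b2 - p.b2))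
    + ((q.a3 : ℝ) - p.a3) * (s.a3 - p.a3) + 2 * (((q.b3 : ℝ) - p.b3) * (s.b3 - p.b3)) = 0 := by
    exact_mod_cast h1
  have h2' : ((q.a1 : ℝ) - p.a1) * (s.b1 - p.b1) + ((q.b1 : ℝ) - p.b1) * (s.a1 - p.a1)
    + ((q.a2 : ℝ) - p.a2) * (s.b2 - p.b2) + ((q.b2 : ℝ) - p.b2) * (s.a2 - p.a2)
    + ((q.a3 : ℝ) - p.a3) * (s.b3 - p.b3) + ((q.b3 : ℝ) - p.b3) * (s.a3 - p.a3) = 0 := by
    exact_mod_cast h2
  simp only [PiLp.inner_apply, re, Fin.sum_univ_three, PiLp.sub_apply]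
  simp
  have := s2
  linear_combination (1 / 4 : ℝ) * h1' + (√2 / 4) * h2' +
    (1 / 4 : ℝ) * (((q.b1 : ℝ) - p.b1) * (s.b1 - p.b1) + ((q.b2 : ℝ) - p.b2) * (s.b2 - p.b2)
      + ((q.b3 : ℝ) - p.b3) * (s.b3 - p.b3)) * this

theorem sum_re {p q s r : V} (h : sumOK p q s r = true) : re r = re q + re s - re p := by
  unfold sumOK at h
  simp only [Bool.and_eq_true, decide_eq_true_eq] at h
  obtain ⟨⟨⟨⟨⟨h1, h2⟩, h3⟩, h4⟩, h5⟩, h6⟩ := h
  ext i
  fin_cases i <;> simp [re, h1, h2, h3, h4, h5, h6] <;> ring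

theorem ball_re {K : Int} {p : V} (h : ballOK K p = true) : 40000 * ‖re p‖ ^ 2 ≤ (K : ℝ) := by
  unfold ballOK at h
  rw [Bool.and_eq_true, decide_eq_true_eq, decide_eq_true_eq] at h
  obtain ⟨h1, h2⟩ := h
  have h1' : 10000 * ((p.a1 : ℝ) * p.a1 + 2 * (p.b1 * p.b1) + p.a2 * p.a2 + 2 * (p.b2 * p.b2)
      + p.a3 * p.a3 + 2 * (p.b3 * p.b3)) + 28284 * (p.a1 * p.b1 + p.a2 * p.b2 + p.a3 * p.b3)
      ≤ K := by exact_mod_cast h1
  have h2' : 10000 * ((p.a1 : ℝ) * p.a1 + 2 * (p.b1 * p.b1) + p.a2 * p.a2 + 2 * (p.b2 * p.b2)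
      + p.a3 * p.a3 + 2 * (p.b3 * p.b3)) + 28286 * (p.a1 * p.b1 + p.a2 * p.b2 + p.a3 * p.b3)
      ≤ K := by exact_mod_cast h2
  have h3 : ‖re p‖ ^ 2 = (((p.a1 : ℝ) * p.a1 + 2 * (p.b1 * p.b1) + p.a2 * p.a2
      + 2 * (p.b2 * p.b2) + p.a3 * p.a3 + 2 * (p.b3 * p.b3))
      + 2 * √2 * (p.a1 * p.b1 + p.a2 * p.b2 + p.a3 * p.b3)) / 4 := by
    rw [EuclideanSpace.norm_sq_eq]
    simp only [re, Fin.sum_univ_three, Real.norm_eq_abs, sq_abs]
    simp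
    have := s2
    linear_combination (1 / 4 : ℝ) * ((p.b1 : ℝ) * p.b1 + p.b2 * p.b2 + p.b3 * p.b3) * this
  have h4 : (1.4142 : ℝ) ≤ √2 := Real.le_sqrt_of_sq_le (by norm_num)
  have h5 : √2 ≤ (1.4143 : ℝ) := by
    rw [Real.sqrt_le_left (by norm_num)]; norm_num
  rw [h3]
  generalize ((p.a1 : ℝ) * p.b1 + p.a2 * p.b2 + p.a3 * p.b3) = B at *
  rcases le_total 0 B with hB | hB
  · nlinarith
  · nlinarith

/-- Mask with the bits `i, j, k, l` selected by the bits of `m`. -/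
def mkM (m i j k l : Nat) : Nat :=
  (bif m.testBit 0 then 2 ^ i else 0) ||| (bif m.testBit 1 then 2 ^ j else 0) |||
    (bif m.testBit 2 then 2 ^ k else 0) ||| (bif m.testBit 3 then 2 ^ l else 0)

/-- The clause `(pm, nm)` holds for all allowed colour quadruples. -/
def Valid (al : Bool → Bool → Bool → Bool → Bool) (pm nm : Nat) : Prop :=
  ∀ a b c d : Bool, al a b c d = true →
    (pm.testBit 0 = true ∧ a = true) ∨ (pm.testBit 1 = true ∧ b = true) ∨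
    (pm.testBit 2 = true ∧ c = true) ∨ (pm.testBit 3 = true ∧ d = true) ∨
    (nm.testBit 0 = true ∧ a = false) ∨ (nm.testBit 1 = true ∧ b = false) ∨
    (nm.testBit 2 = true ∧ c = false) ∨ (nm.testBit 3 = true ∧ d = false)

theorem sat_of_valid {al : Bool → Bool → Bool → Bool → Bool} {pm nm : Nat} (hv : Valid al pm nm)
    (b : Nat → Bool) (i j k l : Nat) (h : al (b i) (b j) (b k) (b l) = true) :
    Sat b (mkM pm i j k l) (mkM nm i j k l) := by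
  rcases hv _ _ _ _ h with ⟨h1, h2⟩ | ⟨h1, h2⟩ | ⟨h1, h2⟩ | ⟨h1, h2⟩ | ⟨h1, h2⟩ | ⟨h1, h2⟩ |
    ⟨h1, h2⟩ | ⟨h1, h2⟩
  · exact ⟨i, Or.inl ⟨by simp [mkM, h1, Nat.testBit_or, Nat.testBit_two_pow_self], h2⟩⟩
  · exact ⟨j, Or.inl ⟨by simp [mkM, h1, Nat.testBit_or, Nat.testBit_two_pow_self], h2⟩⟩
  · exact ⟨k, Or.inl ⟨by simp [mkM, h1, Nat.testBit_or, Nat.testBit_two_pow_self], h2⟩⟩
  · exact ⟨l, Or.inl ⟨by simp [mkM, h1, Nat.testBit_or, Nat.testBit_two_pow_self], h2⟩⟩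
  · exact ⟨i, Or.inr ⟨by simp [mkM, h1, Nat.testBit_or, Nat.testBit_two_pow_self], h2⟩⟩
  · exact ⟨j, Or.inr ⟨by simp [mkM, h1, Nat.testBit_or, Nat.testBit_two_pow_self], h2⟩⟩
  · exact ⟨k, Or.inr ⟨by simp [mkM, h1, Nat.testBit_or, Nat.testBit_two_pow_self], h2⟩⟩
  · exact ⟨l, Or.inr ⟨by simp [mkM, h1, Nat.testBit_or, Nat.testBit_two_pow_self], h2⟩⟩

/-- Check of one original clause: `e` codes `i, j, k, l` (7 bits each) and the clause kind. -/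
def origOK (D : List Nat) (Q : Nat) (K : Int) (kinds : List (Nat × Nat)) (n e : Nat) : Bool :=
  let i := e % 128
  let j := e / 128 % 128
  let k := e / 128 ^ 2 % 128
  let l := e / 128 ^ 3 % 128
  let kd := kinds.getD (e / 128 ^ 4) (15, 15)
  let p := dec (pcode Q i)
  let q := dec (pcode Q j)
  let s := dec (pcode Q k)
  let r := dec (pcode Q l)
  Nat.beq (cP D n) (mkM kd.1 i j k l) && Nat.beq (cN D n) (mkM kd.2 i j k l) &&
    nrmOK p q && nrmOK p s && ortOK p q s && sumOK p q s r &&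
    ballOK K p && ballOK K q && ballOK K s && ballOK K r

def origsOK (D : List Nat) (Q : Nat) (K : Int) (kinds : List (Nat × Nat)) : (n : Nat) → List Nat → Bool
  | _, [] => true
  | n, e :: es => bif origOK D Q K kinds n e then origsOK D Q K kinds (n + 1) es else false

/-- The colour sequence of the coded points, translated by `c`. -/
noncomputable def colour (f : E3 → Fin 2) (c : E3) (x : Fin 2) (Q : Nat) (i : Nat) : Bool :=
  decide (f (c + re (dec (pcode Q i))) = x)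

theorem origOK_sound {D : List Nat} {Q : Nat} {K : Int} {kinds : List (Nat × Nat)} {n e : Nat}
    (al : Bool → Bool → Bool → Bool → Bool) (hk : ∀ x ∈ kinds, Valid al x.1 x.2)
    (h15 : Valid al 15 15)
    (f : E3 → Fin 2) (c : E3) (x : Fin 2)
    (H : ∀ p q s : E3, (∀ y ∈ ({p, q, s, q + s - p} : Set E3), 40000 * ‖y - c‖ ^ 2 ≤ (K : ℝ)) →
      ‖q - p‖ = 1 → ‖s - p‖ = 1 → inner ℝ (q - p) (s - p) = (0 : ℝ) →
      al (decide (f p = x)) (decide (f q = x)) (decide (f s = x))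
        (decide (f (q + s - p) = x)) = true)
    (h : origOK D Q K kinds n e = true) :
    Sat (colour f c x Q) (cP D n) (cN D n) := by
  unfold origOK at h
  simp only [Bool.and_eq_true] at h
  obtain ⟨⟨⟨⟨⟨⟨⟨⟨⟨h1, h2⟩, h3⟩, h4⟩, h5⟩, h6⟩, h7⟩, h8⟩, h9⟩, h10⟩ := h
  rw [Nat.eq_of_beq_eq_true h1, Nat.eq_of_beq_eq_true h2]
  have hv : Valid al (kinds.getD (e / 128 ^ 4) (15, 15)).1 (kinds.getD (e / 128 ^ 4) (15, 15)).2 := by
    rcases Nat.lt_or_ge (e / 128 ^ 4) kinds.length with hlt | hge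
    · rw [List.getD_eq_getElem _ _ hlt]
      exact hk _ (List.getElem_mem hlt)
    · rw [List.getD_eq_default _ _ hge]
      exact h15
  refine sat_of_valid hv _ _ _ _ _ ?_
  have hs := sum_re h6
  have key := H (c + re (dec (pcode Q (e % 128)))) (c + re (dec (pcode Q (e / 128 % 128))))
    (c + re (dec (pcode Q (e / 128 ^ 2 % 128))))
  have e1 : c + re (dec (pcode Q (e / 128 % 128))) + (c + re (dec (pcode Q (e / 128 ^ 2 % 128)))) -
      (c + re (dec (pcode Q (e % 128)))) = c + re (dec (pcode Q (e / 128 ^ 3 % 128))) := by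
    rw [hs]; abel
  rw [e1] at key
  refine key ?_ ?_ ?_ ?_
  · intro y hy
    simp only [Set.mem_insert_iff, Set.mem_singleton_iff] at hy
    rcases hy with rfl | rfl | rfl | rfl
    · rw [add_sub_cancel_left]; exact ball_re h7
    · rw [add_sub_cancel_left]; exact ball_re h8
    · rw [add_sub_cancel_left]; exact ball_re h9
    · rw [add_sub_cancel_left]; exact ball_re h10
  · rw [add_sub_add_left_eq_sub]; exact norm_re h3
  · rw [add_sub_add_left_eq_sub]; exact norm_re h4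
  · rw [add_sub_add_left_eq_sub, add_sub_add_left_eq_sub]; exact inner_re h5

theorem origsOK_sound {D : List Nat} {Q : Nat} {K : Int} {kinds : List (Nat × Nat)}
    (al : Bool → Bool → Bool → Bool → Bool) (hk : ∀ x ∈ kinds, Valid al x.1 x.2)
    (h15 : Valid al 15 15)
    (f : E3 → Fin 2) (c : E3) (x : Fin 2)
    (H : ∀ p q s : E3, (∀ y ∈ ({p, q, s, q + s - p} : Set E3), 40000 * ‖y - c‖ ^ 2 ≤ (K : ℝ)) →
      ‖q - p‖ = 1 → ‖s - p‖ = 1 → inner ℝ (q - p) (s - p) = (0 : ℝ) →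
      al (decide (f p = x)) (decide (f q = x)) (decide (f s = x))
        (decide (f (q + s - p) = x)) = true) :
    ∀ (es : List Nat) (n : Nat), (∀ j, j < n → Sat (colour f c x Q) (cP D j) (cN D j)) →
      origsOK D Q K kinds n es = true →
      ∀ j, j < n + es.length → Sat (colour f c x Q) (cP D j) (cN D j) := by
  intro es
  induction es with
  | nil => intro n hn _ j hj; exact hn j (by simpa using hj)
  | cons e es ih =>
    intro n hn h j hj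
    rw [origsOK] at h
    simp only [Bool.cond_eq_ite] at h
    split_ifs at h with h1
    refine ih (n + 1) ?_ h j (by simp at hj; omega)
    intro i hi
    rcases Nat.lt_or_ge i n with h2 | h2
    · exact hn i h2
    · have hik : i = n := by omega
      subst hik
      exact origOK_sound al hk h15 f c x H h1

end Pool.W136.Sq
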